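import Pool.Agent.Lib.Helper7.Heller5

set_option autoImplicit false

namespace HellerS

open Matrix

/-- network matrices are totally unimodular -/
lemma network_det {α : Type*} [DecidableEq α] : ∀ (k : ℕ) (f : Fin k → α) (a b : Fin k → α),
    Function.Injective f →
    |(Matrix.of fun i j => (if f i = a j then (1 : ℝ) else 0) - (if f i = b j then 1 else 0)).det|
      ≤ 1 := by
  intro k
  induction k with
  | zero => intro f a b _; simp
  | succ k ih =>
    intro f a b hf
    set N : Matrix (Fin (k + 1)) (Fin (k + 1)) ℝ := Matrix.of fun i j =>
      (if f i = a j then (1 : ℝ) else 0) - (if f i = b j then 1 else 0) with hN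
    have hexp : ∀ (i0 j0 : Fin (k + 1)), |N i0 j0| ≤ 1 → (∀ i, i ≠ i0 → N i j0 = 0) →
        |N.det| ≤ 1 := by
      intro i0 j0 h1 h2
      rw [Matrix.det_succ_column N j0, Finset.sum_eq_single i0]
      · rw [abs_mul, abs_mul, abs_pow, abs_neg, abs_one, one_pow, one_mul]
        have h3 := ih (f ∘ i0.succAbove) (a ∘ j0.succAbove) (b ∘ j0.succAbove)
          (hf.comp (Fin.succAbove_right_injective))
        have h4 : |(N.submatrix i0.succAbove j0.succAbove).det| ≤ 1 := h3
        calc |N i0 j0| * |(N.submatrix i0.succAbove j0.succAbove).det| ≤ 1 * 1 :=
              mul_le_mul h1 h4 (abs_nonneg _) zero_le_one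
          _ = 1 := one_mul 1
      · intro i _ hi
        rw [h2 i hi]; ring
      · intro h; exact absurd (Finset.mem_univ _) h
    by_cases h : ∃ j, (∀ i, f i ≠ a j) ∨ (∀ i, f i ≠ b j)
    · obtain ⟨j, hj⟩ := h
      by_cases hz : ∀ i, N i j = 0
      · rw [Matrix.det_eq_zero_of_column_eq_zero j hz]; simp
      · push Not at hz
        obtain ⟨i0, hi0⟩ := hz
        rcases hj with hj | hj
        · have e : ∀ i, N i j = - (if f i = b j then 1 else 0) := by
            intro i; simp [hN, hj i]
          have hb : f i0 = b j := by
            by_contra hne
            apply hi0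
            rw [e, if_neg hne]; simp
          apply hexp i0 j
          · rw [e, if_pos hb]; simp
          · intro i hi
            rw [e, if_neg]
            · simp
            · intro h'; exact hi (hf (h'.trans hb.symm))
        · have e : ∀ i, N i j = (if f i = a j then 1 else 0) := by
            intro i; simp [hN, hj i]
          have hb : f i0 = a j := by
            by_contra hne
            apply hi0
            rw [e, if_neg hne]
          apply hexp i0 j
          · rw [e, if_pos hb]; simp
          · intro i hi
            rw [e, if_neg]
            intro h'; exact hi (hf (h'.trans hb.symm))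
    · push Not at h
      have h0 : N.det = 0 := by
        rw [← Matrix.exists_vecMul_eq_zero_iff]
        refine ⟨fun _ => 1, ?_, ?_⟩
        · intro hc
          have := congrFun hc 0
          simp at this
        · funext j
          obtain ⟨⟨i1, hi1⟩, ⟨i2, hi2⟩⟩ := h j
          simp only [Matrix.vecMul, dotProduct, one_mul, Pi.zero_apply, hN, Matrix.of_apply,
            Finset.sum_sub_distrib]
          have s1 : ∑ i, (if f i = a j then (1 : ℝ) else 0) = 1 := by
            rw [Finset.sum_eq_single i1]
            · rw [if_pos hi1]
            · intro i _ hi
              rw [if_neg]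
              intro h'; exact hi (hf (h'.trans hi1.symm))
            · intro h; exact absurd (Finset.mem_univ _) h
          have s2 : ∑ i, (if f i = b j then (1 : ℝ) else 0) = 1 := by
            rw [Finset.sum_eq_single i2]
            · rw [if_pos hi2]
            · intro i _ hi
              rw [if_neg]
              intro h'; exact hi (hf (h'.trans hi2.symm))
            · intro h; exact absurd (Finset.mem_univ _) h
          rw [s1, s2, sub_self]
      rw [h0]; simp

end HellerS
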