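import Pool.Agent.Lib.Helper7.Heller3

set_option autoImplicit false

namespace HellerS

open Matrix

open Classical in
section

variable {ι : Type*}

/-- restriction to the rows in `S`, extended by zero -/
noncomputable def res (S : Finset ι) (c : ι → ℝ) : ι → ℝ := fun i => if i ∈ S then c i else 0

lemma res_mem {S : Finset ι} {c : ι → ℝ} {i : ι} (h : i ∈ S) : res S c i = c i := if_pos h
lemma res_notMem {S : Finset ι} {c : ι → ℝ} {i : ι} (h : i ∉ S) : res S c i = 0 := if_neg h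

lemma res_eq_iff {S : Finset ι} {c c' : ι → ℝ} : res S c = res S c' ↔ ∀ i ∈ S, c i = c' i := by
  constructor
  · intro h i hi
    have := congrFun h i
    rwa [res_mem hi, res_mem hi] at this
  · intro h
    funext i
    by_cases hi : i ∈ S
    · rw [res_mem hi, res_mem hi, h i hi]
    · rw [res_notMem hi, res_notMem hi]

lemma res_res {S T : Finset ι} (h : S ⊆ T) (c : ι → ℝ) : res S (res T c) = res S c := by
  rw [res_eq_iff]
  intro i hi
  exact res_mem (h hi)

/-- the set of restrictions -/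
noncomputable def pr (M : Finset (ι → ℝ)) (S : Finset ι) : Finset (ι → ℝ) := M.image (res S)

/-- restrictions having two different values in row `i` above them -/
noncomputable def DD (M : Finset (ι → ℝ)) (S : Finset ι) (i : ι) : Finset (ι → ℝ) :=
  (pr M S).filter (fun ρ => ∃ c ∈ M, ∃ c' ∈ M, res S c = ρ ∧ res S c' = ρ ∧ c i ≠ c' i)

/-- restrictions having the values `x` and `y` in row `i` above them -/
noncomputable def Dxy (M : Finset (ι → ℝ)) (S : Finset ι) (i : ι) (x y : ℝ) :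
    Finset (ι → ℝ) :=
  (pr M S).filter (fun ρ => ∃ c ∈ M, ∃ c' ∈ M, res S c = ρ ∧ res S c' = ρ ∧ c i = x ∧ c' i = y)

lemma mem_Dxy {M : Finset (ι → ℝ)} {S : Finset ι} {i : ι} {x y : ℝ} {ρ : ι → ℝ} :
    ρ ∈ Dxy M S i x y ↔
      ∃ c ∈ M, ∃ c' ∈ M, res S c = ρ ∧ res S c' = ρ ∧ c i = x ∧ c' i = y := by
  unfold Dxy
  rw [Finset.mem_filter]
  constructor
  · exact fun h => h.2
  · rintro ⟨c, hc, c', hc', h1, h2, h3, h4⟩
    exact ⟨Finset.mem_image.2 ⟨c, hc, h1⟩, c, hc, c', hc', h1, h2, h3, h4⟩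

lemma mem_DD {M : Finset (ι → ℝ)} {S : Finset ι} {i : ι} {ρ : ι → ℝ} :
    ρ ∈ DD M S i ↔
      ∃ c ∈ M, ∃ c' ∈ M, res S c = ρ ∧ res S c' = ρ ∧ c i ≠ c' i := by
  unfold DD
  rw [Finset.mem_filter]
  constructor
  · exact fun h => h.2
  · rintro ⟨c, hc, c', hc', h1, h2, h3⟩
    exact ⟨Finset.mem_image.2 ⟨c, hc, h1⟩, c, hc, c', hc', h1, h2, h3⟩

/-- adding one row -/
lemma card_insert_row {M : Finset (ι → ℝ)} (h3 : ∀ r, (M.image (fun c => c r)).card ≤ 3)
    {S : Finset ι} {i : ι} (hi : i ∉ S) :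
    (pr M (insert i S)).card ≤ (pr M S).card + 2 * (DD M S i).card := by
  have hmaps : ∀ σ ∈ pr M (insert i S), res S σ ∈ pr M S := by
    intro σ hσ
    obtain ⟨c, hc, rfl⟩ := Finset.mem_image.1 hσ
    exact Finset.mem_image.2 ⟨c, hc, (res_res (Finset.subset_insert i S) c).symm⟩
  rw [Finset.card_eq_sum_card_fiberwise hmaps]
  have hfib : ∀ ρ ∈ pr M S, ((pr M (insert i S)).filter (fun σ => res S σ = ρ)).card ≤
      1 + 2 * (if ρ ∈ DD M S i then 1 else 0) := by
    intro ρ _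
    by_cases hD : ρ ∈ DD M S i
    · rw [if_pos hD]
      have : ((pr M (insert i S)).filter (fun σ => res S σ = ρ)).card ≤
          (M.image (fun c => c i)).card := by
        apply Finset.card_le_card_of_injOn (fun σ => σ i)
        · intro σ hσ
          obtain ⟨hσ1, _⟩ := Finset.mem_filter.1 hσ
          obtain ⟨c, hc, rfl⟩ := Finset.mem_image.1 hσ1
          exact Finset.mem_image.2 ⟨c, hc, (res_mem (Finset.mem_insert_self i S)).symm⟩
        · intro σ hσ σ' hσ' he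
          obtain ⟨hσ1, hσ2⟩ := Finset.mem_filter.1 hσ
          obtain ⟨hσ1', hσ2'⟩ := Finset.mem_filter.1 hσ'
          obtain ⟨c, hc, rfl⟩ := Finset.mem_image.1 hσ1
          obtain ⟨c', hc', rfl⟩ := Finset.mem_image.1 hσ1'
          rw [res_res (Finset.subset_insert i S)] at hσ2 hσ2'
          simp only at he
          rw [res_mem (Finset.mem_insert_self i S), res_mem (Finset.mem_insert_self i S)] at he
          rw [res_eq_iff]
          intro j hj
          rcases Finset.mem_insert.1 hj with rfl | hj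
          · exact he
          · exact (res_eq_iff.1 (hσ2.trans hσ2'.symm)) j hj
      have := h3 i
      omega
    · rw [if_neg hD, mul_zero, add_zero, Finset.card_le_one]
      intro σ hσ σ' hσ'
      obtain ⟨hσ1, hσ2⟩ := Finset.mem_filter.1 hσ
      obtain ⟨hσ1', hσ2'⟩ := Finset.mem_filter.1 hσ'
      obtain ⟨c, hc, rfl⟩ := Finset.mem_image.1 hσ1
      obtain ⟨c', hc', rfl⟩ := Finset.mem_image.1 hσ1'
      rw [res_res (Finset.subset_insert i S)] at hσ2 hσ2'
      rw [res_eq_iff]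
      intro j hj
      rcases Finset.mem_insert.1 hj with rfl | hj
      · by_contra hne
        exact hD (mem_DD.2 ⟨c, hc, c', hc', hσ2, hσ2', hne⟩)
      · exact (res_eq_iff.1 (hσ2.trans hσ2'.symm)) j hj
  refine (Finset.sum_le_sum hfib).trans ?_
  rw [Finset.sum_add_distrib, ← Finset.mul_sum, Finset.sum_ite_mem]
  simp only [Finset.sum_const, smul_eq_mul, mul_one]
  have : (pr M S ∩ DD M S i).card ≤ (DD M S i).card :=
    Finset.card_le_card Finset.inter_subset_right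
  omega

lemma tele {M : Finset (ι → ℝ)} (h3 : ∀ r, (M.image (fun c => c r)).card ≤ 3)
    (S0 : Finset ι) (B : ℕ) : ∀ T : Finset ι, Disjoint S0 T →
    (∀ S' i, S' ⊆ T → i ∈ T → i ∉ S' → (DD M (S0 ∪ S') i).card ≤ B) →
    (pr M (S0 ∪ T)).card ≤ (pr M S0).card + 2 * B * T.card := by
  intro T
  induction T using Finset.induction_on with
  | empty => intro _ _; simp
  | insert i T hi ih =>
    intro hd hB
    have hd' : Disjoint S0 T := Finset.disjoint_of_subset_right (Finset.subset_insert i T) hd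
    have h1 := ih hd' (fun S' j hS' hj hj' => hB S' j (hS'.trans (Finset.subset_insert i T))
      (Finset.mem_insert_of_mem hj) hj')
    have hi0 : i ∉ S0 ∪ T := by
      rw [Finset.mem_union, not_or]
      exact ⟨fun h => Finset.disjoint_left.1 hd h (Finset.mem_insert_self i T), hi⟩
    have h2 := card_insert_row h3 hi0
    have h4 := hB T i (Finset.subset_insert i T) (Finset.mem_insert_self i T) hi
    rw [Finset.union_insert, Finset.card_insert_of_notMem hi]
    calc _ ≤ _ := h2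
      _ ≤ (pr M S0).card + 2 * B * T.card + 2 * B := by omega
      _ = _ := by ring

/-- splitting into pairs of values -/
lemma card_DD_le {M : Finset (ι → ℝ)} (h3 : ∀ r, (M.image (fun c => c r)).card ≤ 3)
    {S : Finset ι} {i : ι} {B : ℕ}
    (hB : ∀ c ∈ M, ∀ c' ∈ M, c i ≠ c' i → (Dxy M S i (c i) (c' i)).card ≤ B) :
    (DD M S i).card ≤ 9 * B := by
  have hsub : DD M S i ⊆ ((M.image (fun c => c i)) ×ˢ (M.image (fun c => c i))).biUnion
      (fun p => if p.1 ≠ p.2 then Dxy M S i p.1 p.2 else ∅) := by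
    intro ρ hρ
    obtain ⟨c, hc, c', hc', h1, h2, hne⟩ := mem_DD.1 hρ
    rw [Finset.mem_biUnion]
    refine ⟨(c i, c' i), Finset.mem_product.2 ⟨Finset.mem_image.2 ⟨c, hc, rfl⟩,
      Finset.mem_image.2 ⟨c', hc', rfl⟩⟩, ?_⟩
    rw [if_pos hne]
    exact mem_Dxy.2 ⟨c, hc, c', hc', h1, h2, rfl, rfl⟩
  refine (Finset.card_le_card hsub).trans ?_
  refine Finset.card_biUnion_le_card_mul _ _ B ?_ |>.trans ?_
  · rintro ⟨x, y⟩ hp
    rw [Finset.mem_product] at hp
    obtain ⟨c, hc, hcx⟩ := Finset.mem_image.1 hp.1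
    obtain ⟨c', hc', hcy⟩ := Finset.mem_image.1 hp.2
    simp only at hcx hcy
    by_cases hne : x ≠ y
    · rw [if_pos hne, ← hcx, ← hcy]
      apply hB c hc c' hc'
      rw [hcx, hcy]; exact hne
    · rw [if_neg hne]; simp
  · rw [Finset.card_product]
    have h4 := h3 i
    exact Nat.mul_le_mul_right B (Nat.mul_le_mul h4 h4)

lemma card_image3 {M : Finset (ι → ℝ)} {t : ι → ℝ} (hval : ∀ c ∈ M, ∀ r, Al (t r) (c r)) (r : ι) :
    (M.image (fun c => c r)).card ≤ 3 := by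
  by_cases h0 : t r = 0
  · have : M.image (fun c => c r) ⊆ {-1, 0, 1} := by
      intro x hx
      obtain ⟨c, hc, rfl⟩ := Finset.mem_image.1 hx
      rcases hval c hc r with ⟨h, _⟩ | ⟨_, h⟩
      · exact absurd h0 h
      · simpa using h
    exact (Finset.card_le_card this).trans Finset.card_le_three
  · have : M.image (fun c => c r) ⊆ {t r, t r - 1} := by
      intro x hx
      obtain ⟨c, hc, rfl⟩ := Finset.mem_image.1 hx
      rcases hval c hc r with ⟨_, h⟩ | ⟨h, _⟩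
      · simpa using h
      · exact absurd h h0
    exact (Finset.card_le_card this).trans (Finset.card_le_two.trans (by norm_num))

lemma card_image_Dxy {M : Finset (ι → ℝ)} (h3 : ∀ r, (M.image (fun c => c r)).card ≤ 3)
    (S : Finset ι) (i : ι) (x y : ℝ) (r : ι) :
    ((Dxy M S i x y).image (fun c => c r)).card ≤ 3 := by
  by_cases hr : r ∈ S
  · refine (Finset.card_le_card ?_).trans (h3 r)
    intro v hv
    obtain ⟨ρ, hρ, rfl⟩ := Finset.mem_image.1 hv
    obtain ⟨c, hc, c', hc', h1, h2, -, -⟩ := mem_Dxy.1 hρ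
    refine Finset.mem_image.2 ⟨c, hc, ?_⟩
    rw [← h1, res_mem hr]
  · have : (Dxy M S i x y).image (fun c => c r) ⊆ {0} := by
      intro v hv
      obtain ⟨ρ, hρ, rfl⟩ := Finset.mem_image.1 hv
      obtain ⟨c, hc, c', hc', h1, h2, -, -⟩ := mem_Dxy.1 hρ
      rw [Finset.mem_singleton]
      rw [← h1, res_notMem hr]
    exact (Finset.card_le_card this).trans (by simp)

/-- the second derived family is bounded when no shift is one half -/
lemma second_small {M : Finset (ι → ℝ)} {t : ι → ℝ} (hTS : TS (M : Set (ι → ℝ)))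
    (hval : ∀ c ∈ M, ∀ r, Al (t r) (c r)) (ht : ∀ r, 0 ≤ t r ∧ t r < 1) {S S' : Finset ι}
    (hS' : S' ⊆ S) (hhalf : ∀ r ∈ S', t r ≠ 1 / 2) {i j : ι} (hj : j ∈ S) {x y x' y' : ℝ}
    (hxy : 1 ≤ |x - y|) (hxy' : 1 ≤ |x' - y'|) :
    (Dxy (Dxy M S i x y) S' j x' y').card ≤ 3 ^ 12 := by
  have hfour : ∀ ρ ∈ Dxy (Dxy M S i x y) S' j x' y', ∃ e1 ∈ M, ∃ e2 ∈ M, ∃ e3 ∈ M, ∃ e4 ∈ M,
      (∀ r ∈ S', e1 r = ρ r ∧ e2 r = ρ r ∧ e3 r = ρ r ∧ e4 r = ρ r) ∧
      e1 i = x ∧ e1 j = x' ∧ e2 i = y ∧ e2 j = x' ∧ e3 i = x ∧ e3 j = y' ∧ e4 i = y ∧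
      e4 j = y' := by
    intro ρ hρ
    obtain ⟨d, hd, d', hd', h1, h2, h3, h4⟩ := mem_Dxy.1 hρ
    obtain ⟨c1, hc1, c2, hc2, a1, a2, a3, a4⟩ := mem_Dxy.1 hd
    obtain ⟨c3, hc3, c4, hc4, b1, b2, b3, b4⟩ := mem_Dxy.1 hd'
    refine ⟨c1, hc1, c2, hc2, c3, hc3, c4, hc4, ?_, a3, ?_, a4, ?_, b3, ?_, b4, ?_⟩
    · intro r hr
      have e0 : ρ r = d r := by rw [← h1, res_mem hr]
      have e0' : ρ r = d' r := by rw [← h2, res_mem hr]
      refine ⟨?_, ?_, ?_, ?_⟩
      · rw [e0, ← a1, res_mem (hS' hr)]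
      · rw [e0, ← a2, res_mem (hS' hr)]
      · rw [e0', ← b1, res_mem (hS' hr)]
      · rw [e0', ← b2, res_mem (hS' hr)]
    · rw [← h3, ← a1, res_mem hj]
    · rw [← h3, ← a2, res_mem hj]
    · rw [← h4, ← b1, res_mem hj]
    · rw [← h4, ← b2, res_mem hj]
  apply small_of_minors (t := t) (S := (S' : Set ι))
  · intro r hr
    exact ⟨(ht r).1, (ht r).2, hhalf r hr⟩
  · intro ρ hρ r hr
    obtain ⟨e1, he1, e2, he2, e3, he3, e4, he4, h1, -⟩ := hfour ρ hρ
    rw [← (h1 r hr).1]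
    exact hval e1 he1 r
  · intro ρ hρ r hr
    obtain ⟨d, hd, d', hd', h1, -⟩ := mem_Dxy.1 hρ
    rw [← h1]
    exact res_notMem hr
  · intro ρ hρ ρ' hρ' r hr r' hr'
    obtain ⟨e1, he1, e2, he2, e3, he3, e4, he4, h1, a1, a2, a3, a4, a5, a6, a7, a8⟩ := hfour ρ hρ
    obtain ⟨g1, hg1, g2, hg2, g3, hg3, g4, hg4, k1, b1, b2, b3, b4, b5, b6, b7, b8⟩ :=
      hfour ρ' hρ'
    have h2 := hTS.four (e1 := e1) (e2 := e4) (e3 := g3) (e4 := g2) he1 he4 hg3 hg2
      (r := r) (r' := r') (i := i) (j := j)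
      (by rw [(h1 r hr).2.2.2, (h1 r hr).1]) (by rw [(h1 r' hr').2.2.2, (h1 r' hr').1])
      (by rw [(k1 r hr).2.1, (k1 r hr).2.2.1]) (by rw [(k1 r' hr').2.1, (k1 r' hr').2.2.1])
      (by rw [b5, a1]) (by rw [b3, a7]) (by rw [b6, a8]) (by rw [b4, a2])
    rw [(h1 r hr).1, (h1 r' hr').1, (k1 r hr).2.2.1, (k1 r' hr').2.2.1, a7, a8, a1, a2, abs_mul,
      abs_mul, abs_mul, abs_two] at h2
    rw [abs_sub_comm y x, abs_sub_comm y' x'] at h2
    have h5 : 1 ≤ |x - y| * |x' - y'| := by nlinarith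
    have h6 := abs_nonneg (ρ r * ρ' r' - ρ r' * ρ' r)
    nlinarith
  · intro B f c hf hc
    have hex : ∀ j, ∃ e ∈ M, ∀ r ∈ S', e r = c j r := by
      intro k
      obtain ⟨e1, he1, e2, he2, e3, he3, e4, he4, h1, -⟩ := hfour _ (hc k)
      exact ⟨e1, he1, fun r hr => (h1 r hr).1⟩
    choose e he1 he2 using hex
    have := hTS.gen f e he1
    have heq : (Matrix.of fun i j => c j (f i)) = (Matrix.of fun i j => e j (f i)) := by
      ext a b
      exact (he2 b (f a) (hf a)).symm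
    rw [heq]
    exact this

end

end HellerS
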