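import Mathlib

set_option autoImplicit false

namespace HellerS

open Matrix

variable {ι : Type*}

/-- all minors formed from members of `M` are at most one in absolute value -/
def TS (M : Set (ι → ℝ)) : Prop :=
  ∀ (n : ℕ) (f : Fin n → ι) (c : Fin n → (ι → ℝ)), (∀ j, c j ∈ M) →
    |(Matrix.of fun i j => c j (f i)).det| ≤ 1

lemma TS.gen {M : Set (ι → ℝ)} (h : TS M) {κ : Type*} [Fintype κ] [DecidableEq κ]
    (f : κ → ι) (c : κ → ι → ℝ) (hc : ∀ j, c j ∈ M) :
    |(Matrix.of fun i j => c j (f i)).det| ≤ 1 := by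
  let e := Fintype.equivFin κ
  have h1 := h (Fintype.card κ) (f ∘ e.symm) (c ∘ e.symm) (fun j => hc _)
  rw [← Matrix.det_submatrix_equiv_self e.symm]
  exact h1

lemma TS.mono {M N : Set (ι → ℝ)} (h : TS M) (hN : N ⊆ M) : TS N :=
  fun n f c hc => h n f c fun j => hN (hc j)

/-- determinant of a bordered matrix -/
lemma det_border {n : Type*} [Fintype n] [DecidableEq n] (V : Matrix n n ℝ) (x0 : ℝ)
    (x lam : n → ℝ) :
    (Matrix.fromBlocks (Matrix.of fun _ _ : Unit => x0) (Matrix.of fun _ j => x j)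
      (Matrix.of fun i (_ : Unit) => ∑ j, lam j * V i j) V).det =
      V.det * (x0 - ∑ j, lam j * x j) := by
  have h1 : (Matrix.fromBlocks (Matrix.of fun _ _ : Unit => x0) (Matrix.of fun _ j => x j)
      (Matrix.of fun i (_ : Unit) => ∑ j, lam j * V i j) V) =
      (Matrix.fromBlocks (Matrix.of fun _ _ : Unit => x0 - ∑ j, lam j * x j)
        (Matrix.of fun _ j => x j) 0 V) *
      (Matrix.fromBlocks (1 : Matrix Unit Unit ℝ) 0 (Matrix.of fun i (_ : Unit) => lam i) 1) := by
    rw [Matrix.fromBlocks_multiply]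
    congr 1
    · ext i j
      simp [Matrix.mul_apply, mul_comm]
    · simp
    · ext i j
      simp [Matrix.mul_apply, mul_comm]
    · simp
  rw [h1, Matrix.det_mul, Matrix.det_fromBlocks_zero₂₁, Matrix.det_fromBlocks_zero₁₂]
  simp [mul_comm]

lemma TS.border {M : Set (ι → ℝ)} (h : TS M) {n : Type*} [Fintype n] [DecidableEq n]
    {e0 : ι → ℝ} {e : n → ι → ℝ} (h0 : e0 ∈ M) (he : ∀ j, e j ∈ M) (i0 : ι) (f : n → ι)
    (lam : n → ℝ) (hlam : ∀ i, e0 (f i) = ∑ j, lam j * e j (f i)) :
    |(Matrix.of fun i j => e j (f i)).det * (e0 i0 - ∑ j, lam j * e j i0)| ≤ 1 := by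
  have h1 := h.gen (κ := Unit ⊕ n) (Sum.elim (fun _ => i0) f) (Sum.elim (fun _ => e0) e)
    (by rintro (j | j); exacts [h0, he j])
  rw [← det_border]
  convert h1 using 3
  ext (i | i) (j | j)
  · rfl
  · rfl
  · simp [hlam]
  · rfl

lemma TS.four {M : Set (ι → ℝ)} (h : TS M) {e1 e2 e3 e4 : ι → ℝ} (m1 : e1 ∈ M) (m2 : e2 ∈ M)
    (m3 : e3 ∈ M) (m4 : e4 ∈ M) {r r' i j : ι} (h1 : e2 r = e1 r) (h2 : e2 r' = e1 r')
    (h3 : e4 r = e3 r) (h4 : e4 r' = e3 r') (h5 : e3 i = e1 i) (h6 : e4 i = e2 i)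
    (h7 : e3 j = e2 j) (h8 : e4 j = e1 j) :
    |2 * (e1 r * e3 r' - e1 r' * e3 r) * ((e2 i - e1 i) * (e2 j - e1 j))| ≤ 1 := by
  have hd := h 4 ![r, r', i, j] ![e1, e2, e3, e4] (by
    intro k
    fin_cases k
    exacts [m1, m2, m3, m4])
  convert hd using 1
  congr 1
  have e : (Matrix.of fun a b => ![e1, e2, e3, e4] b (![r, r', i, j] a)) =
      !![e1 r, e1 r, e3 r, e3 r; e1 r', e1 r', e3 r', e3 r'; e1 i, e2 i, e1 i, e2 i;
        e1 j, e2 j, e2 j, e1 j] := by
    ext a b
    fin_cases a <;> fin_cases b <;> simp [h1, h2, h3, h4, h5, h6, h7, h8]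
  rw [e, Matrix.det_succ_row_zero]
  simp [Fin.sum_univ_succ, Matrix.det_fin_three, Fin.succAbove]
  ring

/-- determinant of a diagonal matrix plus a rank one matrix -/
lemma det_diag_add {n : Type*} [Fintype n] [DecidableEq n] (s b : n → ℝ) (hs : ∀ i, s i ≠ 0) :
    (Matrix.of fun i j => b i + if i = j then s i else 0).det =
      (∏ i, s i) * (1 + ∑ i, b i / s i) := by
  have h1 : (Matrix.of fun i j => b i + if i = j then s i else 0) =
      Matrix.diagonal s * (1 + Matrix.replicateCol Unit (fun i => b i / s i) *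
        Matrix.replicateRow Unit (fun _ => (1 : ℝ))) := by
    ext i j
    rw [Matrix.diagonal_mul, Matrix.add_apply, Matrix.one_apply]
    simp only [Matrix.of_apply, Matrix.mul_apply, Matrix.replicateCol_apply,
      Matrix.replicateRow_apply, Finset.univ_unique, Finset.sum_const, Finset.card_singleton,
      one_smul, mul_one]
    have := hs i
    by_cases hij : i = j
    · simp only [hij, if_true]
      rw [hij] at this
      field_simp
      ring
    · simp only [hij, if_false]
      field_simp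
      ring
  rw [h1, Matrix.det_mul, Matrix.det_diagonal,
    Matrix.det_one_add_replicateCol_mul_replicateRow]
  simp [dotProduct]

/-- determinants of matrices with entries `± 1 / 2` are half integers -/
lemma two_det_int {n : ℕ} (A : Matrix (Fin n) (Fin n) ℝ)
    (hA : ∀ i j, A i j = 1 / 2 ∨ A i j = -1 / 2) : ∃ z : ℤ, 2 * A.det = z := by
  rcases n with _ | n
  · exact ⟨2, by simp⟩
  · have h1 : (Matrix.of fun i j => A i j + (if i = 0 then 0 else -1) * A 0 j).det = A.det :=
      Matrix.det_eq_of_forall_row_eq_smul_add_const (fun i => if i = 0 then 0 else -1) 0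
        (by simp) (fun i j => by simp)
    have h2 : ∃ B : Matrix (Fin (n + 1)) (Fin (n + 1)) ℤ,
        (Matrix.of fun i j => A i j + (if i = 0 then 0 else -1) * A 0 j).updateRow 0
          (fun j => 2 * A 0 j) = B.map (Int.cast : ℤ → ℝ) := by
      have h3 : ∀ i j, ∃ z : ℤ, ((Matrix.of fun i j => A i j + (if i = 0 then 0 else -1) * A 0 j).updateRow 0
          (fun j => 2 * A 0 j)) i j = z := by
        intro i j
        by_cases hi : i = 0
        · subst hi
          rw [Matrix.updateRow_self]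
          rcases hA 0 j with h | h
          · exact ⟨1, by rw [h]; norm_num⟩
          · exact ⟨-1, by rw [h]; norm_num⟩
        · rw [Matrix.updateRow_ne hi]
          simp only [Matrix.of_apply, hi, if_false]
          rcases hA 0 j with h | h <;> rcases hA i j with h' | h'
          · exact ⟨0, by rw [h, h']; norm_num⟩
          · exact ⟨-1, by rw [h, h']; norm_num⟩
          · exact ⟨1, by rw [h, h']; norm_num⟩
          · exact ⟨0, by rw [h, h']; norm_num⟩
      choose B hB using h3
      exact ⟨Matrix.of B, by ext i j; rw [hB]; rfl⟩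
    obtain ⟨B, hB⟩ := h2
    refine ⟨B.det, ?_⟩
    have h4 : ((B.det : ℤ) : ℝ) = (B.map (Int.cast : ℤ → ℝ)).det := by
      exact (Int.castRingHom ℝ).map_det B
    rw [h4, ← hB, ← h1]
    have h5 : (fun j => 2 * A 0 j) = (2 : ℝ) •
        ((Matrix.of fun i j => A i j + (if i = 0 then 0 else -1) * A 0 j) 0) := by
      ext j
      simp
    rw [h5, Matrix.det_updateRow_smul, Matrix.updateRow_eq_self]

end HellerS
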