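import Pool.Agent.Lib.Helper7.Heller1

set_option autoImplicit false

namespace HellerS

open Matrix

variable {ι : Type*}

open Classical in
lemma exists_chain : ∀ (p : ℕ) (F : Finset (ι → ℝ)),
    (∀ r, (F.image (fun c => c r)).card ≤ 3) → 3 ^ p < F.card →
    ∃ (c : ℕ → ι → ℝ) (r : ℕ → ι), (∀ i, i ≤ p + 1 → c i ∈ F) ∧
      ∀ i, i ≤ p → c i (r i) ≠ c (p + 1) (r i) ∧
        ∀ j, i < j → j ≤ p + 1 → c j (r i) = c (p + 1) (r i) := by
  intro p
  induction p with
  | zero =>
    intro F _ hF
    rw [pow_zero, Finset.one_lt_card] at hF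
    obtain ⟨a, ha, b, hb, hab⟩ := hF
    obtain ⟨r, hr⟩ := Function.ne_iff.1 hab
    refine ⟨fun i => if i = 0 then a else b, fun _ => r, ?_, ?_⟩
    · intro i _
      by_cases hi : i = 0
      · simp only [hi, if_true]; exact ha
      · simp only [hi, if_false]; exact hb
    · intro i hi
      have : i = 0 := by omega
      subst this
      refine ⟨by simpa using hr, ?_⟩
      intro j hj hj'
      have : j = 1 := by omega
      subst this
      rfl
  | succ p ih =>
    intro F h3 hF
    have h1 : 1 < F.card := lt_of_le_of_lt (Nat.one_le_pow _ _ (by norm_num)) hF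
    obtain ⟨a, ha, b, hb, hab⟩ := Finset.one_lt_card.1 h1
    obtain ⟨r0, hr0⟩ := Function.ne_iff.1 hab
    have hp : (F.image (fun c => c r0)).card * 3 ^ p < F.card := by
      calc (F.image (fun c => c r0)).card * 3 ^ p ≤ 3 * 3 ^ p := Nat.mul_le_mul_right _ (h3 r0)
        _ = 3 ^ (p + 1) := by ring
        _ < F.card := hF
    obtain ⟨v, _, hv⟩ := Finset.exists_lt_card_fiber_of_mul_lt_card_of_maps_to
      (f := fun c : ι → ℝ => c r0) (fun c hc => Finset.mem_image_of_mem _ hc) hp
    obtain ⟨c', r', hc', hr'⟩ := ih (F.filter (fun c => c r0 = v)) (fun r =>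
      (Finset.card_le_card (Finset.image_subset_image (Finset.filter_subset _ _))).trans (h3 r)) hv
    have hex : ∃ c0 ∈ F, c0 r0 ≠ v := by
      by_cases h : a r0 = v
      · exact ⟨b, hb, fun h2 => hr0 (h.trans h2.symm)⟩
      · exact ⟨a, ha, h⟩
    obtain ⟨c0, hc0, hc0v⟩ := hex
    have hmem : ∀ i, i ≤ p + 1 → c' i ∈ F ∧ c' i r0 = v := fun i hi =>
      Finset.mem_filter.1 (hc' i hi)
    refine ⟨fun i => if i = 0 then c0 else c' (i - 1), fun i => if i = 0 then r0 else r' (i - 1),
      ?_, ?_⟩
    · intro i hi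
      by_cases h0 : i = 0
      · simp only [h0, if_true]; exact hc0
      · simp only [h0, if_false]
        exact (hmem (i - 1) (by omega)).1
    · intro i hi
      have e1 : p + 1 + 1 ≠ 0 := by omega
      have e2 : p + 1 + 1 - 1 = p + 1 := by omega
      by_cases h0 : i = 0
      · subst h0
        simp only [if_true, e1, if_false, e2]
        refine ⟨?_, ?_⟩
        · rw [(hmem (p + 1) le_rfl).2]; exact hc0v
        · intro j hj hj'
          have e3 : j ≠ 0 := by omega
          simp only [e3, if_false]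
          rw [(hmem (p + 1) le_rfl).2, (hmem (j - 1) (by omega)).2]
      · simp only [h0, if_false, e1, e2]
        refine ⟨(hr' (i - 1) (by omega)).1, ?_⟩
        intro j hj hj'
        have e3 : j ≠ 0 := by omega
        simp only [e3, if_false]
        exact (hr' (i - 1) (by omega)).2 (j - 1) (by omega) (by omega)

/-- the allowed values in a row with shift `t` -/
def Al (t x : ℝ) : Prop := (t ≠ 0 ∧ (x = t ∨ x = t - 1)) ∨ (t = 0 ∧ (x = -1 ∨ x = 0 ∨ x = 1))

lemma Al.diff {t x y : ℝ} (hx : Al t x) (hy : Al t y) (hne : x ≠ y) : 1 ≤ |x - y| := by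
  rcases hx with ⟨h0, h1 | h1⟩ | ⟨h0, h1 | h1 | h1⟩ <;>
  rcases hy with ⟨h0', h2 | h2⟩ | ⟨h0', h2 | h2 | h2⟩ <;>
  first
  | exact absurd h0' h0
  | exact absurd h0 h0'
  | exact absurd (h1.trans h2.symm) hne
  | (rw [h1, h2]; norm_num)

/-- families with all `2 × 2` minors at most one half and no shift equal to one half are small -/
theorem small_of_minors {t : ι → ℝ} {S : Set ι} {F : Finset (ι → ℝ)}
    (ht : ∀ r ∈ S, 0 ≤ t r ∧ t r < 1 ∧ t r ≠ 1 / 2)
    (hval : ∀ c ∈ F, ∀ r ∈ S, Al (t r) (c r))
    (hsupp : ∀ c ∈ F, ∀ r, r ∉ S → c r = 0)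
    (hmin : ∀ c ∈ F, ∀ c' ∈ F, ∀ r ∈ S, ∀ r' ∈ S, |c r * c' r' - c r' * c' r| ≤ 1 / 2)
    (hTS : ∀ (B : Finset ℕ) (f : B → ι) (c : B → ι → ℝ), (∀ j, f j ∈ S) → (∀ j, c j ∈ F) →
      |(Matrix.of fun i j => c j (f i)).det| ≤ 1) :
    F.card ≤ 3 ^ 12 := by
  classical
  by_contra hcon
  push Not at hcon
  have h3 : ∀ r, (F.image (fun c => c r)).card ≤ 3 := by
    intro r
    by_cases hr : r ∈ S
    · by_cases h0 : t r = 0
      · have : F.image (fun c => c r) ⊆ {-1, 0, 1} := by
          intro x hx
          obtain ⟨c, hc, rfl⟩ := Finset.mem_image.1 hx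
          rcases hval c hc r hr with ⟨h, _⟩ | ⟨_, h⟩
          · exact absurd h0 h
          · simpa using h
        exact (Finset.card_le_card this).trans Finset.card_le_three
      · have : F.image (fun c => c r) ⊆ {t r, t r - 1} := by
          intro x hx
          obtain ⟨c, hc, rfl⟩ := Finset.mem_image.1 hx
          rcases hval c hc r hr with ⟨_, h⟩ | ⟨h, _⟩
          · simpa using h
          · exact absurd h h0
        exact (Finset.card_le_card this).trans (Finset.card_le_two.trans (by norm_num))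
    · have : F.image (fun c => c r) ⊆ {0} := by
        intro x hx
        obtain ⟨c, hc, rfl⟩ := Finset.mem_image.1 hx
        simpa using hsupp c hc r hr
      exact (Finset.card_le_card this).trans (by simp)
  obtain ⟨c, r, hc, hr⟩ := exists_chain 12 F h3 hcon
  norm_num at hc hr
  set β : ℕ → ℝ := fun i => c 13 (r i) with hβ
  set α : ℕ → ℝ := fun i => c i (r i) with hα
  have hne : ∀ i, i ≤ 12 → α i ≠ β i := fun i hi => (hr i hi).1
  have hup : ∀ i j, i < j → j ≤ 13 → c j (r i) = β i := fun i j hij hj =>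
    (hr i (by omega)).2 j hij hj
  have hS : ∀ i, i ≤ 12 → r i ∈ S := by
    intro i hi
    by_contra h
    apply hne i hi
    simp only [hα, hβ]
    rw [hsupp _ (hc i (by omega)) _ h, hsupp _ (hc 13 (by omega)) _ h]
  have hva : ∀ i, i ≤ 12 → Al (t (r i)) (α i) := fun i hi => hval _ (hc i (by omega)) _ (hS i hi)
  have hvb : ∀ i, i ≤ 12 → Al (t (r i)) (β i) := fun i hi => hval _ (hc 13 (by omega)) _ (hS i hi)
  have hd : ∀ i, i ≤ 12 → 1 ≤ |α i - β i| := fun i hi => (hva i hi).diff (hvb i hi) (hne i hi)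
  have hb : ∀ i, i ≤ 11 → |β i| ≤ 1 / 2 := by
    intro i hi
    have h1 := hmin _ (hc 13 (by omega)) _ (hc (i + 1) (by omega)) _ (hS i (by omega)) _
      (hS (i + 1) (by omega))
    have h2 := hup i (i + 1) (by omega) (by omega)
    rw [h2] at h1
    change |β i * α (i + 1) - β (i + 1) * β i| ≤ 1 / 2 at h1
    have h3 : β i * α (i + 1) - β (i + 1) * β i = β i * (α (i + 1) - β (i + 1)) := by ring
    rw [h3, abs_mul] at h1
    have h4 := hd (i + 1) (by omega)
    nlinarith [abs_nonneg (β i)]
  -- at most one index with shift zero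
  have htern : ∀ i j, i < j → j ≤ 11 → t (r i) = 0 → t (r j) = 0 → False := by
    intro i j hij hj hi0 hj0
    have e : ∀ k, k ≤ 11 → t (r k) = 0 → β k = 0 ∧ (α k = 1 ∨ α k = -1) := by
      intro k hk hk0
      have h1 := hvb k (by omega)
      have h2 := hva k (by omega)
      have h3 := hb k hk
      have h4 := hne k (by omega)
      have h5 : β k = 0 := by
        rcases h1 with ⟨h, _⟩ | ⟨_, h | h | h⟩
        · exact absurd hk0 h
        · rw [h] at h3; norm_num at h3
        · exact h
        · rw [h] at h3; norm_num at h3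
      refine ⟨h5, ?_⟩
      rcases h2 with ⟨h, _⟩ | ⟨_, h | h | h⟩
      · exact absurd hk0 h
      · right; exact h
      · exact absurd (h.trans h5.symm) h4
      · left; exact h
    have e1 := e i (by omega) hi0
    have e2 := e j hj hj0
    have h1 := hmin _ (hc i (by omega)) _ (hc j (by omega)) _ (hS i (by omega)) _
      (hS j (by omega))
    rw [hup i j hij (by omega), e1.1, mul_zero, sub_zero] at h1
    change |α i * α j| ≤ 1 / 2 at h1
    rcases e1.2 with h | h <;> rcases e2.2 with h' | h' <;> rw [h, h'] at h1 <;> norm_num at h1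
  set B : Finset ℕ := (Finset.range 12).filter (fun i => t (r i) ≠ 0) with hB
  have hBc : 11 ≤ B.card := by
    have h1 : ((Finset.range 12).filter (fun i => ¬ (t (r i) ≠ 0))).card ≤ 1 := by
      rw [Finset.card_le_one]
      intro a ha b hb'
      simp only [Finset.mem_filter, Finset.mem_range, not_not] at ha hb'
      by_contra hab
      rcases Nat.lt_or_gt_of_ne hab with h | h
      · exact htern a b h (by omega) ha.2 hb'.2
      · exact htern b a h (by omega) hb'.2 ha.2
    have h2 := Finset.card_filter_add_card_filter_not (s := Finset.range 12)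
      (fun i => t (r i) ≠ 0)
    rw [Finset.card_range] at h2
    rw [hB]
    omega
  have hBm : ∀ i ∈ B, i ≤ 11 ∧ t (r i) ≠ 0 := by
    intro i hi
    rw [hB, Finset.mem_filter, Finset.mem_range] at hi
    exact ⟨by omega, hi.2⟩
  -- normalized quantities
  set σ : ℕ → ℝ := fun i => α i - β i with hσ
  set θ : ℕ → ℝ := fun i => - (σ i * β i) with hθ
  have hfacts : ∀ i ∈ B, (σ i = 1 ∨ σ i = -1) ∧ 0 ≤ θ i ∧ θ i < 1 / 2 ∧
      (∀ x, Al (t (r i)) x → x = α i ∨ x = β i) := by
    intro i hi
    obtain ⟨hi1, hi2⟩ := hBm i hi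
    obtain ⟨ht1, ht2, ht3⟩ := ht _ (hS i (by omega))
    have h1 := hvb i (by omega)
    have h2 := hva i (by omega)
    have h3 := hb i hi1
    have h4 := hne i (by omega)
    rcases h1 with ⟨_, h1⟩ | ⟨h, _⟩
    swap
    · exact absurd h hi2
    rcases h2 with ⟨_, h2⟩ | ⟨h, _⟩
    swap
    · exact absurd h hi2
    rcases h1 with h1 | h1
    · rcases h2 with h2 | h2
      · exact absurd (h2.trans h1.symm) h4
      · have hs : σ i = -1 := by simp only [hσ]; rw [h1, h2]; ring
        have ht' : θ i = t (r i) := by simp only [hθ]; rw [hs, h1]; ring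
        rw [h1, abs_of_nonneg ht1] at h3
        refine ⟨Or.inr hs, by rw [ht']; exact ht1, by rw [ht']; exact lt_of_le_of_ne h3 ht3, ?_⟩
        intro x hx
        rcases hx with ⟨_, hx | hx⟩ | ⟨h, _⟩
        · right; rw [hx, h1]
        · left; rw [hx, h2]
        · exact absurd h hi2
    · rcases h2 with h2 | h2
      · have hs : σ i = 1 := by simp only [hσ]; rw [h1, h2]; ring
        have ht' : θ i = 1 - t (r i) := by simp only [hθ]; rw [hs, h1]; ring
        rw [h1, abs_of_nonpos (by linarith)] at h3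
        refine ⟨Or.inl hs, by rw [ht']; linarith, ?_, ?_⟩
        · rw [ht']
          apply lt_of_le_of_ne (by linarith)
          intro h
          apply ht3
          linarith
        · intro x hx
          rcases hx with ⟨_, hx | hx⟩ | ⟨h, _⟩
          · left; rw [hx, h2]
          · right; rw [hx, h1]
          · exact absurd h hi2
      · exact absurd (h2.trans h1.symm) h4
  have hαe : ∀ i, α i = β i + σ i := fun i => by simp only [hσ]; ring
  -- below the diagonal
  have hlow : ∀ i ∈ B, ∀ j ∈ B, i < j → c i (r j) = β j ∧ 1 / 2 ≤ θ i + θ j := by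
    intro i hi j hj hij
    obtain ⟨hi1, hi2⟩ := hBm i hi
    obtain ⟨hj1, hj2⟩ := hBm j hj
    obtain ⟨hsi, hti, hti', -⟩ := hfacts i hi
    obtain ⟨hsj, htj, htj', hxj⟩ := hfacts j hj
    have h1 := hmin _ (hc i (by omega)) _ (hc j (by omega)) _ (hS i (by omega)) _
      (hS j (by omega))
    rw [hup i j hij (by omega)] at h1
    change |α i * α j - c i (r j) * β i| ≤ 1 / 2 at h1
    have hbj : β j = - (σ j * θ j) := by
      simp only [hθ]
      rcases hsj with h | h <;> rw [h] <;> ring
    have hbi : β i = - (σ i * θ i) := by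
      simp only [hθ]
      rcases hsi with h | h <;> rw [h] <;> ring
    rcases hxj _ (hval _ (hc i (by omega)) _ (hS j (by omega))) with h2 | h2
    · exfalso
      rw [h2] at h1
      have h3 : α i * α j - α j * β i = σ i * σ j * (1 - θ j) := by
        rw [hαe i, hαe j, hbj]; ring
      rw [h3] at h1
      rcases hsi with h | h <;> rcases hsj with h' | h' <;> rw [h, h'] at h1 <;>
        (have h5 := abs_le.1 h1; linarith [h5.1, h5.2])
    · refine ⟨h2, ?_⟩
      rw [h2] at h1
      have h3 : α i * α j - β j * β i = σ i * σ j * (1 - θ i - θ j) := by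
        rw [hαe i, hαe j, hbj, hbi]; ring
      rw [h3] at h1
      rcases hsi with h | h <;> rcases hsj with h' | h' <;> rw [h, h'] at h1 <;>
        (have h5 := abs_le.1 h1; linarith [h5.1, h5.2])
  -- the large determinant
  have hdet := hTS B (fun i => r i) (fun i => c i) (fun j => hS j (by have := hBm j j.2; omega))
    (fun j => hc j (by have := hBm j j.2; omega))
  have hmat : (Matrix.of fun (i j : B) => c j (r i)) =
      Matrix.of fun (i j : B) => β i + if i = j then σ i else 0 := by
    ext i j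
    simp only [Matrix.of_apply]
    by_cases hij : i = j
    · subst hij
      simp only [if_true]
      exact hαe i
    · simp only [hij, if_false, add_zero]
      have hij' : (i : ℕ) ≠ j := fun h => hij (Subtype.ext h)
      rcases Nat.lt_or_gt_of_ne hij' with h | h
      · exact hup i j h (by have := hBm j j.2; omega)
      · exact (hlow j j.2 i i.2 h).1
  rw [hmat, det_diag_add (fun i : B => σ i) (fun i : B => β i) (fun i => by
    rcases (hfacts i i.2).1 with h | h <;> rw [h] <;> norm_num)] at hdet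
  have hprod : |∏ i : B, σ i| = 1 := by
    rw [Finset.abs_prod]
    apply Finset.prod_eq_one
    intro i _
    rcases (hfacts i i.2).1 with h | h <;> rw [h] <;> norm_num
  rw [abs_mul, hprod, one_mul] at hdet
  have hsum : ∑ i : B, β i / σ i = - ∑ i ∈ B, θ i := by
    rw [← Finset.sum_coe_sort B, ← Finset.sum_neg_distrib]
    apply Finset.sum_congr rfl
    intro i _
    simp only [hθ, neg_neg]
    rcases (hfacts i i.2).1 with h | h <;> rw [h] <;> ring
  rw [hsum] at hdet
  have hle : ∑ i ∈ B, θ i ≤ 2 := by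
    have := (abs_le.1 hdet).1
    linarith
  -- lower bound
  have hquart : (B.filter (fun i => ¬ (1 / 4 ≤ θ i))).card ≤ 1 := by
    rw [Finset.card_le_one]
    intro a ha b hb'
    rw [Finset.mem_filter] at ha hb'
    by_contra hab
    have h2 := ha.2
    have h3 := hb'.2
    push Not at h2 h3
    rcases Nat.lt_or_gt_of_ne hab with h | h
    · have := (hlow a ha.1 b hb'.1 h).2
      linarith
    · have := (hlow b hb'.1 a ha.1 h).2
      linarith
  have hcard := Finset.card_filter_add_card_filter_not (s := B) (fun i => 1 / 4 ≤ θ i)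
  have h10 : 10 ≤ (B.filter (fun i => 1 / 4 ≤ θ i)).card := by omega
  have hge : (10 : ℝ) * (1 / 4) ≤ ∑ i ∈ B, θ i := by
    calc (10 : ℝ) * (1 / 4) ≤ (B.filter (fun i => 1 / 4 ≤ θ i)).card * (1 / 4) := by
          have : (10 : ℝ) ≤ (B.filter (fun i => 1 / 4 ≤ θ i)).card := by exact_mod_cast h10
          linarith
      _ = ∑ i ∈ B.filter (fun i => 1 / 4 ≤ θ i), (1 / 4 : ℝ) := by
          rw [Finset.sum_const, nsmul_eq_mul]
      _ ≤ ∑ i ∈ B.filter (fun i => 1 / 4 ≤ θ i), θ i :=
          Finset.sum_le_sum fun i hi => (Finset.mem_filter.1 hi).2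
      _ ≤ ∑ i ∈ B, θ i :=
          Finset.sum_le_sum_of_subset_of_nonneg (Finset.filter_subset _ _)
            (fun i hi _ => (hfacts i hi).2.1)
  linarith

end HellerS
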