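import Pool.Agent.Lib.Helper7.Heller2

set_option autoImplicit false

namespace HellerS

open Matrix

variable {ι : Type*}

/-- oddtown -/
lemma oddtown {r : ℕ} (T : Finset (Finset (Fin r))) (h1 : ∀ A ∈ T, Odd A.card)
    (h2 : ∀ A ∈ T, ∀ B ∈ T, A ≠ B → Even (A ∩ B).card) : T.card ≤ r := by
  classical
  let w : T → Fin r → ZMod 2 := fun A i => if i ∈ (A : Finset (Fin r)) then 1 else 0
  have hdot : ∀ A B : T, ∑ i, w A i * w B i = if A = B then 1 else 0 := by
    intro A B
    have e : ∑ i, w A i * w B i = (((A : Finset (Fin r)) ∩ B).card : ZMod 2) := by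
      rw [Finset.card_eq_sum_ones, Nat.cast_sum, ← Finset.sum_filter_add_sum_filter_not
        Finset.univ (fun i => i ∈ (A : Finset (Fin r)) ∩ B)]
      rw [Finset.sum_eq_zero (s := Finset.univ.filter (fun i => i ∉ (A : Finset (Fin r)) ∩ B)),
        add_zero]
      · rw [Finset.filter_univ_mem]
        apply Finset.sum_congr rfl
        intro i hi
        rw [Finset.mem_inter] at hi
        simp [w, hi.1, hi.2]
      · intro i hi
        rw [Finset.mem_filter, Finset.mem_inter, not_and_or] at hi
        rcases hi.2 with h | h
        · simp [w, h]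
        · simp [w, h]
    rw [e]
    by_cases hAB : A = B
    · subst hAB
      rw [if_pos rfl, Finset.inter_self]
      have := h1 A A.2
      rw [← ZMod.natCast_eq_one_iff_odd] at this
      exact this
    · rw [if_neg hAB]
      have := h2 A A.2 B B.2 (fun h => hAB (Subtype.ext h))
      rw [← ZMod.natCast_eq_zero_iff_even] at this
      exact this
  have hli : LinearIndependent (ZMod 2) w := by
    rw [Fintype.linearIndependent_iff]
    intro g hg B
    have h3 : ∑ i, (∑ A, g A • w A) i * w B i = 0 := by
      rw [hg]; simp
    simp only [Finset.sum_apply, Pi.smul_apply, smul_eq_mul, Finset.sum_mul] at h3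
    rw [Finset.sum_comm] at h3
    have h4 : ∀ A : T, ∑ i, g A * w A i * w B i = if A = B then g A else 0 := by
      intro A
      simp only [mul_assoc]
      rw [← Finset.mul_sum, hdot A B]
      split_ifs <;> simp
    simp only [h4] at h3
    simpa using h3
  have := hli.fintype_card_le_finrank
  simpa using this

/-- The linear bound for families of vectors with entries `± 1 / 2`. -/
theorem half_bound {H : Finset ι} {C : Finset (ι → ℝ)} (hH : H.Nonempty)
    (hval : ∀ c ∈ C, ∀ h ∈ H, c h = 1 / 2 ∨ c h = -1 / 2)
    (hinj : ∀ c ∈ C, ∀ c' ∈ C, (∀ h ∈ H, c h = c' h) → c = c')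
    (hP : ∀ (n : ℕ) (f : Fin n → ι) (v : Fin n → ι → ℝ) (c : ι → ℝ) (lam : Fin n → ℝ),
      (∀ i, f i ∈ H) → (∀ j, v j ∈ C) → c ∈ C → (∀ i, c (f i) = ∑ j, lam j * v j (f i)) →
      |(Matrix.of fun i j => v j (f i)).det| * (1 + ∑ j, |lam j|) ≤ 2)
    (hR : ∀ (n : ℕ) (f : Fin n → ι) (v : Fin n → ι → ℝ), (∀ i, f i ∈ H) → (∀ j, v j ∈ C) →
      |(Matrix.of fun i j => v j (f i)).det| ≤ 1) :
    C.card ≤ 4 * H.card := by
  classical
  let P : ℕ → Prop := fun n => ∃ f : Fin n → ι, (∀ i, f i ∈ H) ∧ ∃ v : Fin n → ι → ℝ,
    (∀ j, v j ∈ C) ∧ (Matrix.of fun i j => v j (f i)).det ≠ 0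
  have hP0 : P 0 := ⟨Fin.elim0, fun i => i.elim0, Fin.elim0, fun i => i.elim0, by simp⟩
  have hPle : ∀ n, P n → n ≤ H.card := by
    rintro n ⟨f, hf, v, hv, hdet⟩
    have hfi : Function.Injective f := by
      intro i j hij
      by_contra hne
      apply hdet
      apply Matrix.det_zero_of_row_eq hne
      ext k
      simp [hij]
    calc n = Fintype.card (Fin n) := (Fintype.card_fin n).symm
      _ ≤ Fintype.card H := Fintype.card_le_of_injective (fun i => (⟨f i, hf i⟩ : H))
          (fun i j hij => hfi (by simpa using hij))
      _ = H.card := Fintype.card_coe H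
  set r := Nat.findGreatest P H.card with hr
  have hPr : P r := Nat.findGreatest_spec (P := P) (Nat.zero_le _) hP0
  have hmax : ¬ P (r + 1) := by
    intro h
    have h1 := hPle _ h
    exact Nat.findGreatest_is_greatest (P := P) (Nat.lt_succ_self _) h1 h
  have hrH : r ≤ H.card := Nat.findGreatest_le _
  obtain ⟨f, hf, v0, hv0, hdet0⟩ := hPr
  obtain ⟨h0, hh0⟩ := hH
  -- representation with respect to any nonsingular choice of columns
  have hrep : ∀ v : Fin r → ι → ℝ, (∀ j, v j ∈ C) → (Matrix.of fun i j => v j (f i)).det ≠ 0 →
      ∀ c ∈ C, ∃ lam : Fin r → ℝ, ∀ h ∈ H, c h = ∑ j, lam j * v j h := by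
    intro v hv hdet c hc
    set V := (Matrix.of fun i j => v j (f i)) with hV
    have hu : IsUnit V.det := isUnit_iff_ne_zero.2 hdet
    let lam := V⁻¹ *ᵥ (fun i => c (f i))
    have hlam : ∀ i, c (f i) = ∑ j, lam j * V i j := by
      intro i
      have h1 : V *ᵥ lam = fun i => c (f i) := by
        simp only [lam, Matrix.mulVec_mulVec, Matrix.mul_nonsing_inv V hu, Matrix.one_mulVec]
      have h2 := congrFun h1 i
      rw [← h2]
      simp only [Matrix.mulVec, dotProduct]
      apply Finset.sum_congr rfl
      intro j _
      ring
    refine ⟨lam, ?_⟩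
    intro h hh
    by_contra hne
    apply hmax
    let e : Fin (r + 1) ≃ Unit ⊕ Fin r := Fintype.equivOfCardEq (by simp [add_comm])
    refine ⟨(Sum.elim (fun _ => h) f) ∘ e, ?_, (Sum.elim (fun _ => c) v) ∘ e, ?_, ?_⟩
    · intro i
      simp only [Function.comp_apply]
      rcases e i with u | u
      · exact hh
      · exact hf u
    · intro j
      simp only [Function.comp_apply]
      rcases e j with u | u
      · exact hc
      · exact hv u
    · have h1 : (Matrix.of fun i j => ((Sum.elim (fun _ => c) v) ∘ e) j
          (((Sum.elim (fun _ => h) f) ∘ e) i)) =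
          (Matrix.fromBlocks (Matrix.of fun _ _ : Unit => c h) (Matrix.of fun _ j => v j h)
            (Matrix.of fun i (_ : Unit) => ∑ j, lam j * V i j) V).submatrix e e := by
        ext i j
        simp only [Matrix.of_apply, Function.comp_apply, Matrix.submatrix_apply]
        rcases e i with u | u <;> rcases e j with w | w
        · rfl
        · rfl
        · simp [hlam]
        · rfl
      rw [h1, Matrix.det_submatrix_equiv_self, det_border]
      exact mul_ne_zero hdet (sub_ne_zero.2 hne)
  have habs : ∀ c ∈ C, ∀ h ∈ H, |c h| = 1 / 2 := by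
    intro c hc h hh
    rcases hval c hc h hh with h1 | h1 <;> rw [h1] <;> norm_num
  by_cases hcase : ∃ v : Fin r → ι → ℝ, (∀ j, v j ∈ C) ∧
      |(Matrix.of fun i j => v j (f i)).det| = 1
  · -- a minor equal to one
    obtain ⟨v, hv, hdet⟩ := hcase
    have hne : (Matrix.of fun i j => v j (f i)).det ≠ 0 := by
      intro h; rw [h] at hdet; norm_num at hdet
    have key : ∀ c ∈ C, ∃ p : Fin r × Bool, p ∈ (Finset.univ : Finset (Fin r × Bool)) ∧ ∀ h ∈ H,
        c h = (if p.2 then 1 else -1) * v p.1 h := by
      intro c hc
      obtain ⟨lam, hlam⟩ := hrep v hv hne c hc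
      have h1 := hP r f v c lam hf hv hc (fun i => hlam _ (hf i))
      rw [hdet, one_mul] at h1
      have h2 : ∃ j, lam j ≠ 0 := by
        by_contra hall
        push Not at hall
        have h3 := hlam h0 hh0
        have h4 := habs c hc h0 hh0
        rw [h3] at h4
        simp [hall] at h4
      obtain ⟨j, hj⟩ := h2
      refine ⟨(j, decide (0 < lam j)), Finset.mem_univ _, fun h hh => ?_⟩
      have h3 := hlam h hh
      rw [← Finset.add_sum_erase _ _ (Finset.mem_univ j)] at h3
      have h5 : |∑ l ∈ Finset.univ.erase j, lam l * v l h| ≤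
          (∑ l ∈ Finset.univ.erase j, |lam l|) * (1 / 2) := by
        rw [Finset.sum_mul]
        refine (Finset.abs_sum_le_sum_abs _ _).trans (Finset.sum_le_sum fun l _ => ?_)
        rw [abs_mul, habs _ (hv l) h hh]
      have h6 : |lam j| + ∑ l ∈ Finset.univ.erase j, |lam l| ≤ 1 := by
        rw [Finset.add_sum_erase _ (fun l => |lam l|) (Finset.mem_univ j)]
        linarith
      have h7 : 0 < |lam j| := abs_pos.2 hj
      have h8 := abs_le.1 h5
      rcases hval c hc h hh with hc1 | hc1 <;> rcases hval _ (hv j) h hh with hv1 | hv1 <;>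
        by_cases hpos : 0 < lam j
      · simp [hpos, hc1, hv1]
      · exfalso
        have hneg : lam j < 0 := lt_of_le_of_ne (not_lt.1 hpos) hj
        rw [abs_of_neg hneg] at h6
        rw [hc1, hv1] at h3
        linarith [h8.2]
      · exfalso
        rw [abs_of_pos hpos] at h6
        rw [hc1, hv1] at h3
        linarith [h8.2]
      · simp [hpos, hc1, hv1]
        norm_num
      · exfalso
        rw [abs_of_pos hpos] at h6
        rw [hc1, hv1] at h3
        linarith [h8.1]
      · simp [hpos, hc1, hv1]
        norm_num
      · simp [hpos, hc1, hv1]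
      · exfalso
        have hneg : lam j < 0 := lt_of_le_of_ne (not_lt.1 hpos) hj
        rw [abs_of_neg hneg] at h6
        rw [hc1, hv1] at h3
        linarith [h8.1]
    have hcard := Finset.card_le_card_of_forall_subsingleton
      (fun (c : ι → ℝ) (p : Fin r × Bool) => ∀ h ∈ H, c h = (if p.2 then 1 else -1) * v p.1 h)
      key (by
        intro p _ c hc c' hc'
        exact hinj c hc.1 c' hc'.1 (fun h hh => (hc.2 h hh).trans (hc'.2 h hh).symm))
    simp only [Finset.card_univ, Fintype.card_prod, Fintype.card_fin, Fintype.card_bool] at hcard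
    omega
  · -- all minors are zero or one half
    push Not at hcase
    have hhalf : ∀ v : Fin r → ι → ℝ, (∀ j, v j ∈ C) →
        (Matrix.of fun i j => v j (f i)).det ≠ 0 →
        |(Matrix.of fun i j => v j (f i)).det| = 1 / 2 := by
      intro v hv hdet
      obtain ⟨z, hz⟩ := two_det_int (Matrix.of fun i j => v j (f i))
        (fun i j => hval _ (hv j) _ (hf i))
      have h1 := hR r f v hf hv
      have h2 := hcase v hv
      set D := (Matrix.of fun i j => v j (f i)).det with hD
      have h3 : D = z / 2 := by linarith
      have hz0 : z ≠ 0 := by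
        rintro rfl
        apply hdet
        rw [h3]; simp
      rw [h3, abs_div, abs_two] at h1 h2 ⊢
      have h4 : |(z : ℝ)| ≤ 2 := by linarith
      have h5 : |z| ≤ 2 := by exact_mod_cast h4
      have h6 : |z| ≠ 2 := by
        intro h
        apply h2
        have : |(z : ℝ)| = 2 := by exact_mod_cast h
        rw [this]; norm_num
      have h7 : |z| = 1 := by
        have := abs_pos.2 hz0
        omega
      have : |(z : ℝ)| = 1 := by exact_mod_cast h7
      rw [this]
    -- coordinates
    have hcoord : ∀ (v : Fin r → ι → ℝ), (∀ j, v j ∈ C) →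
        (Matrix.of fun i j => v j (f i)).det ≠ 0 → ∀ c ∈ C, ∀ lam : Fin r → ℝ,
        (∀ i, c (f i) = ∑ j, lam j * v j (f i)) →
        (∀ j, lam j = 0 ∨ |lam j| = 1) ∧ ∑ j, |lam j| ≤ 3 := by
      intro v hv hdet c hc lam hlam
      have hD := hhalf v hv hdet
      constructor
      · intro j
        by_cases hj : lam j = 0
        · exact Or.inl hj
        right
        have h1 : (Matrix.of fun i l => (Function.update v j c) l (f i)).det =
            lam j * (Matrix.of fun i j => v j (f i)).det := by
          have h2 := Matrix.det_updateCol_sum (Matrix.of fun i j => v j (f i)) j lam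
          rw [smul_eq_mul] at h2
          rw [← h2]
          congr 1
          ext i l
          rw [Matrix.updateCol_apply]
          simp only [Matrix.of_apply]
          by_cases hl : l = j
          · subst hl
            rw [Function.update_self, if_pos rfl, hlam i]
            simp
          · rw [Function.update_of_ne hl, if_neg hl]
        have h3 := hhalf (Function.update v j c) (by
          intro l
          by_cases hl : l = j
          · subst hl; rw [Function.update_self]; exact hc
          · rw [Function.update_of_ne hl]; exact hv l) (by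
          rw [h1]; exact mul_ne_zero hj hdet)
        rw [h1, abs_mul, hD] at h3
        linarith
      · have h1 := hP r f v c lam hf hv hc hlam
        rw [hD] at h1
        linarith
    choose! lam hlam using hrep v0 hv0 hdet0
    have hc0 : ∀ c ∈ C, (∀ j, lam c j = 0 ∨ |lam c j| = 1) ∧ ∑ j, |lam c j| ≤ 3 := fun c hc =>
      hcoord v0 hv0 hdet0 c hc (lam c) (fun i => hlam c hc _ (hf i))
    -- exchange
    have hex : ∀ c ∈ C, ∀ c' ∈ C, ∀ j, lam c j ≠ 0 →
        (∀ l, l ≠ j → lam c' l - lam c' j / lam c j * lam c l = 0 ∨
          |lam c' l - lam c' j / lam c j * lam c l| = 1) ∧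
        |lam c' j / lam c j| + ∑ l ∈ Finset.univ.erase j,
          |lam c' l - lam c' j / lam c j * lam c l| ≤ 3 := by
      intro c hc c' hc' j hj
      have hv' : ∀ l, Function.update v0 j c l ∈ C := by
        intro l
        by_cases hl : l = j
        · subst hl; rw [Function.update_self]; exact hc
        · rw [Function.update_of_ne hl]; exact hv0 l
      have hdet' : (Matrix.of fun i l => (Function.update v0 j c) l (f i)).det ≠ 0 := by
        have h2 := Matrix.det_updateCol_sum (Matrix.of fun i j => v0 j (f i)) j (lam c)
        rw [smul_eq_mul] at h2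
        have h3 : (Matrix.of fun i l => (Function.update v0 j c) l (f i)) =
            (Matrix.of fun i j => v0 j (f i)).updateCol j
              (fun k => ∑ i, lam c i • (Matrix.of fun i j => v0 j (f i)) k i) := by
          ext i l
          rw [Matrix.updateCol_apply]
          simp only [Matrix.of_apply]
          by_cases hl : l = j
          · subst hl
            rw [Function.update_self, if_pos rfl, hlam c hc _ (hf i)]
            simp
          · rw [Function.update_of_ne hl, if_neg hl]
        rw [h3, h2]
        exact mul_ne_zero hj hdet0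
      have h4 := hcoord _ hv' hdet' c' hc'
        (fun l => if l = j then lam c' j / lam c j else lam c' l - lam c' j / lam c j * lam c l)
        (by
          intro i
          rw [← Finset.add_sum_erase _ _ (Finset.mem_univ j)]
          have h5 : ∑ l ∈ Finset.univ.erase j, (if l = j then lam c' j / lam c j else
              lam c' l - lam c' j / lam c j * lam c l) * Function.update v0 j c l (f i) =
              ∑ l ∈ Finset.univ.erase j, lam c' l * v0 l (f i) -
              lam c' j / lam c j * ∑ l ∈ Finset.univ.erase j, lam c l * v0 l (f i) := by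
            rw [Finset.mul_sum, ← Finset.sum_sub_distrib]
            apply Finset.sum_congr rfl
            intro l hl
            rw [if_neg (Finset.ne_of_mem_erase hl),
              Function.update_of_ne (Finset.ne_of_mem_erase hl)]
            ring
          rw [h5, if_pos rfl, Function.update_self, hlam c hc _ (hf i), hlam c' hc' _ (hf i),
            ← Finset.add_sum_erase _ (fun l => lam c' l * v0 l (f i)) (Finset.mem_univ j),
            ← Finset.add_sum_erase _ (fun l => lam c l * v0 l (f i)) (Finset.mem_univ j)]
          field_simp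
          ring)
      refine ⟨?_, ?_⟩
      · intro l hl
        have := h4.1 l
        simp only [hl, if_false] at this
        exact this
      · have := h4.2
        rw [← Finset.add_sum_erase _ _ (Finset.mem_univ j)] at this
        simp only [if_true] at this
        refine le_trans (le_of_eq ?_) this
        congr 1
        apply Finset.sum_congr rfl
        intro l hl
        rw [if_neg (Finset.ne_of_mem_erase hl)]
    let T : (ι → ℝ) → Finset (Fin r) := fun c => Finset.univ.filter (fun j => lam c j ≠ 0)
    have hT : ∀ c j, j ∈ T c ↔ lam c j ≠ 0 := by intro c j; simp [T]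
    have hTabs : ∀ c ∈ C, ∀ j ∈ T c, |lam c j| = 1 := by
      intro c hc j hj
      rcases (hc0 c hc).1 j with h | h
      · exact absurd h ((hT c j).1 hj)
      · exact h
    have hTsum : ∀ c ∈ C, ∑ j, |lam c j| = (T c).card := by
      intro c hc
      rw [← Finset.sum_subset (Finset.subset_univ (T c))]
      · rw [Finset.sum_congr rfl (hTabs c hc)]
        simp
      · intro j _ hj
        rw [hT, not_not] at hj
        rw [hj, abs_zero]
    have hT3 : ∀ c ∈ C, (T c).card ≤ 3 := by
      intro c hc
      have := (hc0 c hc).2
      rw [hTsum c hc] at this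
      exact_mod_cast this
    have hTodd : ∀ c ∈ C, Odd (T c).card := by
      intro c hc
      have h1 := hlam c hc h0 hh0
      rw [← Finset.sum_subset (Finset.subset_univ (T c)) (by
        intro j _ hj
        rw [hT, not_not] at hj
        rw [hj, zero_mul])] at h1
      have h2 : ∀ j ∈ T c, ∃ n : ℕ, lam c j * v0 j h0 = 1 / 2 - n := by
        intro j hj
        have h3 := hTabs c hc j hj
        rcases (abs_eq (by norm_num)).1 h3 with h4 | h4 <;>
        rcases hval _ (hv0 j) h0 hh0 with h5 | h5
        · exact ⟨0, by rw [h4, h5]; norm_num⟩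
        · exact ⟨1, by rw [h4, h5]; norm_num⟩
        · exact ⟨1, by rw [h4, h5]; norm_num⟩
        · exact ⟨0, by rw [h4, h5]; norm_num⟩
      choose! n hn using h2
      rw [Finset.sum_congr rfl hn, Finset.sum_sub_distrib, Finset.sum_const, nsmul_eq_mul] at h1
      have h6 : ((T c).card : ℝ) = 2 * c h0 + 2 * ((∑ j ∈ T c, n j : ℕ) : ℝ) := by
        push_cast
        linarith
      rcases hval c hc h0 hh0 with h7 | h7
      · rw [h7] at h6
        have h8 : (T c).card = 1 + 2 * ∑ j ∈ T c, n j := by
          have : ((T c).card : ℝ) = ((1 + 2 * ∑ j ∈ T c, n j : ℕ) : ℝ) := by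
            rw [h6]; push_cast; ring
          exact_mod_cast this
        exact ⟨∑ j ∈ T c, n j, by omega⟩
      · rw [h7] at h6
        have h8 : (T c).card + 1 = 2 * ∑ j ∈ T c, n j := by
          have : (((T c).card + 1 : ℕ) : ℝ) = ((2 * ∑ j ∈ T c, n j : ℕ) : ℝ) := by
            push_cast at h6 ⊢; linarith
          exact_mod_cast this
        exact ⟨∑ j ∈ T c, n j - 1, by omega⟩
    have hTeq : ∀ c ∈ C, ∀ c' ∈ C, T c = T c' → c ≠ c' → ∀ h ∈ H, c' h = - c h := by
      intro c hc c' hc' hTT hne
      obtain ⟨j, hj⟩ : (T c).Nonempty := by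
        rw [← Finset.card_pos]
        exact (hTodd c hc).pos
      have hj1 := (hT c j).1 hj
      obtain ⟨h1, -⟩ := hex c hc c' hc' j hj1
      have hs : |lam c' j / lam c j| = 1 := by
        rw [abs_div, hTabs c hc j hj, hTabs c' hc' j (hTT ▸ hj)]; norm_num
      have hprop : ∀ l, lam c' l = lam c' j / lam c j * lam c l := by
        intro l
        by_cases hl : l = j
        · rw [hl]; field_simp
        by_cases hlT : l ∈ T c
        · have a1 := hTabs c hc l hlT
          have a2 := hTabs c' hc' l (hTT ▸ hlT)
          have a3 := h1 l hl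
          set s := lam c' j / lam c j with hsdef
          rcases (abs_eq (by norm_num)).1 hs with b | b <;>
          rcases (abs_eq (by norm_num)).1 a1 with b1 | b1 <;>
          rcases (abs_eq (by norm_num)).1 a2 with b2 | b2 <;>
          rw [b, b1, b2] at a3 ⊢ <;> first | (exfalso; norm_num at a3; done) | norm_num
        · have a2 : lam c' l = 0 := by
            by_contra h
            apply hlT
            rw [hTT]
            exact (hT c' l).2 h
          have a1 : lam c l = 0 := by
            by_contra h
            exact hlT ((hT c l).2 h)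
          rw [a1, a2, mul_zero]
      have hall : ∀ h ∈ H, c' h = lam c' j / lam c j * c h := by
        intro h hh
        rw [hlam c' hc' h hh, hlam c hc h hh, Finset.mul_sum]
        apply Finset.sum_congr rfl
        intro l _
        rw [hprop l]; ring
      rcases (abs_eq (by norm_num)).1 hs with b | b
      · exfalso
        apply hne
        apply hinj c hc c' hc'
        intro h hh
        rw [hall h hh, b, one_mul]
      · intro h hh
        rw [hall h hh, b]; ring
    have hT33 : ∀ c ∈ C, ∀ c' ∈ C, (T c).card = 3 → (T c').card = 3 →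
        (T c ∩ T c').card ≠ 1 := by
      intro c hc c' hc' h3 h3' h1
      obtain ⟨j, hj⟩ := Finset.card_eq_one.1 h1
      have hj' : j ∈ T c ∩ T c' := by rw [hj]; exact Finset.mem_singleton_self j
      rw [Finset.mem_inter] at hj'
      have hj1 := (hT c j).1 hj'.1
      obtain ⟨-, h2⟩ := hex c hc c' hc' j hj1
      have hs : |lam c' j / lam c j| = 1 := by
        rw [abs_div, hTabs c hc j hj'.1, hTabs c' hc' j hj'.2]; norm_num
      rw [hs] at h2
      have hdisj : Disjoint ((T c).erase j) ((T c').erase j) := by
        rw [Finset.disjoint_left]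
        intro l hl hl'
        rw [Finset.mem_erase] at hl hl'
        have : l ∈ T c ∩ T c' := Finset.mem_inter.2 ⟨hl.2, hl'.2⟩
        rw [hj, Finset.mem_singleton] at this
        exact hl.1 this
      have hsub : ((T c).erase j) ∪ ((T c').erase j) ⊆ Finset.univ.erase j := by
        intro l hl
        rw [Finset.mem_union, Finset.mem_erase, Finset.mem_erase] at hl
        rw [Finset.mem_erase]
        rcases hl with h | h <;> exact ⟨h.1, Finset.mem_univ _⟩
      have hle : ∑ l ∈ ((T c).erase j) ∪ ((T c').erase j),
          |lam c' l - lam c' j / lam c j * lam c l| ≤ ∑ l ∈ Finset.univ.erase j,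
          |lam c' l - lam c' j / lam c j * lam c l| :=
        Finset.sum_le_sum_of_subset_of_nonneg hsub (fun _ _ _ => abs_nonneg _)
      have hone : ∀ l ∈ ((T c).erase j) ∪ ((T c').erase j),
          |lam c' l - lam c' j / lam c j * lam c l| = 1 := by
        intro l hl
        rw [Finset.mem_union] at hl
        rcases hl with h | h
        · have hn : l ∉ T c' := by
            intro h'
            have : l ∈ T c ∩ T c' := Finset.mem_inter.2 ⟨Finset.mem_of_mem_erase h, h'⟩
            rw [hj, Finset.mem_singleton] at this
            exact (Finset.ne_of_mem_erase h) this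
          rw [hT, not_not] at hn
          rw [hn, zero_sub, abs_neg, abs_mul, hs, hTabs c hc l (Finset.mem_of_mem_erase h)]
          norm_num
        · have hn : l ∉ T c := by
            intro h'
            have : l ∈ T c ∩ T c' := Finset.mem_inter.2 ⟨h', Finset.mem_of_mem_erase h⟩
            rw [hj, Finset.mem_singleton] at this
            exact (Finset.ne_of_mem_erase h) this
          rw [hT, not_not] at hn
          rw [hn, mul_zero, sub_zero, hTabs c' hc' l (Finset.mem_of_mem_erase h)]
      have h4 : (((T c).erase j) ∪ ((T c').erase j)).card = 4 := by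
        rw [Finset.card_union_of_disjoint hdisj, Finset.card_erase_of_mem hj'.1,
          Finset.card_erase_of_mem hj'.2, h3, h3']
      rw [Finset.sum_congr rfl hone, Finset.sum_const, nsmul_eq_mul, mul_one, h4] at hle
      have h5 : ((4 : ℕ) : ℝ) = 4 := by norm_num
      rw [h5] at hle
      linarith
    -- counting
    have hfib : C.card ≤ 2 * (C.image T).card := by
      apply Finset.card_le_mul_card_image
      intro A _
      by_contra hcon
      push Not at hcon
      obtain ⟨a, ha, b, hb, c, hc, hab, hac, hbc⟩ := Finset.two_lt_card.1 hcon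
      rw [Finset.mem_filter] at ha hb hc
      apply hbc
      apply hinj b hb.1 c hc.1
      intro h hh
      rw [hTeq a ha.1 b hb.1 (ha.2.trans hb.2.symm) hab h hh,
        hTeq a ha.1 c hc.1 (ha.2.trans hc.2.symm) hac h hh]
    have hsplit : C.image T ⊆ (Finset.powersetCard 1 (Finset.univ : Finset (Fin r))) ∪
        (C.image T).filter (fun A => A.card = 3) := by
      intro A hA
      obtain ⟨c, hc, rfl⟩ := Finset.mem_image.1 hA
      rw [Finset.mem_union, Finset.mem_powersetCard, Finset.mem_filter]
      have h1 := hT3 c hc
      obtain ⟨k, hk⟩ := hTodd c hc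
      rcases Nat.lt_or_ge (T c).card 2 with h2 | h2
      · left; exact ⟨Finset.subset_univ _, by omega⟩
      · right; exact ⟨hA, by omega⟩
    have hodd : ((C.image T).filter (fun A => A.card = 3)).card ≤ r := by
      apply oddtown
      · intro A hA
        rw [(Finset.mem_filter.1 hA).2]
        decide
      · intro A hA B hB hAB
        rw [Finset.mem_filter] at hA hB
        obtain ⟨c, hc, rfl⟩ := Finset.mem_image.1 hA.1
        obtain ⟨c', hc', rfl⟩ := Finset.mem_image.1 hB.1
        have h1 := hT33 c hc c' hc' hA.2 hB.2
        have h2 : (T c ∩ T c').card ≠ 3 := by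
          intro h3
          apply hAB
          have e1 : T c ∩ T c' = T c :=
            Finset.eq_of_subset_of_card_le Finset.inter_subset_left (by rw [h3, hA.2])
          have e2 : T c ∩ T c' = T c' :=
            Finset.eq_of_subset_of_card_le Finset.inter_subset_right (by rw [h3, hB.2])
          exact e1.symm.trans e2
        have h4 : (T c ∩ T c').card ≤ 3 := by
          rw [← hA.2]; exact Finset.card_le_card Finset.inter_subset_left
        rcases Nat.even_or_odd (T c ∩ T c').card with h5 | h5
        · exact h5
        · exfalso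
          obtain ⟨k, hk⟩ := h5
          omega
    have h1 := Finset.card_le_card hsplit
    have h2 := Finset.card_union_le (Finset.powersetCard 1 (Finset.univ : Finset (Fin r)))
      ((C.image T).filter (fun A => A.card = 3))
    rw [Finset.card_powersetCard, Finset.card_univ, Fintype.card_fin, Nat.choose_one_right] at h2
    omega

end HellerS
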