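import Pool.Agent.Lib.Helper7.Heller4

set_option autoImplicit false

namespace HellerS

open Matrix

open Classical in
section

variable {ι : Type*}

lemma pr_empty_card (M : Finset (ι → ℝ)) : (pr M ∅).card ≤ 1 := by
  rw [Finset.card_le_one]
  intro a ha b hb
  obtain ⟨c, _, rfl⟩ := Finset.mem_image.1 ha
  obtain ⟨c', _, rfl⟩ := Finset.mem_image.1 hb
  rw [res_eq_iff]
  intro i hi
  exact absurd hi (Finset.notMem_empty i)

lemma pr_self {N : Finset (ι → ℝ)} {S : Finset ι} (h : ∀ c ∈ N, res S c = c) : pr N S = N := by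
  unfold pr
  ext c
  rw [Finset.mem_image]
  constructor
  · rintro ⟨d, hd, rfl⟩
    rw [h d hd]; exact hd
  · intro hc
    exact ⟨c, hc, h c hc⟩

lemma res_of_mem_Dxy {M : Finset (ι → ℝ)} {S : Finset ι} {i : ι} {x y : ℝ} {c : ι → ℝ}
    (hc : c ∈ Dxy M S i x y) : res S c = c := by
  obtain ⟨d, hd, d', hd', h1, h2, -, -⟩ := mem_Dxy.1 hc
  rw [← h1, res_res (Finset.Subset.refl S)]

lemma al_of_mem_Dxy {M : Finset (ι → ℝ)} {t : ι → ℝ} (hval : ∀ c ∈ M, ∀ r, Al (t r) (c r))
    {S : Finset ι} {i : ι} {x y : ℝ} {c : ι → ℝ} (hc : c ∈ Dxy M S i x y) {r : ι} (hr : r ∈ S) :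
    Al (t r) (c r) := by
  obtain ⟨d, hd, d', hd', h1, h2, -, -⟩ := mem_Dxy.1 hc
  rw [← h1, res_mem hr]
  exact hval d hd r

lemma first_R {M : Finset (ι → ℝ)} {t : ι → ℝ} (hTS : TS (M : Set (ι → ℝ)))
    (hval : ∀ c ∈ M, ∀ r, Al (t r) (c r)) (ht : ∀ r, 0 ≤ t r ∧ t r < 1) {S : Finset ι}
    (hhalf : ∀ r ∈ S, t r ≠ 1 / 2) {i : ι} {x y : ℝ} (hxy : 1 ≤ |x - y|) :
    (Dxy M S i x y).card ≤ 1 + 18 * 3 ^ 12 * S.card := by
  have h3 := card_image3 hval
  have h1 := tele (M := Dxy M S i x y) (card_image_Dxy h3 S i x y) ∅ (9 * 3 ^ 12) S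
    (Finset.disjoint_empty_left S) (by
      intro S' j hS' hj hj'
      rw [Finset.empty_union]
      apply card_DD_le (card_image_Dxy h3 S i x y)
      intro d hd d' hd' hne
      apply second_small hTS hval ht hS' (fun r hr => hhalf r (hS' hr)) hj hxy
      exact (al_of_mem_Dxy hval hd hj).diff (al_of_mem_Dxy hval hd' hj) hne)
  rw [Finset.empty_union, pr_self (fun c hc => res_of_mem_Dxy hc)] at h1
  have h2 := pr_empty_card (Dxy M S i x y)
  calc _ ≤ _ := h1
    _ ≤ 1 + 18 * 3 ^ 12 * S.card := by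
      have : 2 * (9 * 3 ^ 12) * S.card = 18 * 3 ^ 12 * S.card := by ring
      omega

lemma R_total {M : Finset (ι → ℝ)} {t : ι → ℝ} (hTS : TS (M : Set (ι → ℝ)))
    (hval : ∀ c ∈ M, ∀ r, Al (t r) (c r)) (ht : ∀ r, 0 ≤ t r ∧ t r < 1) {R : Finset ι}
    (hhalf : ∀ r ∈ R, t r ≠ 1 / 2) :
    (pr M R).card ≤ 1 + 18 * (1 + 18 * 3 ^ 12 * R.card) * R.card := by
  have h3 := card_image3 hval
  have h1 := tele h3 ∅ (9 * (1 + 18 * 3 ^ 12 * R.card)) R (Finset.disjoint_empty_left R) (by
      intro S' j hS' hj hj'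
      rw [Finset.empty_union]
      apply card_DD_le h3
      intro d hd d' hd' hne
      have h2 := first_R (S := S') (i := j) hTS hval ht (fun r hr => hhalf r (hS' hr))
        ((hval d hd j).diff (hval d' hd' j) hne)
      have h4 := Finset.card_le_card hS'
      calc _ ≤ _ := h2
        _ ≤ _ := by gcongr)
  rw [Finset.empty_union] at h1
  have h2 := pr_empty_card M
  calc _ ≤ _ := h1
    _ ≤ 1 + 18 * (1 + 18 * 3 ^ 12 * R.card) * R.card := by
      have : 2 * (9 * (1 + 18 * 3 ^ 12 * R.card)) * R.card =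
        18 * (1 + 18 * 3 ^ 12 * R.card) * R.card := by ring
      omega

lemma al_half {x : ℝ} (h : Al (1 / 2) x) : x = 1 / 2 ∨ x = -1 / 2 := by
  rcases h with ⟨_, h | h⟩ | ⟨h, _⟩
  · exact Or.inl h
  · right; rw [h]; norm_num
  · norm_num at h

/-- the derived family of a row with shift one half -/
lemma H_step {M : Finset (ι → ℝ)} {t : ι → ℝ} (hTS : TS (M : Set (ι → ℝ)))
    (hval : ∀ c ∈ M, ∀ r, Al (t r) (c r)) (ht : ∀ r, 0 ≤ t r ∧ t r < 1) {R H : Finset ι}
    (hR : ∀ r ∈ R, t r ≠ 1 / 2) (hH : ∀ r ∈ H, t r = 1 / 2) {i : ι} (hi : t i = 1 / 2)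
    {x y : ℝ} (hx : x = 1 / 2 ∨ x = -1 / 2) (hy : y = - x) :
    (Dxy M (R ∪ H) i x y).card ≤ 1 + 18 * 3 ^ 12 * R.card + 36 * 3 ^ 12 * H.card := by
  have hxy : 1 ≤ |x - y| := by
    rw [hy]
    rcases hx with h | h <;> rw [h] <;> norm_num
  have h3 := card_image3 hval
  set N := Dxy M (R ∪ H) i x y with hN
  have h3N := card_image_Dxy h3 (R ∪ H) i x y
  rw [← hN] at h3N
  have hRsub : R ⊆ R ∪ H := Finset.subset_union_left
  have hHsub : H ⊆ R ∪ H := Finset.subset_union_right
  have hNval : ∀ σ ∈ N, ∀ r ∈ R ∪ H, Al (t r) (σ r) := fun σ hσ r hr => al_of_mem_Dxy hval hσ hr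
  -- patterns on `R`
  have hpat : (pr N R).card ≤ 1 + 18 * 3 ^ 12 * R.card := by
    refine le_trans (Finset.card_le_card ?_) (first_R (S := R) (i := i) hTS hval ht hR hxy)
    intro ρ hρ
    obtain ⟨σ, hσ, rfl⟩ := Finset.mem_image.1 hρ
    obtain ⟨c, hc, c', hc', h1, h2, h4, h5⟩ := mem_Dxy.1 hσ
    refine mem_Dxy.2 ⟨c, hc, c', hc', ?_, ?_, h4, h5⟩
    · rw [← h1, res_res hRsub]
    · rw [← h2, res_res hRsub]
  -- fibres
  let Fb : (ι → ℝ) → Finset (ι → ℝ) := fun ρ => N.filter (fun σ => res R σ = ρ)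
  let Hr : (ι → ℝ) → Finset ι := fun ρ => H.filter (fun h => ρ ∈ DD N R h)
  have hfib : ∀ ρ ∈ pr N R, (Fb ρ).card ≤ 4 * (Hr ρ).card + 1 := by
    intro ρ _
    have hagree : ∀ σ ∈ Fb ρ, ∀ σ' ∈ Fb ρ, (∀ h ∈ Hr ρ, σ h = σ' h) → σ = σ' := by
      intro σ hσ σ' hσ' he
      obtain ⟨h1, h2⟩ := Finset.mem_filter.1 hσ
      obtain ⟨h1', h2'⟩ := Finset.mem_filter.1 hσ'
      rw [← res_of_mem_Dxy h1, ← res_of_mem_Dxy h1', res_eq_iff]
      intro r hr
      rcases Finset.mem_union.1 hr with hr | hr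
      · exact (res_eq_iff.1 (h2.trans h2'.symm)) r hr
      · by_contra hne
        apply hne
        apply he
        exact Finset.mem_filter.2 ⟨hr, mem_DD.2 ⟨σ, h1, σ', h1', h2, h2', hne⟩⟩
    rcases (Hr ρ).eq_empty_or_nonempty with hE | hE
    · have : (Fb ρ).card ≤ 1 := by
        rw [Finset.card_le_one]
        intro σ hσ σ' hσ'
        apply hagree σ hσ σ' hσ'
        rw [hE]
        intro h hh
        exact absurd hh (Finset.notMem_empty h)
      omega
    · have hHr : ∀ h ∈ Hr ρ, h ∈ H := fun h hh => (Finset.mem_filter.1 hh).1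
      have hext : ∀ σ : ι → ℝ, ∃ p : (ι → ℝ) × (ι → ℝ), σ ∈ Fb ρ → p.1 ∈ M ∧ p.2 ∈ M ∧
          (∀ r ∈ R ∪ H, p.1 r = σ r ∧ p.2 r = σ r) ∧ p.1 i = x ∧ p.2 i = - x := by
        intro σ
        by_cases hσ : σ ∈ Fb ρ
        · obtain ⟨c, hc, c', hc', h1, h2, h4, h5⟩ := mem_Dxy.1 (Finset.mem_filter.1 hσ).1
          refine ⟨(c, c'), fun _ => ⟨hc, hc', fun r hr => ⟨?_, ?_⟩, h4, h5.trans hy⟩⟩
          · rw [← h1, res_mem hr]
          · rw [← h2, res_mem hr]
        · exact ⟨(σ, σ), fun h => absurd h hσ⟩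
      choose ext hext using hext
      have := half_bound (H := Hr ρ) (C := Fb ρ) hE
        (by
          intro σ hσ h hh
          have h1 := hNval σ (Finset.mem_filter.1 hσ).1 h (hHsub (hHr h hh))
          rw [hH h (hHr h hh)] at h1
          exact al_half h1)
        hagree
        (by
          intro n f v c lam hf hv hc hlam
          let x0 : ι → ℝ := (ext c).1
          let e : Fin n → ι → ℝ := fun j => if 0 ≤ lam j then (ext (v j)).2 else (ext (v j)).1
          have hfm : ∀ a, f a ∈ R ∪ H := fun a => hHsub (hHr _ (hf a))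
          have he1 : ∀ j, e j ∈ M := by
            intro j
            simp only [e]
            split_ifs
            · exact (hext _ (hv j)).2.1
            · exact (hext _ (hv j)).1
          have he2 : ∀ j, ∀ r ∈ R ∪ H, e j r = v j r := by
            intro j r hr
            simp only [e]
            split_ifs
            · exact ((hext _ (hv j)).2.2.1 r hr).2
            · exact ((hext _ (hv j)).2.2.1 r hr).1
          have he3 : ∀ j, lam j * e j i = - (|lam j| * x) := by
            intro j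
            simp only [e]
            split_ifs with h
            · rw [(hext _ (hv j)).2.2.2.2, abs_of_nonneg h]; ring
            · rw [(hext _ (hv j)).2.2.2.1, abs_of_neg (not_le.1 h)]; ring
          have hb := hTS.border (e0 := x0) (e := e) (hext c hc).1 he1 i f lam (by
            intro a
            rw [show x0 (f a) = c (f a) from ((hext c hc).2.2.1 (f a) (hfm a)).1, hlam a]
            apply Finset.sum_congr rfl
            intro j _
            rw [he2 j (f a) (hfm a)])
          have hm : (Matrix.of fun a j => e j (f a)) = (Matrix.of fun a j => v j (f a)) := by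
            ext a j
            exact he2 j (f a) (hfm a)
          rw [hm, abs_mul] at hb
          have hs : x0 i - ∑ j, lam j * e j i = x * (1 + ∑ j, |lam j|) := by
            rw [show x0 i = x from (hext c hc).2.2.2.1, Finset.sum_congr rfl (fun j _ => he3 j),
              Finset.sum_neg_distrib, ← Finset.sum_mul]
            ring
          have hnn : 0 ≤ 1 + ∑ j, |lam j| := by
            have : 0 ≤ ∑ j, |lam j| := Finset.sum_nonneg fun j _ => abs_nonneg _
            linarith
          have hxa : |x| = 1 / 2 := by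
            rcases hx with h | h <;> rw [h] <;> norm_num
          rw [hs, abs_mul, hxa, abs_of_nonneg hnn] at hb
          linarith)
        (by
          intro n f v hf hv
          have hm : (Matrix.of fun a j => v j (f a)) =
              (Matrix.of fun a j => (ext (v j)).1 (f a)) := by
            ext a j
            exact (((hext _ (hv j)).2.2.1 (f a) (hHsub (hHr _ (hf a)))).1).symm
          rw [hm]
          exact hTS n f (fun j => (ext (v j)).1) (fun j => (hext _ (hv j)).1))
      omega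
  have hmaps : ∀ σ ∈ N, res R σ ∈ pr N R := fun σ hσ => Finset.mem_image_of_mem _ hσ
  have hcount : ∑ ρ ∈ pr N R, (Hr ρ).card ≤ 9 * 3 ^ 12 * H.card := by
    have e1 : ∑ ρ ∈ pr N R, (Hr ρ).card = ∑ h ∈ H, (DD N R h).card := by
      simp only [Hr, Finset.card_filter]
      rw [Finset.sum_comm]
      apply Finset.sum_congr rfl
      intro h _
      rw [← Finset.card_filter]
      congr 1
      ext ρ
      rw [Finset.mem_filter]
      constructor
      · exact fun h => h.2
      · intro h'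
        exact ⟨(Finset.mem_filter.1 h').1, h'⟩
    rw [e1]
    calc ∑ h ∈ H, (DD N R h).card ≤ ∑ h ∈ H, 9 * 3 ^ 12 := by
          apply Finset.sum_le_sum
          intro h hh
          apply card_DD_le h3N
          intro d hd d' hd' hne
          exact second_small hTS hval ht hRsub hR (hHsub hh) hxy
            ((hNval d hd h (hHsub hh)).diff (hNval d' hd' h (hHsub hh)) hne)
      _ = 9 * 3 ^ 12 * H.card := by rw [Finset.sum_const, smul_eq_mul, mul_comm]
  calc N.card = ∑ ρ ∈ pr N R, (Fb ρ).card := Finset.card_eq_sum_card_fiberwise hmaps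
    _ ≤ ∑ ρ ∈ pr N R, (4 * (Hr ρ).card + 1) := Finset.sum_le_sum hfib
    _ = 4 * ∑ ρ ∈ pr N R, (Hr ρ).card + (pr N R).card := by
        rw [Finset.sum_add_distrib, ← Finset.mul_sum, Finset.sum_const, smul_eq_mul, mul_one]
    _ ≤ 4 * (9 * 3 ^ 12 * H.card) + (1 + 18 * 3 ^ 12 * R.card) := by gcongr
    _ = _ := by ring

/-- the quadratic upper bound -/
theorem quadratic [Fintype ι] {M : Finset (ι → ℝ)} {t : ι → ℝ} (hTS : TS (M : Set (ι → ℝ)))
    (hval : ∀ c ∈ M, ∀ r, Al (t r) (c r)) (ht : ∀ r, 0 ≤ t r ∧ t r < 1) :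
    M.card ≤ 1300 * 3 ^ 12 * (Fintype.card ι + 1) ^ 2 := by
  have h3 := card_image3 hval
  set R : Finset ι := Finset.univ.filter (fun r => t r ≠ 1 / 2) with hRdef
  set H : Finset ι := Finset.univ.filter (fun r => ¬ (t r ≠ 1 / 2)) with hHdef
  set m := Fintype.card ι with hm
  have hR : ∀ r ∈ R, t r ≠ 1 / 2 := fun r hr => (Finset.mem_filter.1 hr).2
  have hH : ∀ r ∈ H, t r = 1 / 2 := fun r hr => not_not.1 (Finset.mem_filter.1 hr).2
  have hdisj : Disjoint R H := Finset.disjoint_filter_filter_not _ _ _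
  have hRc : R.card ≤ m := Finset.card_le_univ R
  have hHc : H.card ≤ m := Finset.card_le_univ H
  have huniv : R ∪ H = Finset.univ := by
    ext r
    simp only [hRdef, hHdef, Finset.mem_union, Finset.mem_filter, Finset.mem_univ, true_and,
      iff_true]
    exact Classical.em _
  have h1 := tele h3 R (9 * (1 + 18 * 3 ^ 12 * m + 36 * 3 ^ 12 * m)) H hdisj (by
    intro S' i hS' hi hi'
    apply card_DD_le h3
    intro d hd d' hd' hne
    have hx := hval d hd i
    have hy := hval d' hd' i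
    rw [hH i hi] at hx hy
    have hx' := al_half hx
    have hy' := al_half hy
    have hyx : d' i = - d i := by
      rcases hx' with h | h <;> rcases hy' with h' | h'
      · exact absurd (h.trans h'.symm) hne
      · rw [h, h']; norm_num
      · rw [h, h']; norm_num
      · exact absurd (h.trans h'.symm) hne
    have h2 := H_step (R := R) (H := S') (i := i) hTS hval ht hR (fun r hr => hH r (hS' hr))
      (hH i hi) hx' hyx
    have h4 : S'.card ≤ m := Finset.card_le_univ S'
    calc _ ≤ _ := h2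
      _ ≤ _ := by gcongr)
  have h2 := R_total hTS hval ht hR
  rw [huniv, pr_self (fun c _ => by
    funext i
    exact res_mem (Finset.mem_univ i))] at h1
  calc M.card ≤ _ := h1
    _ ≤ (1 + 18 * (1 + 18 * 3 ^ 12 * m) * m) +
        2 * (9 * (1 + 18 * 3 ^ 12 * m + 36 * 3 ^ 12 * m)) * m := by
        refine Nat.add_le_add (h2.trans ?_) ?_
        · gcongr
        · gcongr
    _ ≤ 1300 * 3 ^ 12 * (m + 1) ^ 2 := by nlinarith [Nat.zero_le m]

end

end HellerS
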