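import Mathlib

set_option autoImplicit false

namespace Snub

open scoped RealInnerProductSpace

/-- Euclidean 3-space. -/
abbrev E3 := EuclideanSpace ℝ (Fin 3)

/-- A 3-polytope: the convex hull of a finite set, with nonempty interior. -/
def IsPolytope3 (P : Set E3) : Prop :=
  (∃ A : Set E3, A.Finite ∧ P = convexHull ℝ A) ∧ (interior P).Nonempty

/-- The number of vertices (extreme points) of `P`. -/
noncomputable def numVertices (P : Set E3) : ℕ := (P.extremePoints ℝ).ncard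

/-- The facets of `P`: its exposed faces of dimension two. -/
def facets (P : Set E3) : Set (Set E3) :=
  {F | IsExposed ℝ P F ∧ Module.finrank ℝ (vectorSpan ℝ F) = 2}

/-- The number of facets of `P`. -/
noncomputable def numFacets (P : Set E3) : ℕ := (facets P).ncard

/-- `P` is `G`-symmetric. -/
def IsSymmetric (G : Subgroup (E3 ≃ₗᵢ[ℝ] E3)) (P : Set E3) : Prop :=
  ∀ g ∈ G, g '' P = P

/-- The set `F(G)` of pairs `(f₀, f₂)` of `G`-symmetric 3-polytopes. -/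
def fSet (G : Subgroup (E3 ≃ₗᵢ[ℝ] E3)) : Set (ℕ × ℕ) :=
  {f | ∃ P : Set E3, IsPolytope3 P ∧ IsSymmetric G P ∧ f = (numVertices P, numFacets P)}

lemma full_mul {K : Set E3} {g h : E3 ≃ₗᵢ[ℝ] E3} (hg : g '' K = K) (hh : h '' K = K) :
    (g * h : E3 ≃ₗᵢ[ℝ] E3) '' K = K := by
  rw [LinearIsometryEquiv.coe_mul, Set.image_comp, hh, hg]

lemma full_one {K : Set E3} : (1 : E3 ≃ₗᵢ[ℝ] E3) '' K = K := by simp

lemma full_inv {K : Set E3} {g : E3 ≃ₗᵢ[ℝ] E3} (hg : g '' K = K) :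
    (g⁻¹ : E3 ≃ₗᵢ[ℝ] E3) '' K = K := by
  conv_lhs => rw [← hg]
  rw [← Set.image_comp]
  have : (⇑g⁻¹ ∘ ⇑g) = id := by
    funext x
    simp [LinearIsometryEquiv.inv_def]
  rw [this, Set.image_id]

/-- determinant of an isometry -/
noncomputable def dt (g : E3 ≃ₗᵢ[ℝ] E3) : ℝ := LinearMap.det (g.toLinearEquiv : E3 →ₗ[ℝ] E3)

lemma dt_mul (g h : E3 ≃ₗᵢ[ℝ] E3) : dt (g * h) = dt g * dt h := by
  unfold dt
  have : ((g * h).toLinearEquiv : E3 →ₗ[ℝ] E3) =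
      (g.toLinearEquiv : E3 →ₗ[ℝ] E3) ∘ₗ (h.toLinearEquiv : E3 →ₗ[ℝ] E3) := rfl
  rw [this, LinearMap.det_comp]

lemma dt_one : dt 1 = 1 := by
  unfold dt
  have : ((1 : E3 ≃ₗᵢ[ℝ] E3).toLinearEquiv : E3 →ₗ[ℝ] E3) = LinearMap.id := rfl
  rw [this, LinearMap.det_id]

lemma rot_mul {K : Set E3} {g h : E3 ≃ₗᵢ[ℝ] E3} (hg : g '' K = K ∧ dt g = 1)
    (hh : h '' K = K ∧ dt h = 1) : (g * h : E3 ≃ₗᵢ[ℝ] E3) '' K = K ∧ dt (g * h) = 1 := by
  refine ⟨full_mul hg.1 hh.1, ?_⟩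
  rw [dt_mul, hg.2, hh.2, one_mul]

lemma rot_inv {K : Set E3} {g : E3 ≃ₗᵢ[ℝ] E3} (hg : g '' K = K ∧ dt g = 1) :
    (g⁻¹ : E3 ≃ₗᵢ[ℝ] E3) '' K = K ∧ dt g⁻¹ = 1 := by
  refine ⟨full_inv hg.1, ?_⟩
  have h2 : dt (g⁻¹ * g) = 1 := by rw [inv_mul_cancel, dt_one]
  rw [dt_mul, hg.2, mul_one] at h2
  exact h2

/-- The full symmetry group of `K` in `O(3)`. -/
def fullGroup (K : Set E3) : Subgroup (E3 ≃ₗᵢ[ℝ] E3) where
  carrier := {g | g '' K = K}
  mul_mem' := full_mul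
  one_mem' := full_one
  inv_mem' := full_inv

/-- The rotation group of `K`: the symmetries of `K` with determinant one. -/
def rotationGroup (K : Set E3) : Subgroup (E3 ≃ₗᵢ[ℝ] E3) where
  carrier := {g | g '' K = K ∧ dt g = 1}
  mul_mem' := rot_mul
  one_mem' := ⟨full_one, dt_one⟩
  inv_mem' := rot_inv

/-- the point with coordinates `x, y, z` -/
def vec (x y z : ℝ) : E3 := !₂[x, y, z]

end Snub
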