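import Pool.Agent.Lib.Helper7.Snub1

set_option autoImplicit false

namespace Snub

open scoped RealInnerProductSpace

/-- The combinatorial-metric data used for each of the three solids. -/
structure Solid (S : Set E3) (a b c d : E3) (p q : ℝ) : Prop where
  fin : S.Finite
  self : ∀ x ∈ S, ⟪x, x⟫ = p
  le_q : ∀ x ∈ S, ∀ y ∈ S, x ≠ y → ⟪x, y⟫ ≤ q
  ma : a ∈ S
  mb : b ∈ S
  mc : c ∈ S
  md : d ∈ S
  ab : ⟪a, b⟫ = q
  ac : ⟪a, c⟫ = q
  bc : ⟪b, c⟫ = q
  ad : ⟪a, d⟫ = q
  bd : ⟪b, d⟫ = q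
  cd : c ≠ d
  qp : q < p
  pq : 0 < p + 2 * q
  r1 : ∀ x ∈ S, x - (2 * ⟪a - b, x⟫ / ⟪a - b, a - b⟫) • (a - b) ∈ S
  r2 : ∀ x ∈ S, x - (2 * ⟪b - c, x⟫ / ⟪b - c, b - c⟫) • (b - c) ∈ S
  r3 : ∀ x ∈ S, x - (2 * ⟪c - d, x⟫ / ⟪c - d, c - d⟫) • (c - d) ∈ S

/-- the reflection in the plane orthogonal to `v` -/
noncomputable def refl (v : E3) : E3 ≃ₗᵢ[ℝ] E3 := (ℝ ∙ v)ᗮ.reflection

lemma refl_apply (v x : E3) : refl v x = x - (2 * ⟪v, x⟫ / ⟪v, v⟫) • v := by
  unfold refl
  rw [Submodule.reflection_orthogonal_apply, Submodule.reflection_singleton_apply,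
    real_inner_self_eq_norm_sq]
  simp only [RCLike.ofReal_real_eq_id, id_eq]
  rw [neg_sub, two_smul, ← add_smul]
  congr 2
  ring

lemma refl_refl (v x : E3) : refl v (refl v x) = x := by
  unfold refl; simp

lemma det_refl (v : E3) (hv : v ≠ 0) :
    LinearMap.det ((refl v).toLinearEquiv : E3 →ₗ[ℝ] E3) = -1 := by
  unfold refl
  have h := Submodule.det_reflection (𝕜 := ℝ) (ℝ ∙ v)ᗮ
  rw [Submodule.orthogonal_orthogonal, finrank_span_singleton hv, pow_one] at h
  exact h

lemma dt_refl (v : E3) (hv : v ≠ 0) : dt (refl v) = -1 := det_refl v hv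

lemma dt_sq (g : E3 ≃ₗᵢ[ℝ] E3) : dt g = 1 ∨ dt g = -1 := by
  unfold dt
  have h1 := OrthonormalBasis.det_to_matrix_orthonormalBasis_real
    (EuclideanSpace.basisFun (Fin 3) ℝ) ((EuclideanSpace.basisFun (Fin 3) ℝ).map g)
  have h2 := (EuclideanSpace.basisFun (Fin 3) ℝ).toBasis.det_comp
    (g.toLinearEquiv : E3 →ₗ[ℝ] E3) (EuclideanSpace.basisFun (Fin 3) ℝ).toBasis
  rw [Module.Basis.det_self, mul_one] at h2
  rw [← h2]
  exact h1

/-- extreme points of the hull of a subset of a sphere -/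
lemma extremePoints_hull_of_sphere {S : Set E3} {p : ℝ} (h : ∀ x ∈ S, ⟪x, x⟫ = p) :
    (convexHull ℝ S).extremePoints ℝ = S := by
  apply Set.Subset.antisymm extremePoints_convexHull_subset
  intro x hx
  have hle : ∀ y ∈ convexHull ℝ S, ⟪y, y⟫ ≤ p := by
    intro y hy
    by_cases hp : 0 ≤ p
    · have hsub : convexHull ℝ S ⊆ Metric.closedBall (0 : E3) (Real.sqrt p) := by
        apply convexHull_min _ (convex_closedBall _ _)
        intro s hs
        rw [Metric.mem_closedBall, dist_zero_right]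
        have := h s hs
        rw [real_inner_self_eq_norm_sq] at this
        rw [← this, Real.sqrt_sq (norm_nonneg _)]
      have := hsub hy
      rw [Metric.mem_closedBall, dist_zero_right] at this
      rw [real_inner_self_eq_norm_sq]
      calc ‖y‖ ^ 2 ≤ (Real.sqrt p) ^ 2 := by gcongr
        _ = p := Real.sq_sqrt hp
    · exfalso
      have := h x hx
      have h2 := real_inner_self_nonneg (x := x)
      linarith
  have hx' : x ∈ convexHull ℝ S := subset_convexHull ℝ S hx
  have hinner : ∀ y ∈ convexHull ℝ S, ⟪x, y⟫ ≤ p := by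
    intro y hy
    have h1 := hle y hy
    have h2 := h x hx
    have h3 : 0 ≤ ⟪x - y, x - y⟫ := real_inner_self_nonneg
    rw [inner_sub_left, inner_sub_right, inner_sub_right, real_inner_comm x y] at h3
    linarith
  have key : ∀ y ∈ convexHull ℝ S, ⟪x, y⟫ = p → y = x := by
    intro y hy hyp
    have h1 := hle y hy
    have h2 := h x hx
    have h3 : ⟪y - x, y - x⟫ ≤ 0 := by
      rw [inner_sub_left, inner_sub_right, inner_sub_right, real_inner_comm x y]
      linarith
    have h4 : y - x = 0 := by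
      apply inner_self_eq_zero (𝕜 := ℝ).1
      exact le_antisymm h3 real_inner_self_nonneg
    exact sub_eq_zero.1 h4
  rw [mem_extremePoints]
  refine ⟨hx', ?_⟩
  intro y hy z hz hxyz
  obtain ⟨s, t, hs, ht, hst, hxeq⟩ := hxyz
  have e : ⟪x, x⟫ = s * ⟪x, y⟫ + t * ⟪x, z⟫ := by
    conv_lhs => rw [← hxeq]
    rw [inner_add_left, real_inner_smul_left, real_inner_smul_left]
    conv_lhs => rw [hxeq]
    rw [real_inner_comm x y, real_inner_comm x z]
  rw [h x hx] at e
  have h1 := hinner y hy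
  have h2 := hinner z hz
  have e' : s * (p - ⟪x, y⟫) + t * (p - ⟪x, z⟫) = 0 := by
    have : p = (s + t) * p := by rw [hst, one_mul]
    linarith
  have hs1 : 0 ≤ s * (p - ⟪x, y⟫) := mul_nonneg hs.le (by linarith)
  have ht1 : 0 ≤ t * (p - ⟪x, z⟫) := mul_nonneg ht.le (by linarith)
  have hy1 : ⟪x, y⟫ = p := by
    have : s * (p - ⟪x, y⟫) = 0 := by linarith
    rcases mul_eq_zero.1 this with h3 | h3 <;> linarith
  have hz1 : ⟪x, z⟫ = p := by
    have : t * (p - ⟪x, z⟫) = 0 := by linarith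
    rcases mul_eq_zero.1 this with h3 | h3 <;> linarith
  exact ⟨key y hy hy1, key z hz hz1⟩

lemma image_hull (g : E3 ≃ₗᵢ[ℝ] E3) (S : Set E3) :
    g '' (convexHull ℝ S) = convexHull ℝ (g '' S) :=
  (g.toLinearEquiv : E3 →ₗ[ℝ] E3).image_convexHull S

lemma image_ext (g : E3 ≃ₗᵢ[ℝ] E3) (P : Set E3) :
    g '' (P.extremePoints ℝ) = (g '' P).extremePoints ℝ :=
  image_extremePoints g.toLinearEquiv P

lemma mem_full_iff {S : Set E3} {p : ℝ} (h : ∀ x ∈ S, ⟪x, x⟫ = p) (g : E3 ≃ₗᵢ[ℝ] E3) :
    g ∈ fullGroup (convexHull ℝ S) ↔ g '' S = S := by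
  constructor
  · intro hg
    have hg' : g '' (convexHull ℝ S) = convexHull ℝ S := hg
    have := congrArg (fun T : Set E3 => T.extremePoints ℝ) hg'
    rw [← image_ext, extremePoints_hull_of_sphere h] at this
    exact this
  · intro hg
    change g '' (convexHull ℝ S) = convexHull ℝ S
    rw [image_hull, hg]

namespace Solid

variable {S : Set E3} {a b c d : E3} {p q : ℝ}

lemma inner_map (g : E3 ≃ₗᵢ[ℝ] E3) (x y : E3) : ⟪g x, g y⟫ = ⟪x, y⟫ :=
  LinearIsometryEquiv.inner_map_map g x y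

lemma mem_map (h : Solid S a b c d p q) {g : E3 ≃ₗᵢ[ℝ] E3}
    (hg : g ∈ fullGroup (convexHull ℝ S)) {x : E3} (hx : x ∈ S) : g x ∈ S := by
  rw [mem_full_iff h.self] at hg
  rw [← hg]
  exact Set.mem_image_of_mem g hx

lemma refl_mem (h : Solid S a b c d p q) {v : E3}
    (hv : ∀ x ∈ S, x - (2 * ⟪v, x⟫ / ⟪v, v⟫) • v ∈ S) :
    refl v ∈ fullGroup (convexHull ℝ S) := by
  rw [mem_full_iff h.self]
  have h1 : ∀ x ∈ S, refl v x ∈ S := by
    intro x hx
    rw [refl_apply]
    exact hv x hx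
  ext x
  constructor
  · rintro ⟨y, hy, rfl⟩
    exact h1 y hy
  · intro hx
    exact ⟨refl v x, h1 x hx, refl_refl v x⟩

lemma m1 (h : Solid S a b c d p q) : refl (a - b) ∈ fullGroup (convexHull ℝ S) := h.refl_mem h.r1
lemma m2 (h : Solid S a b c d p q) : refl (b - c) ∈ fullGroup (convexHull ℝ S) := h.refl_mem h.r2
lemma m3 (h : Solid S a b c d p q) : refl (c - d) ∈ fullGroup (convexHull ℝ S) := h.refl_mem h.r3

lemma ba (h : Solid S a b c d p q) : ⟪b, a⟫ = q := by rw [real_inner_comm]; exact h.ab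
lemma ca (h : Solid S a b c d p q) : ⟪c, a⟫ = q := by rw [real_inner_comm]; exact h.ac
lemma cb (h : Solid S a b c d p q) : ⟪c, b⟫ = q := by rw [real_inner_comm]; exact h.bc
lemma da (h : Solid S a b c d p q) : ⟪d, a⟫ = q := by rw [real_inner_comm]; exact h.ad
lemma db (h : Solid S a b c d p q) : ⟪d, b⟫ = q := by rw [real_inner_comm]; exact h.bd
lemma aa (h : Solid S a b c d p q) : ⟪a, a⟫ = p := h.self a h.ma
lemma bb (h : Solid S a b c d p q) : ⟪b, b⟫ = p := h.self b h.mb
lemma cc (h : Solid S a b c d p q) : ⟪c, c⟫ = p := h.self c h.mc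
lemma dd (h : Solid S a b c d p q) : ⟪d, d⟫ = p := h.self d h.md
lemma cd_le (h : Solid S a b c d p q) : ⟪c, d⟫ ≤ q := h.le_q c h.mc d h.md h.cd
lemma p_add_q (h : Solid S a b c d p q) : 0 < p + q := by
  have := h.qp; have := h.pq; linarith

/-- the three basic vectors -/
def om (a b c : E3) : Fin 3 → E3 := ![a, a + b, a + b + c]

/-- the three simple roots -/
def al (a b c d : E3) : Fin 3 → E3 := ![a - b, b - c, c - d]

/-- the positive numbers `⟪om i, al i⟫` -/
noncomputable def ka (c d : E3) (p q : ℝ) : Fin 3 → ℝ := ![p - q, p - q, p - ⟪c, d⟫]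

lemma ka_pos (h : Solid S a b c d p q) (i : Fin 3) : 0 < ka c d p q i := by
  have h1 := h.qp
  have h2 := h.cd_le
  fin_cases i <;> simp [ka] <;> linarith

lemma om_al (h : Solid S a b c d p q) (i j : Fin 3) :
    ⟪om a b c i, al a b c d j⟫ = if i = j then ka c d p q i else 0 := by
  have e1 := h.aa; have e2 := h.bb; have e3 := h.cc; have e4 := h.dd
  have e5 := h.ab; have e6 := h.ba; have e7 := h.ac; have e8 := h.ca
  have e9 := h.bc; have e10 := h.cb; have e11 := h.ad; have e12 := h.da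
  have e13 := h.bd; have e14 := h.db
  fin_cases i <;> fin_cases j <;>
    simp only [om, al, ka, Fin.zero_eta, Fin.mk_one, Fin.reduceFinMk, Fin.isValue,
      Matrix.cons_val_zero, Matrix.cons_val_one, Matrix.cons_val, inner_add_left,
      inner_sub_right, e1, e2, e3, e4, e5, e6, e7, e8, e9, e10, e11, e12, e13, e14, if_true,
      Fin.reduceEq, if_false, zero_ne_one, one_ne_zero] <;> ring

lemma al_ne (h : Solid S a b c d p q) (i : Fin 3) : al a b c d i ≠ 0 := by
  intro h0
  have h1 := h.om_al i i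
  rw [h0, inner_zero_right, if_pos rfl] at h1
  have := h.ka_pos i
  linarith

lemma al_indep (h : Solid S a b c d p q) : LinearIndependent ℝ (al a b c d) := by
  rw [Fintype.linearIndependent_iff]
  intro g hg i
  have h1 : ⟪om a b c i, ∑ j, g j • al a b c d j⟫ = 0 := by rw [hg, inner_zero_right]
  rw [inner_sum] at h1
  simp only [real_inner_smul_right, h.om_al] at h1
  rw [Finset.sum_eq_single i] at h1
  · rw [if_pos rfl] at h1
    have := h.ka_pos i
    rcases mul_eq_zero.1 h1 with h2 | h2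
    · exact h2
    · linarith
  · intro j _ hj
    rw [if_neg (Ne.symm hj), mul_zero]
  · intro hi; exact absurd (Finset.mem_univ i) hi

lemma om_indep (h : Solid S a b c d p q) : LinearIndependent ℝ (om a b c) := by
  rw [Fintype.linearIndependent_iff]
  intro g hg i
  have h1 : ⟪∑ j, g j • om a b c j, al a b c d i⟫ = 0 := by rw [hg, inner_zero_left]
  rw [sum_inner] at h1
  simp only [real_inner_smul_left, h.om_al] at h1
  rw [Finset.sum_eq_single i] at h1
  · rw [if_pos rfl] at h1
    have := h.ka_pos i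
    rcases mul_eq_zero.1 h1 with h2 | h2
    · exact h2
    · linarith
  · intro j _ hj
    rw [if_neg hj, mul_zero]
  · intro hi; exact absurd (Finset.mem_univ i) hi

lemma eq_zero_of_inner_al (h : Solid S a b c d p q) {x : E3}
    (hx : ∀ i, ⟪x, al a b c d i⟫ = 0) : x = 0 := by
  have hspan : Submodule.span ℝ (Set.range (al a b c d)) = ⊤ :=
    h.al_indep.span_eq_top_of_card_eq_finrank' (by simp)
  have hxm : x ∈ Submodule.span ℝ (Set.range (al a b c d)) := by rw [hspan]; trivial
  have : ∀ y ∈ Submodule.span ℝ (Set.range (al a b c d)), ⟪x, y⟫ = 0 := by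
    intro y hy
    induction hy using Submodule.span_induction with
    | mem y hy =>
      obtain ⟨i, rfl⟩ := hy
      exact hx i
    | zero => simp
    | add y z _ _ h1 h2 => rw [inner_add_right, h1, h2, add_zero]
    | smul r y _ h1 => rw [real_inner_smul_right, h1, mul_zero]
  exact inner_self_eq_zero (𝕜 := ℝ).1 (this x hxm)

lemma eq_zero_of_inner_om (h : Solid S a b c d p q) {x : E3}
    (hx : ∀ i, ⟪om a b c i, x⟫ = 0) : x = 0 := by
  have hspan : Submodule.span ℝ (Set.range (om a b c)) = ⊤ :=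
    h.om_indep.span_eq_top_of_card_eq_finrank' (by simp)
  have hxm : x ∈ Submodule.span ℝ (Set.range (om a b c)) := by rw [hspan]; trivial
  have : ∀ y ∈ Submodule.span ℝ (Set.range (om a b c)), ⟪y, x⟫ = 0 := by
    intro y hy
    induction hy using Submodule.span_induction with
    | mem y hy =>
      obtain ⟨i, rfl⟩ := hy
      exact hx i
    | zero => simp
    | add y z _ _ h1 h2 => rw [inner_add_left, h1, h2, add_zero]
    | smul r y _ h1 => rw [real_inner_smul_left, h1, mul_zero]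
  exact inner_self_eq_zero (𝕜 := ℝ).1 (this x hxm)

/-- coordinates of a vector with respect to the `om i` -/
noncomputable def co (a b c d : E3) (p q : ℝ) (x : E3) (i : Fin 3) : ℝ :=
  ⟪x, al a b c d i⟫ / ka c d p q i

lemma sum_co (h : Solid S a b c d p q) (x : E3) :
    ∑ i, co a b c d p q x i • om a b c i = x := by
  have : x - ∑ i, co a b c d p q x i • om a b c i = 0 := by
    apply h.eq_zero_of_inner_al
    intro j
    rw [inner_sub_left, sum_inner]
    simp only [real_inner_smul_left, h.om_al]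
    rw [Finset.sum_eq_single j]
    · rw [if_pos rfl]
      unfold co
      have := h.ka_pos j
      field_simp
      ring
    · intro i _ hi
      rw [if_neg hi, mul_zero]
    · intro hi; exact absurd (Finset.mem_univ j) hi
  exact (sub_eq_zero.1 this).symm

/-- the chamber -/
def ch (a b c d : E3) : Set E3 := {x | ∀ i, 0 ≤ ⟪x, al a b c d i⟫}

lemma co_nonneg (h : Solid S a b c d p q) {x : E3} (hx : x ∈ ch a b c d) (i : Fin 3) :
    0 ≤ co a b c d p q x i := div_nonneg (hx i) (h.ka_pos i).le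

end Solid

end Snub
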