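import Pool.Agent.Lib.Helper7.Snub2

set_option autoImplicit false

namespace Snub

open scoped RealInnerProductSpace

namespace Solid

variable {S : Set E3} {a b c d : E3} {p q : ℝ}

/-- A flag: an ordered triple of pairwise adjacent vertices. -/
def Flag (S : Set E3) (q : ℝ) (x y z : E3) : Prop :=
  x ∈ S ∧ y ∈ S ∧ z ∈ S ∧ ⟪x, y⟫ = q ∧ ⟪x, z⟫ = q ∧ ⟪y, z⟫ = q

lemma flag_abc (h : Solid S a b c d p q) : Flag S q a b c :=
  ⟨h.ma, h.mb, h.mc, h.ab, h.ac, h.bc⟩

lemma flag_map (h : Solid S a b c d p q) {g : E3 ≃ₗᵢ[ℝ] E3}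
    (hg : g ∈ fullGroup (convexHull ℝ S)) {x y z : E3} (hf : Flag S q x y z) :
    Flag S q (g x) (g y) (g z) := by
  obtain ⟨hx, hy, hz, h1, h2, h3⟩ := hf
  refine ⟨h.mem_map hg hx, h.mem_map hg hy, h.mem_map hg hz, ?_, ?_, ?_⟩ <;>
    rw [inner_map] <;> assumption

lemma ne_of_inner (h : Solid S a b c d p q) {x y : E3} (hx : x ∈ S) (hxy : ⟪x, y⟫ = q) :
    x ≠ y := by
  rintro rfl
  have := h.self x hx
  have := h.qp
  linarith

lemma le_p (h : Solid S a b c d p q) {u x : E3} (hu : u ∈ S) (hx : x ∈ S) : ⟪u, x⟫ ≤ p := by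
  by_cases e : u = x
  · rw [e, h.self x hx]
  · exact (h.le_q u hu x hx e).trans h.qp.le

lemma pair_le (h : Solid S a b c d p q) {u x y : E3} (hu : u ∈ S) (hx : x ∈ S) (hy : y ∈ S)
    (hxy : x ≠ y) : ⟪u, x⟫ + ⟪u, y⟫ ≤ p + q := by
  by_cases e : u = x
  · subst e
    rw [h.self u hx]
    have := h.le_q u hu y hy hxy
    linarith
  · have h1 := h.le_q u hu x hx e
    have h2 := h.le_p hu hy
    linarith

lemma triple_le (h : Solid S a b c d p q) {u x y z : E3} (hu : u ∈ S) (hx : x ∈ S) (hy : y ∈ S)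
    (hz : z ∈ S) (hxy : x ≠ y) (hxz : x ≠ z) (hyz : y ≠ z) :
    ⟪u, x⟫ + ⟪u, y⟫ + ⟪u, z⟫ ≤ p + 2 * q := by
  by_cases e : u = x
  · subst e
    rw [h.self u hx]
    have h1 := h.le_q u hu y hy hxy
    have h2 := h.le_q u hu z hz hxz
    linarith
  · have h1 := h.le_q u hu x hx e
    have h2 := h.pair_le hu hy hz hyz
    linarith

/-- dominance for a flag -/
lemma dom (h : Solid S a b c d p q) {x y z : E3} (hf : Flag S q x y z) (i j : Fin 3) :
    ⟪om a b c i, om x y z j⟫ ≤ ⟪om a b c i, om a b c j⟫ := by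
  obtain ⟨hx, hy, hz, hxy, hxz, hyz⟩ := hf
  have nxy := h.ne_of_inner hx hxy
  have nxz := h.ne_of_inner hx hxz
  have nyz := h.ne_of_inner hy hyz
  have nab := h.ne_of_inner h.ma h.ab
  have nac := h.ne_of_inner h.ma h.ac
  have nbc := h.ne_of_inner h.mb h.bc
  have e1 := h.aa; have e2 := h.bb; have e3 := h.cc
  have e5 := h.ab; have e6 := h.ba; have e7 := h.ac; have e8 := h.ca
  have e9 := h.bc; have e10 := h.cb
  have p1 := h.le_p h.ma hx
  have p2 := h.pair_le h.ma hx hy nxy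
  have p3 := h.triple_le h.ma hx hy hz nxy nxz nyz
  have p4 := h.pair_le h.mb hx hy nxy
  have p5 := h.triple_le h.mb hx hy hz nxy nxz nyz
  have p6 := h.triple_le h.mc hx hy hz nxy nxz nyz
  have q1 := h.pair_le hx h.ma h.mb nab
  have q2 := h.triple_le hx h.ma h.mb h.mc nab nac nbc
  have q3 := h.triple_le hy h.ma h.mb h.mc nab nac nbc
  rw [real_inner_comm a x, real_inner_comm b x] at q1
  rw [real_inner_comm a x, real_inner_comm b x, real_inner_comm c x] at q2
  rw [real_inner_comm a y, real_inner_comm b y, real_inner_comm c y] at q3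
  fin_cases i <;> fin_cases j <;>
    simp only [om, Fin.zero_eta, Fin.mk_one, Fin.reduceFinMk, Fin.isValue,
      Matrix.cons_val_zero, Matrix.cons_val_one, Matrix.cons_val, inner_add_left,
      inner_add_right, e1, e2, e3, e5, e6, e7, e8, e9, e10] <;> linarith

lemma om_map (g : E3 ≃ₗᵢ[ℝ] E3) (i : Fin 3) : g (om a b c i) = om (g a) (g b) (g c) i := by
  fin_cases i <;> simp [om]

lemma dom' (h : Solid S a b c d p q) {g : E3 ≃ₗᵢ[ℝ] E3}
    (hg : g ∈ fullGroup (convexHull ℝ S)) (i j : Fin 3) :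
    ⟪om a b c i, g (om a b c j)⟫ ≤ ⟪om a b c i, om a b c j⟫ := by
  rw [om_map]
  exact h.dom (h.flag_map hg h.flag_abc) i j

lemma dom_ch (h : Solid S a b c d p q) {g : E3 ≃ₗᵢ[ℝ] E3}
    (hg : g ∈ fullGroup (convexHull ℝ S)) {v : E3} (hv : v ∈ ch a b c d) (i : Fin 3) :
    ⟪om a b c i, g v⟫ ≤ ⟪om a b c i, v⟫ := by
  have e := h.sum_co v
  have e1 : g v = ∑ j, co a b c d p q v j • g (om a b c j) := by
    conv_lhs => rw [← e]
    rw [map_sum]
    simp only [map_smul]
  have e2 : ⟪om a b c i, v⟫ = ∑ j, co a b c d p q v j * ⟪om a b c i, om a b c j⟫ := by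
    conv_lhs => rw [← e]
    rw [inner_sum]
    simp only [real_inner_smul_right]
  rw [e1, e2, inner_sum]
  simp only [real_inner_smul_right]
  exact Finset.sum_le_sum fun j _ => mul_le_mul_of_nonneg_left (h.dom' hg i j) (h.co_nonneg hv j)

/-- equality case -/
lemma dom_eq (h : Solid S a b c d p q) {n v y : E3} (hn : n ∈ ch a b c d)
    (hy : ∀ i, ⟪om a b c i, y⟫ ≤ ⟪om a b c i, v⟫) (he : ⟪n, v⟫ ≤ ⟪n, y⟫) (i : Fin 3)
    (hi : 0 < co a b c d p q n i) : ⟪om a b c i, y⟫ = ⟪om a b c i, v⟫ := by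
  have e := h.sum_co n
  have e1 : ∀ w : E3, ⟪n, w⟫ = ∑ j, co a b c d p q n j * ⟪om a b c j, w⟫ := by
    intro w
    conv_lhs => rw [← e]
    rw [sum_inner]
    simp only [real_inner_smul_left]
  rw [e1, e1] at he
  by_contra hne
  have hlt : ⟪om a b c i, y⟫ < ⟪om a b c i, v⟫ := lt_of_le_of_ne (hy i) hne
  have : ∑ j, co a b c d p q n j * ⟪om a b c j, y⟫ <
      ∑ j, co a b c d p q n j * ⟪om a b c j, v⟫ := by
    apply Finset.sum_lt_sum
    · intro j _
      exact mul_le_mul_of_nonneg_left (hy j) (h.co_nonneg hn j)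
    · exact ⟨i, Finset.mem_univ i, mul_lt_mul_of_pos_left hlt hi⟩
  linarith

/-- the chamber meets each orbit at most once -/
lemma ch_unique (h : Solid S a b c d p q) {g : E3 ≃ₗᵢ[ℝ] E3}
    (hg : g ∈ fullGroup (convexHull ℝ S)) {v : E3} (hv : v ∈ ch a b c d)
    (hgv : g v ∈ ch a b c d) : g v = v := by
  have h1 := h.dom_ch hg hv
  have h2 : ∀ i, ⟪om a b c i, v⟫ ≤ ⟪om a b c i, g v⟫ := by
    intro i
    have := h.dom_ch ((fullGroup (convexHull ℝ S)).inv_mem hg) hgv i
    simpa [LinearIsometryEquiv.inv_def] using this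
  have : g v - v = 0 := by
    apply h.eq_zero_of_inner_om
    intro i
    rw [inner_sub_right]
    have := h1 i; have := h2 i
    linarith
  exact sub_eq_zero.1 this

/-- if `g v = v` with `v` in the chamber, then `g` fixes `om i` whenever the coordinate of `v`
is positive -/
lemma fix_om (h : Solid S a b c d p q) {g : E3 ≃ₗᵢ[ℝ] E3}
    (hg : g ∈ fullGroup (convexHull ℝ S)) {v : E3} (hv : v ∈ ch a b c d) (hgv : g v = v)
    (i : Fin 3) (hi : 0 < co a b c d p q v i) : g (om a b c i) = om a b c i := by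
  -- ⟪om i, v⟫ = ⟪om i, g v⟫ = Σ v_j ⟪om i, g om j⟫ so ⟪om i, g om i⟫ = ⟪om i, om i⟫
  have e := h.sum_co v
  have e1 : ⟪om a b c i, v⟫ = ∑ j, co a b c d p q v j * ⟪om a b c i, g (om a b c j)⟫ := by
    conv_lhs => rw [← hgv, ← e]
    rw [map_sum, inner_sum]
    simp only [map_smul, real_inner_smul_right]
  have e2 : ⟪om a b c i, v⟫ = ∑ j, co a b c d p q v j * ⟪om a b c i, om a b c j⟫ := by
    conv_lhs => rw [← e]
    rw [inner_sum]
    simp only [real_inner_smul_right]
  have e3 : ⟪om a b c i, g (om a b c i)⟫ = ⟪om a b c i, om a b c i⟫ := by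
    by_contra hne
    have hlt : ⟪om a b c i, g (om a b c i)⟫ < ⟪om a b c i, om a b c i⟫ :=
      lt_of_le_of_ne (h.dom' hg i i) hne
    have : ∑ j, co a b c d p q v j * ⟪om a b c i, g (om a b c j)⟫ <
        ∑ j, co a b c d p q v j * ⟪om a b c i, om a b c j⟫ := by
      apply Finset.sum_lt_sum
      · intro j _
        exact mul_le_mul_of_nonneg_left (h.dom' hg i j) (h.co_nonneg hv j)
      · exact ⟨i, Finset.mem_univ i, mul_lt_mul_of_pos_left hlt hi⟩
    linarith
  have e4 : ⟪g (om a b c i) - om a b c i, g (om a b c i) - om a b c i⟫ = 0 := by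
    rw [inner_sub_left, inner_sub_right, inner_sub_right, inner_map,
      real_inner_comm (om a b c i) (g (om a b c i)), e3]
    ring
  exact sub_eq_zero.1 (inner_self_eq_zero (𝕜 := ℝ).1 e4)

/-- isometries agreeing on `a, b, c` are equal -/
lemma ext_abc (h : Solid S a b c d p q) {f g : E3 ≃ₗᵢ[ℝ] E3} (ha : f a = g a) (hb : f b = g b)
    (hc : f c = g c) : f = g := by
  ext1 x
  have e := h.sum_co x
  rw [← e, map_sum, map_sum]
  apply Finset.sum_congr rfl
  intro i _
  rw [map_smul, map_smul, om_map, om_map, ha, hb, hc]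

lemma ext_om (h : Solid S a b c d p q) {f g : E3 ≃ₗᵢ[ℝ] E3}
    (hh : ∀ i, f (om a b c i) = g (om a b c i)) : f = g := by
  have h0 := hh 0
  have h1 := hh 1
  have h2 := hh 2
  simp only [om, Fin.isValue, Matrix.cons_val_zero, Matrix.cons_val_one, Matrix.cons_val,
    map_add] at h0 h1 h2
  rw [h0] at h1
  have hb := add_left_cancel h1
  rw [h0, hb] at h2
  have hc := add_left_cancel h2
  exact h.ext_abc h0 hb hc

/-- the symmetry group is finite -/
lemma finite_full (h : Solid S a b c d p q) :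
    ((fullGroup (convexHull ℝ S) : Subgroup (E3 ≃ₗᵢ[ℝ] E3)) : Set (E3 ≃ₗᵢ[ℝ] E3)).Finite := by
  have hfin : (S ×ˢ S ×ˢ S).Finite := h.fin.prod (h.fin.prod h.fin)
  apply Set.Finite.of_injOn (f := fun g : E3 ≃ₗᵢ[ℝ] E3 => (g a, g b, g c)) (t := S ×ˢ S ×ˢ S) _ _
    hfin
  · intro g hg
    exact ⟨h.mem_map hg h.ma, h.mem_map hg h.mb, h.mem_map hg h.mc⟩
  · intro f _ g _ hfg
    simp only [Prod.mk.injEq] at hfg
    exact h.ext_abc hfg.1 hfg.2.1 hfg.2.2

/-- the Weyl vector -/
def rho (a b c : E3) : E3 := ∑ i, om a b c i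

lemma rho_al (h : Solid S a b c d p q) (i : Fin 3) :
    ⟪rho a b c, al a b c d i⟫ = ka c d p q i := by
  unfold rho
  rw [sum_inner]
  simp only [h.om_al]
  rw [Finset.sum_eq_single i]
  · rw [if_pos rfl]
  · intro j _ hj
    rw [if_neg hj]
  · intro hi; exact absurd (Finset.mem_univ i) hi

lemma rho_mem (h : Solid S a b c d p q) : rho a b c ∈ ch a b c d := by
  intro i
  rw [h.rho_al]
  exact (h.ka_pos i).le

lemma co_rho (h : Solid S a b c d p q) (i : Fin 3) : co a b c d p q (rho a b c) i = 1 := by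
  unfold co
  rw [h.rho_al]
  exact div_self (h.ka_pos i).ne'

lemma om_mem (h : Solid S a b c d p q) (i : Fin 3) : om a b c i ∈ ch a b c d := by
  intro j
  rw [h.om_al]
  split_ifs
  · exact (h.ka_pos i).le
  · exact le_rfl

lemma co_om (h : Solid S a b c d p q) (i j : Fin 3) :
    co a b c d p q (om a b c i) j = if i = j then 1 else 0 := by
  unfold co
  rw [h.om_al]
  split_ifs with hij
  · subst hij
    exact div_self (h.ka_pos i).ne'
  · simp

lemma refl_al_mem (h : Solid S a b c d p q) (i : Fin 3) :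
    refl (al a b c d i) ∈ fullGroup (convexHull ℝ S) := by
  fin_cases i
  · exact h.m1
  · exact h.m2
  · exact h.m3

/-- every vector can be moved into the chamber -/
lemma exists_ch (h : Solid S a b c d p q) (n : E3) :
    ∃ g ∈ fullGroup (convexHull ℝ S), g n ∈ ch a b c d := by
  obtain ⟨g, hg, hmax⟩ := Set.exists_max_image
    ((fullGroup (convexHull ℝ S) : Subgroup (E3 ≃ₗᵢ[ℝ] E3)) : Set (E3 ≃ₗᵢ[ℝ] E3))
    (fun g : E3 ≃ₗᵢ[ℝ] E3 => ⟪rho a b c, g n⟫) h.finite_full
    ⟨1, (fullGroup (convexHull ℝ S)).one_mem⟩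
  refine ⟨g, hg, ?_⟩
  intro i
  by_contra hneg
  push Not at hneg
  have hm : refl (al a b c d i) * g ∈ fullGroup (convexHull ℝ S) :=
    (fullGroup (convexHull ℝ S)).mul_mem (h.refl_al_mem i) hg
  have := hmax _ hm
  simp only [LinearIsometryEquiv.coe_mul, Function.comp_apply] at this
  rw [refl_apply, inner_sub_right, real_inner_smul_right, h.rho_al,
    real_inner_comm (g n) (al a b c d i)] at this
  have hpos : 0 < ⟪al a b c d i, al a b c d i⟫ := by
    rw [real_inner_self_eq_norm_sq]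
    have := norm_pos_iff.2 (h.al_ne i)
    positivity
  have h1 : 2 * ⟪g n, al a b c d i⟫ / ⟪al a b c d i, al a b c d i⟫ * ka c d p q i < 0 := by
    apply mul_neg_of_neg_of_pos _ (h.ka_pos i)
    apply div_neg_of_neg_of_pos _ hpos
    linarith
  linarith

/-- the group is transitive on flags -/
lemma flag_trans (h : Solid S a b c d p q) {x y z : E3} (hf : Flag S q x y z) :
    ∃ g ∈ fullGroup (convexHull ℝ S), g x = a ∧ g y = b ∧ g z = c := by
  obtain ⟨g, hg, hch⟩ := h.exists_ch (rho x y z)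
  have hf' := h.flag_map hg hf
  set x' := g x with hx'
  set y' := g y with hy'
  set z' := g z with hz'
  have hrho : g (rho x y z) = rho x' y' z' := by
    unfold rho
    rw [map_sum]
    exact Finset.sum_congr rfl fun i _ => om_map g i
  rw [hrho] at hch
  -- norms agree
  have hxx := h.self x' hf'.1
  have hyy := h.self y' hf'.2.1
  have hzz := h.self z' hf'.2.2.1
  have hxy := hf'.2.2.2.1
  have hxz := hf'.2.2.2.2.1
  have hyz := hf'.2.2.2.2.2
  have hnorm : ⟪rho x' y' z', rho x' y' z'⟫ = ⟪rho a b c, rho a b c⟫ := by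
    simp only [rho, om, Fin.sum_univ_three, Fin.isValue, Matrix.cons_val_zero,
      Matrix.cons_val_one, Matrix.cons_val, inner_add_left, inner_add_right]
    rw [real_inner_comm x' y', real_inner_comm x' z', real_inner_comm y' z',
      hxx, hyy, hzz, hxy, hxz, hyz, h.aa, h.bb, h.cc, h.ab, h.ac, h.bc, h.ba, h.ca, h.cb]
  have e : ∀ u : E3, ⟪u, rho x' y' z'⟫ = ∑ j, ⟪u, om x' y' z' j⟫ := by
    intro u; unfold rho; rw [inner_sum]
  have e' : ∀ u : E3, ⟪u, rho a b c⟫ = ∑ j, ⟪u, om a b c j⟫ := by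
    intro u; unfold rho; rw [inner_sum]
  -- ⟪u, om x' y' z' j⟫ ≤ ⟪u, om a b c j⟫ for u in the chamber
  have hle : ∀ u ∈ ch a b c d, ∀ j, ⟪u, om x' y' z' j⟫ ≤ ⟪u, om a b c j⟫ := by
    intro u hu j
    have e := h.sum_co u
    have e1 : ∀ w : E3, ⟪u, w⟫ = ∑ i, co a b c d p q u i * ⟪om a b c i, w⟫ := by
      intro w
      conv_lhs => rw [← e]
      rw [sum_inner]
      simp only [real_inner_smul_left]
    rw [e1, e1]
    exact Finset.sum_le_sum fun i _ =>
      mul_le_mul_of_nonneg_left (h.dom hf' i j) (h.co_nonneg hu i)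
  have h1 : ⟪rho x' y' z', rho x' y' z'⟫ ≤ ⟪rho x' y' z', rho a b c⟫ := by
    rw [e, e']
    exact Finset.sum_le_sum fun j _ => hle _ hch j
  have h2 : rho x' y' z' = rho a b c := by
    have h3 : ⟪rho x' y' z' - rho a b c, rho x' y' z' - rho a b c⟫ ≤ 0 := by
      rw [inner_sub_left, inner_sub_right, inner_sub_right,
        real_inner_comm (rho x' y' z') (rho a b c)]
      linarith
    exact sub_eq_zero.1 (inner_self_eq_zero (𝕜 := ℝ).1 (le_antisymm h3 real_inner_self_nonneg))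
  have h3 : ∀ i j, ⟪om a b c i, om x' y' z' j⟫ = ⟪om a b c i, om a b c j⟫ := by
    intro i
    have h4 : ∑ j, ⟪om a b c i, om x' y' z' j⟫ = ∑ j, ⟪om a b c i, om a b c j⟫ := by
      rw [← e, ← e', h2]
    intro j
    exact (Finset.sum_eq_sum_iff_of_le fun j _ => h.dom hf' i j).1 h4 j (Finset.mem_univ j)
  have h4 : ∀ j, om x' y' z' j = om a b c j := by
    intro j
    apply sub_eq_zero.1
    apply h.eq_zero_of_inner_om
    intro i
    rw [inner_sub_right, h3, sub_self]
  have k0 := h4 0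
  have k1 := h4 1
  have k2 := h4 2
  simp only [om, Fin.isValue, Matrix.cons_val_zero, Matrix.cons_val_one, Matrix.cons_val]
    at k0 k1 k2
  rw [k0] at k1
  have hb := add_left_cancel k1
  rw [k0, hb] at k2
  have hc := add_left_cancel k2
  exact ⟨g, hg, k0, hb, hc⟩

end Solid

end Snub
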