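import Pool.Agent.Lib.Helper7.Snub3

set_option autoImplicit false

namespace Snub

open scoped RealInnerProductSpace

lemma inv_apply_of_eq {g : E3 ≃ₗᵢ[ℝ] E3} {x y : E3} (h : g x = y) : g⁻¹ y = x := by
  rw [← h]; simp [LinearIsometryEquiv.inv_def]

lemma norm_eq_of_inner {x y : E3} (h : ⟪x, x⟫ = ⟪y, y⟫) : ‖x‖ = ‖y‖ := by
  rw [norm_eq_sqrt_real_inner, norm_eq_sqrt_real_inner, h]

/-- orbit-stabiliser for a group of isometries -/
lemma ncard_orbit_mul (H : Subgroup (E3 ≃ₗᵢ[ℝ] E3)) (x : E3) :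
    ((fun g : E3 ≃ₗᵢ[ℝ] E3 => g x) '' (H : Set (E3 ≃ₗᵢ[ℝ] E3))).ncard *
      ({g | g ∈ H ∧ g x = x} : Set (E3 ≃ₗᵢ[ℝ] E3)).ncard =
      (H : Set (E3 ≃ₗᵢ[ℝ] E3)).ncard := by
  let act : MulAction H E3 :=
    { smul := fun g y => (g : E3 ≃ₗᵢ[ℝ] E3) y
      one_smul := fun _ => rfl
      mul_smul := fun _ _ _ => rfl }
  have h1 := Subgroup.card_mul_index (MulAction.stabilizer H x)
  rw [MulAction.index_stabilizer] at h1
  have h2 : MulAction.orbit H x = ((fun g : E3 ≃ₗᵢ[ℝ] E3 => g x) '' (H : Set (E3 ≃ₗᵢ[ℝ] E3))) := by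
    ext y
    constructor
    · rintro ⟨g, rfl⟩
      exact ⟨g.1, g.2, rfl⟩
    · rintro ⟨g, hg, rfl⟩
      exact ⟨⟨g, hg⟩, rfl⟩
  have h3 : Nat.card (MulAction.stabilizer H x) =
      ({g | g ∈ H ∧ g x = x} : Set (E3 ≃ₗᵢ[ℝ] E3)).ncard := by
    rw [← Nat.card_coe_set_eq]
    refine Nat.card_congr ⟨fun g => ⟨g.1.1, g.1.2, g.2⟩, fun g => ⟨⟨g.1, g.2.1⟩, g.2.2⟩, ?_, ?_⟩
    · intro g; rfl
    · intro g; rfl
  have h4 : Nat.card H = (H : Set (E3 ≃ₗᵢ[ℝ] E3)).ncard := by
    rw [← Nat.card_coe_set_eq]; rfl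
  rw [← h2, ← h3, ← h4, mul_comm]
  exact h1

/-- a rotation fixing two linearly independent vectors is the identity -/
lemma eq_one_of_fix_two {g : E3 ≃ₗᵢ[ℝ] E3} (hg : dt g = 1) {x y : E3}
    (hxy : LinearIndependent ℝ ![x, y]) (hx : g x = x) (hy : g y = y) : g = 1 := by
  by_contra hne
  have hex : ∃ v, g v ≠ v := by
    by_contra hall
    push Not at hall
    exact hne (LinearIsometryEquiv.ext hall)
  obtain ⟨v, hv⟩ := hex
  have hspan : v ∉ Submodule.span ℝ (Set.range ![x, y]) := by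
    intro hmem
    apply hv
    have : ∀ u ∈ Submodule.span ℝ (Set.range ![x, y]), g u = u := by
      intro u hu
      induction hu using Submodule.span_induction with
      | mem u hu =>
        obtain ⟨i, rfl⟩ := hu
        fin_cases i
        · exact hx
        · exact hy
      | zero => simp
      | add y z _ _ h1 h2 => rw [map_add, h1, h2]
      | smul r y _ h1 => rw [map_smul, h1]
    exact this v hmem
  have hli : LinearIndependent ℝ ![v, x, y] :=
    linearIndependent_finCons.2 ⟨hxy, hspan⟩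
  have htop : Submodule.span ℝ (Set.range ![v, x, y]) = ⊤ :=
    hli.span_eq_top_of_card_eq_finrank' (by simp)
  -- the reflection exchanging `g v` and `v`
  have hsub : g v - v ≠ 0 := sub_ne_zero.2 hv
  have hnorm : ‖g v‖ = ‖v‖ := g.norm_map v
  have h1 : refl (g v - v) (g v) = v := Submodule.reflection_sub hnorm
  have horth : ∀ u, g u = u → refl (g v - v) u = u := by
    intro u hu
    rw [refl_apply]
    have : ⟪g v - v, u⟫ = 0 := by
      rw [inner_sub_left]
      conv_lhs => rw [← hu]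
      rw [LinearIsometryEquiv.inner_map_map, hu, sub_self]
    rw [this]; simp
  have h2 : refl (g v - v) * g = 1 := by
    apply LinearIsometryEquiv.ext
    intro u
    have hu : u ∈ Submodule.span ℝ (Set.range ![v, x, y]) := by rw [htop]; trivial
    induction hu using Submodule.span_induction with
    | mem u hu =>
      obtain ⟨i, rfl⟩ := hu
      fin_cases i
      · exact h1
      · change refl (g v - v) (g x) = x
        rw [hx]; exact horth x hx
      · change refl (g v - v) (g y) = y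
        rw [hy]; exact horth y hy
    | zero => simp
    | add y z _ _ h1 h2 => rw [map_add, h1, h2, map_add]
    | smul r y _ h1 => rw [map_smul, h1, map_smul]
  have h3 := congrArg dt h2
  rw [dt_mul, dt_refl _ hsub, hg, dt_one] at h3
  norm_num at h3

lemma mem_rot_iff (K : Set E3) (g : E3 ≃ₗᵢ[ℝ] E3) :
    g ∈ rotationGroup K ↔ g ∈ fullGroup K ∧ dt g = 1 := Iff.rfl

namespace Solid

variable {S : Set E3} {a b c d : E3} {p q : ℝ}

lemma finite_rot (h : Solid S a b c d p q) :
    ((rotationGroup (convexHull ℝ S) : Subgroup (E3 ≃ₗᵢ[ℝ] E3)) : Set (E3 ≃ₗᵢ[ℝ] E3)).Finite :=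
  h.finite_full.subset fun _ hg => hg.1

lemma ab_ne (h : Solid S a b c d p q) : a - b ≠ 0 := h.al_ne 0
lemma bc_ne (h : Solid S a b c d p q) : b - c ≠ 0 := h.al_ne 1
lemma cd_ne (h : Solid S a b c d p q) : c - d ≠ 0 := h.al_ne 2

/-- the full group is twice as large as the rotation group -/
lemma card_full (h : Solid S a b c d p q) :
    ((fullGroup (convexHull ℝ S) : Subgroup (E3 ≃ₗᵢ[ℝ] E3)) : Set (E3 ≃ₗᵢ[ℝ] E3)).ncard =
    2 * ((rotationGroup (convexHull ℝ S) : Subgroup (E3 ≃ₗᵢ[ℝ] E3)) :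
      Set (E3 ≃ₗᵢ[ℝ] E3)).ncard := by
  set W := fullGroup (convexHull ℝ S) with hW
  set G := rotationGroup (convexHull ℝ S) with hG
  have hunion : (W : Set (E3 ≃ₗᵢ[ℝ] E3)) =
      (G : Set (E3 ≃ₗᵢ[ℝ] E3)) ∪ (fun g => refl (a - b) * g) '' (G : Set (E3 ≃ₗᵢ[ℝ] E3)) := by
    ext g
    constructor
    · intro hg
      rcases dt_sq g with h1 | h1
      · left; exact ⟨hg, h1⟩
      · right
        refine ⟨refl (a - b) * g, ⟨W.mul_mem h.m1 hg, ?_⟩, ?_⟩
        · change dt _ = 1
          rw [dt_mul, dt_refl _ h.ab_ne, h1]; norm_num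
        · apply LinearIsometryEquiv.ext
          intro x
          change refl (a - b) (refl (a - b) (g x)) = g x
          exact refl_refl _ _
    · rintro (hg | ⟨g', hg', rfl⟩)
      · exact hg.1
      · exact W.mul_mem h.m1 hg'.1
  have hdisj : Disjoint (G : Set (E3 ≃ₗᵢ[ℝ] E3))
      ((fun g => refl (a - b) * g) '' (G : Set (E3 ≃ₗᵢ[ℝ] E3))) := by
    rw [Set.disjoint_left]
    rintro g hg ⟨g', hg', rfl⟩
    have h1 : dt (refl (a - b) * g') = 1 := hg.2
    have h2 : dt g' = 1 := hg'.2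
    rw [dt_mul, dt_refl _ h.ab_ne, h2] at h1
    norm_num at h1
  rw [hunion, Set.ncard_union_eq hdisj h.finite_rot (h.finite_rot.image _),
    Set.ncard_image_of_injective]
  · ring
  · intro g g' hgg
    exact mul_left_cancel hgg

/-- the set of flags has as many elements as the full group -/
lemma card_flags (h : Solid S a b c d p q) :
    ({t : E3 × E3 × E3 | Flag S q t.1 t.2.1 t.2.2} : Set (E3 × E3 × E3)).ncard =
    ((fullGroup (convexHull ℝ S) : Subgroup (E3 ≃ₗᵢ[ℝ] E3)) : Set (E3 ≃ₗᵢ[ℝ] E3)).ncard := by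
  symm
  apply Set.ncard_congr (fun g _ => (g a, g b, g c))
  · intro g hg
    exact h.flag_map hg h.flag_abc
  · intro f g _ _ hfg
    simp only [Prod.mk.injEq] at hfg
    exact h.ext_abc hfg.1 hfg.2.1 hfg.2.2
  · rintro ⟨x, y, z⟩ hf
    obtain ⟨g, hg, h1, h2, h3⟩ := h.flag_trans hf
    refine ⟨g⁻¹, (fullGroup (convexHull ℝ S)).inv_mem hg, ?_⟩
    simp only [inv_apply_of_eq h1, inv_apply_of_eq h2, inv_apply_of_eq h3]

/-- the orbit of `om k` under the full group -/
def Orb (S : Set E3) (a b c : E3) (k : Fin 3) : Set E3 :=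
  (fun g : E3 ≃ₗᵢ[ℝ] E3 => g (om a b c k)) ''
    ((fullGroup (convexHull ℝ S) : Subgroup (E3 ≃ₗᵢ[ℝ] E3)) : Set (E3 ≃ₗᵢ[ℝ] E3))

lemma orb_finite (h : Solid S a b c d p q) (k : Fin 3) : (Orb S a b c k).Finite :=
  h.finite_full.image _

/-- rotation swapping `a, b` and `c, d` -/
noncomputable def ee (a b c d : E3) : E3 ≃ₗᵢ[ℝ] E3 := refl (a - b) * refl (c - d)

/-- rotation `a → b → c → a` -/
noncomputable def rr (a b c : E3) : E3 ≃ₗᵢ[ℝ] E3 := refl (a - b) * refl (b - c)

lemma refl_ab_a (h : Solid S a b c d p q) : refl (a - b) a = b := by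
  apply Submodule.reflection_sub
  exact norm_eq_of_inner (h.aa.trans h.bb.symm)

lemma refl_ab_b (h : Solid S a b c d p q) : refl (a - b) b = a := by
  have h1 := refl_refl (a - b) a
  rw [h.refl_ab_a] at h1
  exact h1

lemma norm_bc (h : Solid S a b c d p q) : ‖b‖ = ‖c‖ := by
  exact norm_eq_of_inner (h.bb.trans h.cc.symm)

lemma norm_cd (h : Solid S a b c d p q) : ‖c‖ = ‖d‖ := by
  exact norm_eq_of_inner (h.cc.trans h.dd.symm)

lemma refl_bc_b (h : Solid S a b c d p q) : refl (b - c) b = c :=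
  Submodule.reflection_sub h.norm_bc

lemma refl_bc_c (h : Solid S a b c d p q) : refl (b - c) c = b := by
  have h1 := refl_refl (b - c) b
  rw [h.refl_bc_b] at h1
  exact h1

lemma refl_cd_c (h : Solid S a b c d p q) : refl (c - d) c = d :=
  Submodule.reflection_sub h.norm_cd

lemma refl_fix {v x : E3} (hv : ⟪v, x⟫ = 0) : refl v x = x := by
  rw [refl_apply, hv]; simp

lemma refl_ab_c (h : Solid S a b c d p q) : refl (a - b) c = c := by
  apply refl_fix; rw [inner_sub_left, h.ac, h.bc, sub_self]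

lemma refl_ab_d (h : Solid S a b c d p q) : refl (a - b) d = d := by
  apply refl_fix; rw [inner_sub_left, h.ad, h.bd, sub_self]

lemma refl_bc_a (h : Solid S a b c d p q) : refl (b - c) a = a := by
  apply refl_fix; rw [inner_sub_left, h.ba, h.ca, sub_self]

lemma refl_cd_a (h : Solid S a b c d p q) : refl (c - d) a = a := by
  apply refl_fix; rw [inner_sub_left, h.ca, h.da, sub_self]

lemma refl_cd_b (h : Solid S a b c d p q) : refl (c - d) b = b := by
  apply refl_fix; rw [inner_sub_left, h.cb, h.db, sub_self]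

lemma ee_a (h : Solid S a b c d p q) : ee a b c d a = b := by
  change refl (a - b) (refl (c - d) a) = b
  rw [h.refl_cd_a, h.refl_ab_a]
lemma ee_b (h : Solid S a b c d p q) : ee a b c d b = a := by
  change refl (a - b) (refl (c - d) b) = a
  rw [h.refl_cd_b, h.refl_ab_b]
lemma ee_c (h : Solid S a b c d p q) : ee a b c d c = d := by
  change refl (a - b) (refl (c - d) c) = d
  rw [h.refl_cd_c, h.refl_ab_d]
lemma ee_mem (h : Solid S a b c d p q) : ee a b c d ∈ rotationGroup (convexHull ℝ S) := by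
  refine ⟨(fullGroup (convexHull ℝ S)).mul_mem h.m1 h.m3, ?_⟩
  change dt (refl (a - b) * refl (c - d)) = 1
  rw [dt_mul, dt_refl _ h.ab_ne, dt_refl _ h.cd_ne]; norm_num

lemma rr_a (h : Solid S a b c d p q) : rr a b c a = b := by
  change refl (a - b) (refl (b - c) a) = b
  rw [h.refl_bc_a, h.refl_ab_a]
lemma rr_b (h : Solid S a b c d p q) : rr a b c b = c := by
  change refl (a - b) (refl (b - c) b) = c
  rw [h.refl_bc_b, h.refl_ab_c]
lemma rr_c (h : Solid S a b c d p q) : rr a b c c = a := by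
  change refl (a - b) (refl (b - c) c) = a
  rw [h.refl_bc_c, h.refl_ab_b]
lemma rr_mem (h : Solid S a b c d p q) : rr a b c ∈ rotationGroup (convexHull ℝ S) := by
  refine ⟨(fullGroup (convexHull ℝ S)).mul_mem h.m1 h.m2, ?_⟩
  change dt (refl (a - b) * refl (b - c)) = 1
  rw [dt_mul, dt_refl _ h.ab_ne, dt_refl _ h.bc_ne]; norm_num

lemma indep_ab (h : Solid S a b c d p q) : LinearIndependent ℝ ![a, b] := by
  rw [LinearIndependent.pair_iff]
  intro s t hst
  have h1 : ⟪a, s • a + t • b⟫ = 0 := by rw [hst, inner_zero_right]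
  have h2 : ⟪b, s • a + t • b⟫ = 0 := by rw [hst, inner_zero_right]
  rw [inner_add_right, real_inner_smul_right, real_inner_smul_right, h.aa, h.ab] at h1
  rw [inner_add_right, real_inner_smul_right, real_inner_smul_right, h.bb, h.ba] at h2
  have h3 := h.qp
  have h4 := h.p_add_q
  have e1 : (s - t) * (p - q) = 0 := by linarith
  have e2 : (s + t) * (p + q) = 0 := by linarith
  have f1 : s - t = 0 := by
    rcases mul_eq_zero.1 e1 with h5 | h5
    · exact h5
    · linarith
  have f2 : s + t = 0 := by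
    rcases mul_eq_zero.1 e2 with h5 | h5
    · exact h5
    · linarith
  constructor <;> linarith

/-- rotations fixing `a + b` -/
lemma stab_om1 (h : Solid S a b c d p q) {g : E3 ≃ₗᵢ[ℝ] E3}
    (hg : g ∈ rotationGroup (convexHull ℝ S)) (hfix : g (a + b) = a + b) :
    g = 1 ∨ g = ee a b c d := by
  have hga := h.mem_map hg.1 h.ma
  have hgb := h.mem_map hg.1 h.mb
  have key : ∀ x ∈ S, ⟪x, a + b⟫ = p + q → x = a ∨ x = b := by
    intro x hx hxe
    by_contra hne
    push Not at hne
    rw [inner_add_right] at hxe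
    have h1 := h.le_q x hx a h.ma hne.1
    have h2 := h.le_q x hx b h.mb hne.2
    have := h.qp
    linarith
  have e1 : ⟪g a, a + b⟫ = p + q := by
    conv_lhs => rw [← hfix]
    rw [inner_map, inner_add_right, h.aa, h.ab]
  have e2 : ⟪g b, a + b⟫ = p + q := by
    conv_lhs => rw [← hfix]
    rw [inner_map, inner_add_right, h.bb, h.ba]; ring
  have nab := h.ne_of_inner h.ma h.ab
  have ngab : g a ≠ g b := fun h0 => nab (g.injective h0)
  rcases key _ hga e1 with h1 | h1
  · rcases key _ hgb e2 with h2 | h2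
    · exact absurd (h1.trans h2.symm) ngab
    · left
      exact eq_one_of_fix_two hg.2 h.indep_ab h1 h2
  · rcases key _ hgb e2 with h2 | h2
    · right
      have h3 : (ee a b c d)⁻¹ * g = 1 := by
        apply eq_one_of_fix_two _ h.indep_ab
        · change (ee a b c d)⁻¹ (g a) = a
          rw [h1]
          exact inv_apply_of_eq h.ee_a
        · change (ee a b c d)⁻¹ (g b) = b
          rw [h2]
          exact inv_apply_of_eq h.ee_b
        · exact ((rotationGroup (convexHull ℝ S)).mul_mem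
            ((rotationGroup (convexHull ℝ S)).inv_mem h.ee_mem) hg).2
      exact (inv_mul_eq_one.1 h3).symm
    · exact absurd (h1.trans h2.symm) ngab

/-- rotations fixing `a + b + c` -/
lemma stab_om2 (h : Solid S a b c d p q) {g : E3 ≃ₗᵢ[ℝ] E3}
    (hg : g ∈ rotationGroup (convexHull ℝ S)) (hfix : g (a + b + c) = a + b + c) :
    g = 1 ∨ g = rr a b c ∨ g = rr a b c * rr a b c := by
  have hga := h.mem_map hg.1 h.ma
  have nab := h.ne_of_inner h.ma h.ab
  have nac := h.ne_of_inner h.ma h.ac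
  have nbc := h.ne_of_inner h.mb h.bc
  have key : ∀ x ∈ S, ⟪x, a + b + c⟫ = p + 2 * q → x = a ∨ x = b ∨ x = c := by
    intro x hx hxe
    by_contra hne
    push Not at hne
    rw [inner_add_right, inner_add_right] at hxe
    have h1 := h.le_q x hx a h.ma hne.1
    have h2 := h.le_q x hx b h.mb hne.2.1
    have h3 := h.le_q x hx c h.mc hne.2.2
    have := h.qp
    linarith
  have e1 : ⟪g a, a + b + c⟫ = p + 2 * q := by
    conv_lhs => rw [← hfix]
    rw [inner_map, inner_add_right, inner_add_right, h.aa, h.ab, h.ac]; ring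
  -- a rotation fixing `a` and `a + b + c` is trivial
  have hli : LinearIndependent ℝ ![a, a + b + c] := by
    rw [LinearIndependent.pair_iff]
    intro s t hst
    have h1 : ⟪s • a + t • (a + b + c), al a b c d 2⟫ = 0 := by rw [hst, inner_zero_left]
    have h2 : ⟪s • a + t • (a + b + c), al a b c d 0⟫ = 0 := by rw [hst, inner_zero_left]
    rw [inner_add_left, real_inner_smul_left, real_inner_smul_left] at h1 h2
    have o1 := h.om_al 0 2
    have o2 := h.om_al 2 2
    have o3 := h.om_al 0 0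
    have o4 := h.om_al 2 0
    have k0 := h.ka_pos 0
    have k2 := h.ka_pos 2
    simp only [om, Fin.isValue, Matrix.cons_val_zero, Matrix.cons_val, if_true,
      Fin.reduceEq, if_false] at o1 o2 o3 o4
    rw [o1, o2, mul_zero, zero_add] at h1
    rw [o3, o4, mul_zero, add_zero] at h2
    constructor
    · rcases mul_eq_zero.1 h2 with h5 | h5
      · exact h5
      · linarith
    · rcases mul_eq_zero.1 h1 with h5 | h5
      · exact h5
      · linarith
  have hr3 : rr a b c (a + b + c) = a + b + c := by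
    rw [map_add, map_add, h.rr_a, h.rr_b, h.rr_c]; abel
  have triv : ∀ g' ∈ rotationGroup (convexHull ℝ S), g' (a + b + c) = a + b + c → g' a = a →
      g' = 1 := fun g' hg' h1 h2 => eq_one_of_fix_two hg'.2 hli h2 h1
  rcases key _ hga e1 with h1 | h1 | h1
  · left
    exact triv g hg hfix h1
  · right; left
    have h3 : (rr a b c)⁻¹ * g = 1 := by
      apply triv
      · exact (rotationGroup (convexHull ℝ S)).mul_mem
            ((rotationGroup (convexHull ℝ S)).inv_mem h.rr_mem) hg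
      · change (rr a b c)⁻¹ (g (a + b + c)) = _
        rw [hfix]
        exact inv_apply_of_eq hr3
      · change (rr a b c)⁻¹ (g a) = a
        rw [h1]
        exact inv_apply_of_eq h.rr_a
    exact (inv_mul_eq_one.1 h3).symm
  · right; right
    have hm : rr a b c * rr a b c ∈ rotationGroup (convexHull ℝ S) :=
      (rotationGroup (convexHull ℝ S)).mul_mem h.rr_mem h.rr_mem
    have h3 : (rr a b c * rr a b c)⁻¹ * g = 1 := by
      apply triv
      · exact (rotationGroup (convexHull ℝ S)).mul_mem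
            ((rotationGroup (convexHull ℝ S)).inv_mem hm) hg
      · change (rr a b c * rr a b c)⁻¹ (g (a + b + c)) = _
        rw [hfix]
        have : (rr a b c * rr a b c) (a + b + c) = a + b + c := by
          change rr a b c (rr a b c (a + b + c)) = _
          rw [hr3, hr3]
        exact inv_apply_of_eq this
      · change (rr a b c * rr a b c)⁻¹ (g a) = a
        rw [h1]
        have : (rr a b c * rr a b c) a = c := by
          change rr a b c (rr a b c a) = _
          rw [h.rr_a, h.rr_b]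
        exact inv_apply_of_eq this
    exact (inv_mul_eq_one.1 h3).symm

/-- orbits under the full group and under the rotation group agree -/
lemma orb_rot (h : Solid S a b c d p q) (k : Fin 3) :
    (fun g : E3 ≃ₗᵢ[ℝ] E3 => g (om a b c k)) ''
      ((rotationGroup (convexHull ℝ S) : Subgroup (E3 ≃ₗᵢ[ℝ] E3)) : Set (E3 ≃ₗᵢ[ℝ] E3)) =
    Orb S a b c k := by
  -- there is a reflection fixing `om k`
  have hex : ∃ s ∈ fullGroup (convexHull ℝ S), dt s = -1 ∧ s (om a b c k) = om a b c k := by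
    fin_cases k
    · exact ⟨_, h.m3, dt_refl _ h.cd_ne, h.refl_cd_a⟩
    · refine ⟨_, h.m3, dt_refl _ h.cd_ne, ?_⟩
      change refl (c - d) (a + b) = a + b
      rw [map_add, h.refl_cd_a, h.refl_cd_b]
    · refine ⟨_, h.m1, dt_refl _ h.ab_ne, ?_⟩
      change refl (a - b) (a + b + c) = a + b + c
      rw [map_add, map_add, h.refl_ab_a, h.refl_ab_b, h.refl_ab_c]; abel
  obtain ⟨s, hs, hs1, hs2⟩ := hex
  ext x
  constructor
  · rintro ⟨g, hg, rfl⟩
    exact ⟨g, hg.1, rfl⟩
  · rintro ⟨g, hg, rfl⟩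
    rcases dt_sq g with h1 | h1
    · exact ⟨g, ⟨hg, h1⟩, rfl⟩
    · refine ⟨g * s, ⟨(fullGroup (convexHull ℝ S)).mul_mem hg hs, ?_⟩, ?_⟩
      · change dt (g * s) = 1
        rw [dt_mul, h1, hs1]; norm_num
      · change g (s (om a b c k)) = g (om a b c k)
        rw [hs2]

lemma card_orb1 (h : Solid S a b c d p q) :
    (Orb S a b c 1).ncard * 2 = ((rotationGroup (convexHull ℝ S) : Subgroup (E3 ≃ₗᵢ[ℝ] E3)) :
      Set (E3 ≃ₗᵢ[ℝ] E3)).ncard := by
  have h1 := ncard_orbit_mul (rotationGroup (convexHull ℝ S)) (om a b c 1)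
  rw [h.orb_rot] at h1
  rw [← h1]
  congr 1
  have h2 : ({g | g ∈ rotationGroup (convexHull ℝ S) ∧ g (om a b c 1) = om a b c 1} :
      Set (E3 ≃ₗᵢ[ℝ] E3)) = {1, ee a b c d} := by
    ext g
    constructor
    · rintro ⟨hg, hfix⟩
      exact h.stab_om1 hg hfix
    · rintro (rfl | rfl)
      · exact ⟨(rotationGroup (convexHull ℝ S)).one_mem, rfl⟩
      · refine ⟨h.ee_mem, ?_⟩
        change ee a b c d (a + b) = a + b
        rw [map_add, h.ee_a, h.ee_b, add_comm]
  rw [h2, Set.ncard_pair]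
  intro h3
  have h4 := h.ee_a
  rw [← h3] at h4
  exact h.ne_of_inner h.ma h.ab h4

lemma card_orb2 (h : Solid S a b c d p q) :
    (Orb S a b c 2).ncard * 3 = ((rotationGroup (convexHull ℝ S) : Subgroup (E3 ≃ₗᵢ[ℝ] E3)) :
      Set (E3 ≃ₗᵢ[ℝ] E3)).ncard := by
  have h1 := ncard_orbit_mul (rotationGroup (convexHull ℝ S)) (om a b c 2)
  rw [h.orb_rot] at h1
  rw [← h1]
  congr 1
  have hr3 : rr a b c (a + b + c) = a + b + c := by
    rw [map_add, map_add, h.rr_a, h.rr_b, h.rr_c]; abel
  have h2 : ({g | g ∈ rotationGroup (convexHull ℝ S) ∧ g (om a b c 2) = om a b c 2} :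
      Set (E3 ≃ₗᵢ[ℝ] E3)) = {1, rr a b c, rr a b c * rr a b c} := by
    ext g
    constructor
    · rintro ⟨hg, hfix⟩
      exact h.stab_om2 hg hfix
    · rintro (rfl | rfl | rfl)
      · exact ⟨(rotationGroup (convexHull ℝ S)).one_mem, rfl⟩
      · exact ⟨h.rr_mem, hr3⟩
      · refine ⟨(rotationGroup (convexHull ℝ S)).mul_mem h.rr_mem h.rr_mem, ?_⟩
        change rr a b c (rr a b c (a + b + c)) = a + b + c
        rw [hr3, hr3]
  have nab := h.ne_of_inner h.ma h.ab
  have nac := h.ne_of_inner h.ma h.ac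
  have nbc := h.ne_of_inner h.mb h.bc
  have n1 : (1 : E3 ≃ₗᵢ[ℝ] E3) ≠ rr a b c := by
    intro h3
    have h4 := h.rr_a
    rw [← h3] at h4
    exact nab h4
  have n2 : (1 : E3 ≃ₗᵢ[ℝ] E3) ≠ rr a b c * rr a b c := by
    intro h3
    have h4 : (rr a b c * rr a b c) a = c := by
      change rr a b c (rr a b c a) = _
      rw [h.rr_a, h.rr_b]
    rw [← h3] at h4
    exact nac h4
  have n3 : rr a b c ≠ rr a b c * rr a b c := by
    intro h3
    have h4 : (rr a b c * rr a b c) a = c := by
      change rr a b c (rr a b c a) = _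
      rw [h.rr_a, h.rr_b]
    rw [← h3, h.rr_a] at h4
    exact nbc h4
  rw [h2, Set.ncard_insert_of_notMem, Set.ncard_pair n3]
  simp only [Set.mem_insert_iff, Set.mem_singleton_iff, not_or]
  exact ⟨n1, n2⟩

lemma orb0_eq (h : Solid S a b c d p q) (hS : ∀ x ∈ S, ∃ y z, Flag S q x y z) :
    Orb S a b c 0 = S := by
  ext x
  constructor
  · rintro ⟨g, hg, rfl⟩
    exact h.mem_map hg h.ma
  · intro hx
    obtain ⟨y, z, hf⟩ := hS x hx
    obtain ⟨g, hg, h1, -, -⟩ := h.flag_trans hf
    refine ⟨g⁻¹, (fullGroup (convexHull ℝ S)).inv_mem hg, ?_⟩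
    exact inv_apply_of_eq h1

end Solid

end Snub
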