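import Pool.Agent.Lib.Helper7.Snub4

set_option autoImplicit false

namespace Snub

open scoped RealInnerProductSpace

/-- the face of `P` in direction `u` -/
def face (P : Set E3) (u : E3) : Set E3 := {x | x ∈ P ∧ ∀ y ∈ P, ⟪u, y⟫ ≤ ⟪u, x⟫}

lemma face_exposed (P : Set E3) (u : E3) : IsExposed ℝ P (face P u) := by
  intro _
  exact ⟨innerSL ℝ u, rfl⟩

lemma face_map {P : Set E3} {g : E3 ≃ₗᵢ[ℝ] E3} (hg : g '' P = P) (u : E3) :
    g '' (face P u) = face P (g u) := by
  ext x
  constructor
  · rintro ⟨y, ⟨hy, hmax⟩, rfl⟩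
    refine ⟨hg ▸ Set.mem_image_of_mem g hy, ?_⟩
    intro z hz
    rw [← hg] at hz
    obtain ⟨z', hz', rfl⟩ := hz
    rw [LinearIsometryEquiv.inner_map_map, LinearIsometryEquiv.inner_map_map]
    exact hmax z' hz'
  · rintro ⟨hx, hmax⟩
    rw [← hg] at hx
    obtain ⟨y, hy, rfl⟩ := hx
    refine ⟨y, ⟨hy, ?_⟩, rfl⟩
    intro z hz
    have := hmax (g z) (hg ▸ Set.mem_image_of_mem g hz)
    rwa [LinearIsometryEquiv.inner_map_map, LinearIsometryEquiv.inner_map_map] at this

lemma finrank_vectorSpan_map (g : E3 ≃ₗᵢ[ℝ] E3) (F : Set E3) :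
    Module.finrank ℝ (vectorSpan ℝ (g '' F)) = Module.finrank ℝ (vectorSpan ℝ F) := by
  have h1 : vectorSpan ℝ (g '' F) =
      (vectorSpan ℝ F).map (g.toLinearEquiv : E3 →ₗ[ℝ] E3) := by
    have := AffineMap.map_vectorSpan
      ((g.toLinearEquiv : E3 →ₗ[ℝ] E3).toAffineMap) (s := F)
    simpa using this.symm
  rw [h1]
  exact LinearEquiv.finrank_map_eq g.toLinearEquiv _

lemma facet_map {P : Set E3} {g : E3 ≃ₗᵢ[ℝ] E3} (hg : g '' P = P) {u : E3}
    (hF : face P u ∈ facets P) : face P (g u) ∈ facets P := by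
  refine ⟨face_exposed _ _, ?_⟩
  rw [← face_map hg, finrank_vectorSpan_map]
  exact hF.2

/-- a facet is the face of a nonzero direction -/
lemma facet_eq_face {P : Set E3} (hP : (interior P).Nonempty) {F : Set E3} (hF : F ∈ facets P) :
    F.Nonempty ∧ ∃ u : E3, u ≠ 0 ∧ F = face P u := by
  obtain ⟨hexp, hdim⟩ := hF
  have hne : F.Nonempty := by
    rw [Set.nonempty_iff_ne_empty]
    rintro rfl
    rw [vectorSpan_empty] at hdim
    simp at hdim
  refine ⟨hne, ?_⟩
  obtain ⟨l, hl⟩ := hexp hne
  obtain ⟨u, hu⟩ : ∃ u : E3, ∀ x, l x = ⟪u, x⟫ :=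
    ⟨(InnerProductSpace.toDual ℝ E3).symm l, fun x => by
      rw [InnerProductSpace.toDual_symm_apply]⟩
  have hFu : F = face P u := by
    rw [hl]
    ext x
    simp only [face, hu, Set.mem_ofPred_eq]
  refine ⟨u, ?_, hFu⟩
  rintro rfl
  have h1 : F = P := by
    rw [hFu]
    ext x
    simp [face]
  rw [h1] at hdim
  have h2 : vectorSpan ℝ P = ⊤ := by
    have h3 : affineSpan ℝ P = ⊤ := by
      apply top_unique
      have := affineSpan_mono ℝ (interior_subset (s := P))
      rwa [IsOpen.affineSpan_eq_top isOpen_interior hP] at this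
    rw [← direction_affineSpan, h3, AffineSubspace.direction_top]
  rw [h2] at hdim
  simp at hdim

lemma isCompact_polytope {P : Set E3} (hP : IsPolytope3 P) : IsCompact P := by
  obtain ⟨⟨A, hA, rfl⟩, -⟩ := hP
  exact hA.isCompact_convexHull ℝ

lemma convex_polytope {P : Set E3} (hP : IsPolytope3 P) : Convex ℝ P := by
  obtain ⟨⟨A, hA, rfl⟩, -⟩ := hP
  exact convex_convexHull ℝ A

lemma finite_ext {P : Set E3} (hP : IsPolytope3 P) : (P.extremePoints ℝ).Finite := by
  obtain ⟨⟨A, hA, rfl⟩, -⟩ := hP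
  exact hA.subset extremePoints_convexHull_subset

lemma hull_ext {P : Set E3} (hP : IsPolytope3 P) : convexHull ℝ (P.extremePoints ℝ) = P := by
  have h1 := closure_convexHull_extremePoints (isCompact_polytope hP) (convex_polytope hP)
  rwa [((finite_ext hP).isCompact_convexHull ℝ).isClosed.closure_eq] at h1

/-- a polytope has finitely many facets -/
lemma finite_facets {P : Set E3} (hP : IsPolytope3 P) : (facets P).Finite := by
  obtain ⟨⟨A, hA, rfl⟩, hint⟩ := id hP
  have hinj : Set.InjOn (fun F : Set E3 => F ∩ A) (facets (convexHull ℝ A)) := by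
    have key : ∀ F ∈ facets (convexHull ℝ A), F = convexHull ℝ (F ∩ A) := by
      intro F hF
      have hcomp : IsCompact F := hF.1.isCompact (isCompact_polytope hP)
      have hconv : Convex ℝ F := hF.1.convex (convex_polytope hP)
      have hext : F.extremePoints ℝ ⊆ F ∩ A := by
        intro x hx
        refine ⟨hx.1, ?_⟩
        exact extremePoints_convexHull_subset
          (hF.1.isExtreme.extremePoints_subset_extremePoints hx)
      apply Set.Subset.antisymm
      · have h1 := closure_convexHull_extremePoints hcomp hconv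
        have hfin : (F.extremePoints ℝ).Finite := hA.subset fun x hx => (hext hx).2
        rw [(hfin.isCompact_convexHull ℝ).isClosed.closure_eq] at h1
        conv_lhs => rw [← h1]
        exact convexHull_mono hext
      · exact convexHull_min Set.inter_subset_left hconv
    intro F hF F' hF' hFF
    simp only at hFF
    rw [key F hF, key F' hF', hFF]
  apply Set.Finite.of_finite_image _ hinj
  apply Set.Finite.subset hA.finite_subsets
  rintro _ ⟨F, _, rfl⟩
  exact Set.inter_subset_right

namespace Solid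

variable {S : Set E3} {a b c d : E3} {p q : ℝ}

lemma zero_mem_interior (h : Solid S a b c d p q) {P : Set E3} (hP : IsPolytope3 P)
    (hsym : IsSymmetric (fullGroup (convexHull ℝ S)) P) : (0 : E3) ∈ interior P := by
  set W := fullGroup (convexHull ℝ S) with hW
  have : Fintype W := (h.finite_full).fintype
  obtain ⟨y, hy⟩ := hP.2
  rw [mem_interior_iff_mem_nhds, Metric.mem_nhds_iff] at hy
  obtain ⟨r, hr, hball⟩ := hy
  rw [mem_interior_iff_mem_nhds, Metric.mem_nhds_iff]
  refine ⟨r, hr, ?_⟩
  intro z hz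
  -- the sum of the orbit of `y` vanishes
  have hsum : ∑ g : W, (g : E3 ≃ₗᵢ[ℝ] E3) y = 0 := by
    apply h.eq_zero_of_inner_al
    intro i
    set f := ∑ g : W, (g : E3 ≃ₗᵢ[ℝ] E3) y with hf
    have h1 : refl (al a b c d i) f = f := by
      have h2 : ∑ g : W, ((⟨refl (al a b c d i), h.refl_al_mem i⟩ * g : W) : E3 ≃ₗᵢ[ℝ] E3) y =
          ∑ g : W, (g : E3 ≃ₗᵢ[ℝ] E3) y :=
        Equiv.sum_comp (Equiv.mulLeft (⟨refl (al a b c d i), h.refl_al_mem i⟩ : W))
          (fun g : W => (g : E3 ≃ₗᵢ[ℝ] E3) y)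
      rw [hf]
      conv_rhs => rw [← h2]
      rw [map_sum]
      rfl
    rw [refl_apply] at h1
    have h2 : (2 * ⟪al a b c d i, f⟫ / ⟪al a b c d i, al a b c d i⟫) • al a b c d i = 0 := by
      have := sub_eq_self.1 h1
      exact this
    rcases smul_eq_zero.1 h2 with h3 | h3
    · have hpos : ⟪al a b c d i, al a b c d i⟫ ≠ 0 := by
        intro h0
        exact h.al_ne i (inner_self_eq_zero (𝕜 := ℝ).1 h0)
      rw [div_eq_zero_iff] at h3
      rcases h3 with h3 | h3
      · rw [real_inner_comm]; linarith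
      · exact absurd h3 hpos
    · exact absurd h3 (h.al_ne i)
  have hcard : (0 : ℝ) < Fintype.card W := by
    exact_mod_cast Fintype.card_pos
  have hz' : z = ∑ g : W, ((Fintype.card W : ℝ)⁻¹) •
      (g : E3 ≃ₗᵢ[ℝ] E3) (y + (g : E3 ≃ₗᵢ[ℝ] E3)⁻¹ z) := by
    rw [← Finset.smul_sum]
    have h1 : ∀ g : W, (g : E3 ≃ₗᵢ[ℝ] E3) (y + (g : E3 ≃ₗᵢ[ℝ] E3)⁻¹ z) =
        (g : E3 ≃ₗᵢ[ℝ] E3) y + z := by
      intro g
      rw [map_add]
      congr 1
      simp [LinearIsometryEquiv.inv_def]
    simp only [h1]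
    rw [Finset.sum_add_distrib, hsum, zero_add, Finset.sum_const, Finset.card_univ,
      ← Nat.cast_smul_eq_nsmul ℝ, smul_smul, inv_mul_cancel₀ hcard.ne', one_smul]
  rw [hz']
  apply (convex_polytope hP).sum_mem
  · intro g _; positivity
  · rw [Finset.sum_const, Finset.card_univ, nsmul_eq_mul, mul_inv_cancel₀ hcard.ne']
  · intro g _
    have h1 : (g : E3 ≃ₗᵢ[ℝ] E3) '' P = P := hsym g g.2
    rw [← h1]
    apply Set.mem_image_of_mem
    apply hball
    rw [Metric.mem_ball, dist_eq_norm, add_sub_cancel_left, LinearIsometryEquiv.norm_map]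
    simpa using hz

lemma zero_notMem_ext (h : Solid S a b c d p q) {P : Set E3} (hP : IsPolytope3 P)
    (hsym : IsSymmetric (fullGroup (convexHull ℝ S)) P) : (0 : E3) ∉ P.extremePoints ℝ := by
  intro h0
  have h1 := h.zero_mem_interior hP hsym
  rw [mem_interior_iff_mem_nhds, Metric.mem_nhds_iff] at h1
  obtain ⟨r, hr, hball⟩ := h1
  have hane : a ≠ 0 := by
    rintro rfl
    have h2 := h.aa
    rw [inner_zero_left] at h2
    have h3 := h.ab
    rw [inner_zero_left] at h3
    have := h.qp
    linarith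
  set t : ℝ := r / (2 * ‖a‖) with ht
  have hna : 0 < ‖a‖ := norm_pos_iff.2 hane
  have htp : 0 < t := by positivity
  have hmem : t • a ∈ P := by
    apply hball
    rw [Metric.mem_ball, dist_zero_right, norm_smul, Real.norm_of_nonneg htp.le, ht]
    field_simp
    linarith
  have hmem' : -(t • a) ∈ P := by
    apply hball
    rw [Metric.mem_ball, dist_zero_right, norm_neg, norm_smul, Real.norm_of_nonneg htp.le, ht]
    field_simp
    linarith
  have := (mem_extremePoints.1 h0).2 _ hmem _ hmem'
    ⟨1/2, 1/2, by norm_num, by norm_num, by norm_num, by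
      rw [smul_neg, add_neg_cancel]⟩
  have h2 := this.1
  rcases smul_eq_zero.1 h2 with h3 | h3
  · linarith
  · exact hane h3

lemma ray_unique (h : Solid S a b c d p q) {P : Set E3} (hP : IsPolytope3 P)
    (hsym : IsSymmetric (fullGroup (convexHull ℝ S)) P) {u : E3} {s t : ℝ} (hs : 0 < s)
    (ht : 0 < t) (h1 : s • u ∈ P.extremePoints ℝ) (h2 : t • u ∈ P.extremePoints ℝ) : s = t := by
  have h0 : (0 : E3) ∈ P := interior_subset (h.zero_mem_interior hP hsym)
  have hn := h.zero_notMem_ext hP hsym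
  have key : ∀ s t : ℝ, 0 < s → 0 < t → s • u ∈ P.extremePoints ℝ → t • u ∈ P.extremePoints ℝ →
      ¬ s < t := by
    intro s t hs ht h1 h2 hst
    have hmem : t • u ∈ P := h2.1
    have := (mem_extremePoints.1 h1).2 0 h0 (t • u) hmem
      ⟨1 - s / t, s / t, by
        rw [sub_pos, div_lt_one ht]; exact hst, by positivity, by ring, by
        rw [smul_zero, zero_add, smul_smul, div_mul_cancel₀ _ ht.ne']⟩
    rw [← this.1] at h1
    exact hn h1
  rcases lt_trichotomy s t with h3 | h3 | h3
  · exact absurd h3 (key s t hs ht h1 h2)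
  · exact h3
  · exact absurd h3 (key t s ht hs h2 h1)

lemma co_smul (h : Solid S a b c d p q) (t : ℝ) (x : E3) (i : Fin 3) :
    co a b c d p q (t • x) i = t * co a b c d p q x i := by
  unfold co
  rw [real_inner_smul_left, mul_div_assoc]

lemma smul_mem_ch {t : ℝ} (ht : 0 ≤ t) {x : E3} (hx : x ∈ ch a b c d) : t • x ∈ ch a b c d := by
  intro i
  rw [real_inner_smul_left]
  exact mul_nonneg ht (hx i)

/-- main counting lemma: some vertex in the chamber has two positive coordinates -/
lemma exists_generic (h : Solid S a b c d p q) {P : Set E3} (hP : IsPolytope3 P)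
    (hsym : IsSymmetric (fullGroup (convexHull ℝ S)) P)
    (hsum : ∀ K : Finset (Fin 3), ∑ k ∈ K, (Orb S a b c k).ncard ≠ (P.extremePoints ℝ).ncard) :
    ∃ v ∈ P.extremePoints ℝ, v ∈ ch a b c d ∧
      ∃ j k, j ≠ k ∧ 0 < co a b c d p q v j ∧ 0 < co a b c d p q v k := by
  classical
  by_contra hcon
  push Not at hcon
  set V := P.extremePoints ℝ with hV
  have hVinv : ∀ g ∈ fullGroup (convexHull ℝ S), ∀ v ∈ V, g v ∈ V := by
    intro g hg v hv
    have h1 := image_ext g P
    rw [hsym g hg] at h1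
    rw [hV, ← h1]
    exact Set.mem_image_of_mem g hv
  -- each vertex in the chamber is a positive multiple of some `om k`
  have hray : ∀ v ∈ V, v ∈ ch a b c d → ∃ k, ∃ t : ℝ, 0 < t ∧ v = t • om a b c k := by
    intro v hv hch
    have hv0 : v ≠ 0 := by
      rintro rfl
      exact h.zero_notMem_ext hP hsym hv
    have hex : ∃ k, 0 < co a b c d p q v k := by
      by_contra hall
      push Not at hall
      apply hv0
      have h1 := h.sum_co v
      rw [← h1]
      apply Finset.sum_eq_zero
      intro i _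
      rw [le_antisymm (hall i) (h.co_nonneg hch i), zero_smul]
    obtain ⟨k, hk⟩ := hex
    refine ⟨k, co a b c d p q v k, hk, ?_⟩
    have h1 := h.sum_co v
    conv_lhs => rw [← h1]
    apply Finset.sum_eq_single k
    · intro j _ hj
      have := hcon v hv hch k j (Ne.symm hj) hk
      rw [le_antisymm this (h.co_nonneg hch j), zero_smul]
    · intro hk'; exact absurd (Finset.mem_univ k) hk'
  -- the set of occurring directions
  set K : Finset (Fin 3) := Finset.univ.filter (fun k => ∃ t : ℝ, 0 < t ∧ t • om a b c k ∈ V)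
    with hK
  have hch : ∀ k : Fin 3, ∃ t : ℝ, 0 < t ∧ (k ∈ K → t • om a b c k ∈ V) := by
    intro k
    by_cases hk : k ∈ K
    · rw [hK, Finset.mem_filter] at hk
      obtain ⟨t, ht, htV⟩ := hk.2
      exact ⟨t, ht, fun _ => htV⟩
    · exact ⟨1, one_pos, fun hk' => absurd hk' hk⟩
  choose t ht htV using hch
  let T : Fin 3 → Finset E3 := fun k => (h.orb_finite k).toFinset.image (fun x => t k • x)
  have hVT : (finite_ext hP).toFinset = K.biUnion T := by
    ext x
    rw [Set.Finite.mem_toFinset, Finset.mem_biUnion]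
    constructor
    · intro hx
      obtain ⟨g, hg, hgx⟩ := h.exists_ch x
      have hgV := hVinv g hg x hx
      obtain ⟨k, s, hs, hgk⟩ := hray _ hgV hgx
      have hkK : k ∈ K := by
        rw [hK, Finset.mem_filter]
        exact ⟨Finset.mem_univ k, s, hs, hgk ▸ hgV⟩
      refine ⟨k, hkK, ?_⟩
      have hst : s = t k := h.ray_unique hP hsym hs (ht k) (hgk ▸ hgV) (htV k hkK)
      rw [Finset.mem_image]
      refine ⟨g⁻¹ (om a b c k), ?_, ?_⟩
      · rw [Set.Finite.mem_toFinset]
        exact ⟨g⁻¹, (fullGroup (convexHull ℝ S)).inv_mem hg, rfl⟩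
      · rw [← map_smul, ← hst, ← hgk]
        exact inv_apply_of_eq rfl
    · rintro ⟨k, hkK, hx⟩
      rw [Finset.mem_image] at hx
      obtain ⟨y, hy, rfl⟩ := hx
      rw [Set.Finite.mem_toFinset] at hy
      obtain ⟨g, hg, rfl⟩ := hy
      change t k • g (om a b c k) ∈ V
      rw [← map_smul]
      exact hVinv g hg _ (htV k hkK)
  have hdisj : ∀ j ∈ K, ∀ k ∈ K, j ≠ k → Disjoint (T j) (T k) := by
    intro j _ k _ hjk
    rw [Finset.disjoint_left]
    intro x hxj hxk
    rw [Finset.mem_image] at hxj hxk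
    obtain ⟨y, hy, hyx⟩ := hxj
    obtain ⟨z, hz, hzx⟩ := hxk
    rw [Set.Finite.mem_toFinset] at hy hz
    obtain ⟨g, hg, rfl⟩ := hy
    obtain ⟨g', hg', rfl⟩ := hz
    simp only at hyx hzx
    have hm : g'⁻¹ * g ∈ fullGroup (convexHull ℝ S) :=
      (fullGroup (convexHull ℝ S)).mul_mem ((fullGroup (convexHull ℝ S)).inv_mem hg') hg
    have e1 : (g'⁻¹ * g) (t j • om a b c j) = t k • om a b c k := by
      change g'⁻¹ (g (t j • om a b c j)) = _
      apply inv_apply_of_eq
      rw [map_smul, map_smul, hyx, hzx]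
    have h1 : t j • om a b c j ∈ ch a b c d := smul_mem_ch (ht j).le (h.om_mem j)
    have h2 : (g'⁻¹ * g) (t j • om a b c j) ∈ ch a b c d := by
      rw [e1]; exact smul_mem_ch (ht k).le (h.om_mem k)
    have h3 := h.ch_unique hm h1 h2
    rw [e1] at h3
    have h4 := congrArg (fun x => co a b c d p q x j) h3
    simp only [h.co_smul, h.co_om, if_true, if_neg (Ne.symm hjk)] at h4
    have := ht j
    linarith
  have hcard : V.ncard = ∑ k ∈ K, (Orb S a b c k).ncard := by
    rw [Set.ncard_eq_toFinset_card V (finite_ext hP), hVT, Finset.card_biUnion hdisj]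
    apply Finset.sum_congr rfl
    intro k _
    rw [Finset.card_image_of_injective, Set.ncard_eq_toFinset_card _ (h.orb_finite k)]
    intro x y hxy
    exact smul_right_injective E3 (ht k).ne' hxy
  exact hsum K hcard.symm

lemma indep_pair (h : Solid S a b c d p q) {j k : Fin 3} (hjk : j ≠ k) :
    LinearIndependent ℝ ![om a b c j, om a b c k] := by
  have h1 := h.om_indep.comp ![j, k] (by
    intro x y hxy
    fin_cases x <;> fin_cases y
    · rfl
    · exact absurd hxy hjk
    · exact absurd hxy.symm hjk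
    · rfl)
  convert h1 using 1
  ext x
  fin_cases x <;> rfl

/-- a generic vertex of the chamber has a free orbit under the rotation group -/
lemma free_orbit (h : Solid S a b c d p q) {v : E3} (hv : v ∈ ch a b c d) {j k : Fin 3}
    (hjk : j ≠ k) (hj : 0 < co a b c d p q v j) (hk : 0 < co a b c d p q v k)
    {g : E3 ≃ₗᵢ[ℝ] E3} (hg : g ∈ rotationGroup (convexHull ℝ S)) (hgv : g v = v) : g = 1 :=
  eq_one_of_fix_two hg.2 (h.indep_pair hjk) (h.fix_om hg.1 hv hgv j hj)
    (h.fix_om hg.1 hv hgv k hk)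

/-- upper bound for the number of facets -/
theorem facets_le (h : Solid S a b c d p q) {P : Set E3} (hP : IsPolytope3 P)
    (hsym : IsSymmetric (fullGroup (convexHull ℝ S)) P)
    (hcard : (P.extremePoints ℝ).ncard =
      ((rotationGroup (convexHull ℝ S) : Subgroup (E3 ≃ₗᵢ[ℝ] E3)) :
        Set (E3 ≃ₗᵢ[ℝ] E3)).ncard)
    (hsum : ∀ K : Finset (Fin 3), ∑ k ∈ K, (Orb S a b c k).ncard ≠ (P.extremePoints ℝ).ncard) :
    (facets P).ncard ≤ (Orb S a b c 0).ncard + (Orb S a b c 1).ncard + (Orb S a b c 2).ncard := by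
  classical
  obtain ⟨v, hv, hch, j, k, hjk, hj, hk⟩ := h.exists_generic hP hsym hsum
  set V := P.extremePoints ℝ with hV
  have hVinv : ∀ g ∈ fullGroup (convexHull ℝ S), ∀ v ∈ V, g v ∈ V := by
    intro g hg v hv
    have h1 := image_ext g P
    rw [hsym g hg] at h1
    rw [hV, ← h1]
    exact Set.mem_image_of_mem g hv
  -- all vertices form one orbit
  have horb : ∀ u ∈ V, ∃ g ∈ fullGroup (convexHull ℝ S), u = g v := by
    have hsub : (fun g : E3 ≃ₗᵢ[ℝ] E3 => g v) ''
        ((rotationGroup (convexHull ℝ S) : Subgroup (E3 ≃ₗᵢ[ℝ] E3)) :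
          Set (E3 ≃ₗᵢ[ℝ] E3)) ⊆ V := by
      rintro _ ⟨g, hg, rfl⟩
      exact hVinv g hg.1 v hv
    have hinj : Set.InjOn (fun g : E3 ≃ₗᵢ[ℝ] E3 => g v)
        ((rotationGroup (convexHull ℝ S) : Subgroup (E3 ≃ₗᵢ[ℝ] E3)) :
          Set (E3 ≃ₗᵢ[ℝ] E3)) := by
      intro g hg g' hg' hgg
      simp only at hgg
      have h1 : g'⁻¹ * g ∈ rotationGroup (convexHull ℝ S) :=
        (rotationGroup (convexHull ℝ S)).mul_mem
          ((rotationGroup (convexHull ℝ S)).inv_mem hg') hg
      have h2 : (g'⁻¹ * g) v = v := by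
        change g'⁻¹ (g v) = v
        rw [hgg]
        exact inv_apply_of_eq rfl
      have h3 := h.free_orbit hch hjk hj hk h1 h2
      exact (inv_mul_eq_one.1 h3).symm
    have heq := Set.eq_of_subset_of_ncard_le hsub (by
      rw [Set.InjOn.ncard_image hinj, hcard]) (finite_ext hP)
    intro u hu
    rw [← heq] at hu
    obtain ⟨g, hg, rfl⟩ := hu
    exact ⟨g, hg.1, rfl⟩
  -- bound for the functionals `om i` on `P`
  have hbound : ∀ y ∈ P, ∀ i, ⟪om a b c i, y⟫ ≤ ⟪om a b c i, v⟫ := by
    intro y hy i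
    have hPV := hull_ext hP
    rw [← hPV] at hy
    have hsub : convexHull ℝ (P.extremePoints ℝ) ⊆ {y | ⟪om a b c i, y⟫ ≤ ⟪om a b c i, v⟫} := by
      apply convexHull_min
      · intro u hu
        obtain ⟨g, hg, rfl⟩ := horb u hu
        exact h.dom_ch hg hch i
      · have : IsLinearMap ℝ (fun y : E3 => ⟪om a b c i, y⟫) :=
          ⟨fun x y => inner_add_right _ _ _, fun r x => real_inner_smul_right _ _ _⟩
        exact convex_halfSpace_le this _
    exact hsub hy
  have hsubset : facets P ⊆ (fun u => face P u) ''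
      ((Orb S a b c 0 ∪ Orb S a b c 1) ∪ Orb S a b c 2) := by
    intro F hF
    obtain ⟨hne, n, hn0, hFn⟩ := facet_eq_face hP.2 hF
    obtain ⟨g, hg, hgn⟩ := h.exists_ch n
    have hgF : g '' F = face P (g n) := by rw [hFn, face_map (hsym g hg)]
    have hvP : v ∈ P := hv.1
    -- at most one coordinate of `g n` is positive
    have honly : ∀ i l, i ≠ l → 0 < co a b c d p q (g n) i → ¬ 0 < co a b c d p q (g n) l := by
      intro i l hil hi hl
      have hrank : Module.finrank ℝ (vectorSpan ℝ (g '' F)) = 2 := by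
        rw [finrank_vectorSpan_map]; exact hF.2
      have hle : vectorSpan ℝ (g '' F) ≤
          (Submodule.span ℝ (Set.range ![om a b c i, om a b c l]))ᗮ := by
        rw [vectorSpan_def, Submodule.span_le]
        rintro _ ⟨x, hx, y, hy, rfl⟩
        rw [hgF] at hx hy
        have ex : ∀ m, 0 < co a b c d p q (g n) m → ⟪om a b c m, x⟫ = ⟪om a b c m, v⟫ :=
          fun m hm => h.dom_eq hgn (hbound x hx.1) (hx.2 v hvP) m hm
        have ey : ∀ m, 0 < co a b c d p q (g n) m → ⟪om a b c m, y⟫ = ⟪om a b c m, v⟫ :=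
          fun m hm => h.dom_eq hgn (hbound y hy.1) (hy.2 v hvP) m hm
        rw [SetLike.mem_coe, Submodule.mem_orthogonal]
        intro u hu
        induction hu using Submodule.span_induction with
        | mem u hu =>
          obtain ⟨m, rfl⟩ := hu
          fin_cases m
          · change ⟪om a b c i, x - y⟫ = 0
            rw [inner_sub_right, ex i hi, ey i hi, sub_self]
          · change ⟪om a b c l, x - y⟫ = 0
            rw [inner_sub_right, ex l hl, ey l hl, sub_self]
        | zero => simp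
        | add y z _ _ h1 h2 => rw [inner_add_left, h1, h2, add_zero]
        | smul r y _ h1 => rw [real_inner_smul_left, h1, mul_zero]
      have h1 := Submodule.finrank_mono hle
      have h2 := Submodule.finrank_add_finrank_orthogonal
        (Submodule.span ℝ (Set.range ![om a b c i, om a b c l]))
      rw [finrank_span_eq_card (h.indep_pair hil)] at h2
      simp at h2
      omega
    -- exactly one
    have hgn0 : g n ≠ 0 := by
      intro h0
      exact hn0 ((LinearIsometryEquiv.map_eq_zero_iff g).1 h0)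
    have hex : ∃ i, 0 < co a b c d p q (g n) i := by
      by_contra hall
      push Not at hall
      apply hgn0
      rw [← h.sum_co (g n)]
      apply Finset.sum_eq_zero
      intro i _
      rw [le_antisymm (hall i) (h.co_nonneg hgn i), zero_smul]
    obtain ⟨i, hi⟩ := hex
    have hgi : g n = co a b c d p q (g n) i • om a b c i := by
      conv_lhs => rw [← h.sum_co (g n)]
      apply Finset.sum_eq_single i
      · intro l _ hl
        have := honly i l (Ne.symm hl) hi
        rw [le_antisymm (not_lt.1 this) (h.co_nonneg hgn l), zero_smul]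
      · intro hk'; exact absurd (Finset.mem_univ i) hk'
    have hnn : n = co a b c d p q (g n) i • g⁻¹ (om a b c i) := by
      rw [← map_smul, ← hgi]
      exact (inv_apply_of_eq rfl).symm
    have hFF : F = face P (g⁻¹ (om a b c i)) := by
      rw [hFn]
      generalize co a b c d p q (g n) i = s at hi hnn
      ext x
      simp only [face, Set.mem_ofPred_eq]
      rw [hnn]
      constructor
      · rintro ⟨hx, hm⟩
        refine ⟨hx, fun y hy => ?_⟩
        have := hm y hy
        rw [real_inner_smul_left, real_inner_smul_left] at this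
        exact le_of_mul_le_mul_left this hi
      · rintro ⟨hx, hm⟩
        refine ⟨hx, fun y hy => ?_⟩
        rw [real_inner_smul_left, real_inner_smul_left]
        exact mul_le_mul_of_nonneg_left (hm y hy) hi.le
    refine ⟨g⁻¹ (om a b c i), ?_, hFF.symm⟩
    have hmem : g⁻¹ (om a b c i) ∈ Orb S a b c i :=
      ⟨g⁻¹, (fullGroup (convexHull ℝ S)).inv_mem hg, rfl⟩
    fin_cases i
    · left; left; exact hmem
    · left; right; exact hmem
    · right; exact hmem
  have hfin : ((Orb S a b c 0 ∪ Orb S a b c 1) ∪ Orb S a b c 2).Finite :=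
    ((h.orb_finite 0).union (h.orb_finite 1)).union (h.orb_finite 2)
  calc (facets P).ncard ≤ _ := Set.ncard_le_ncard hsubset (hfin.image _)
    _ ≤ ((Orb S a b c 0 ∪ Orb S a b c 1) ∪ Orb S a b c 2).ncard := Set.ncard_image_le hfin
    _ ≤ (Orb S a b c 0 ∪ Orb S a b c 1).ncard + (Orb S a b c 2).ncard := Set.ncard_union_le _ _
    _ ≤ _ := by
      have := Set.ncard_union_le (Orb S a b c 0) (Orb S a b c 1)
      omega

end Solid

end Snub
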