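import Pool.Agent.Lib.Helper7.Snub5

set_option autoImplicit false

namespace Snub

open scoped RealInnerProductSpace

lemma hull_le {V : Set E3} {n : E3} {m : ℝ} (hV : ∀ u ∈ V, ⟪n, u⟫ ≤ m) :
    ∀ y ∈ convexHull ℝ V, ⟪n, y⟫ ≤ m := by
  have hsub : convexHull ℝ V ⊆ {y | ⟪n, y⟫ ≤ m} := by
    apply convexHull_min hV
    have : IsLinearMap ℝ (fun y : E3 => ⟪n, y⟫) :=
      ⟨fun x y => inner_add_right _ _ _, fun r x => real_inner_smul_right _ _ _⟩
    exact convex_halfSpace_le this _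
  exact fun y hy => hsub hy

lemma vectorSpan_face_le (P : Set E3) (u : E3) : vectorSpan ℝ (face P u) ≤ (ℝ ∙ u)ᗮ := by
  rw [vectorSpan_def, Submodule.span_le]
  rintro _ ⟨x, hx, y, hy, rfl⟩
  rw [SetLike.mem_coe, Submodule.mem_orthogonal_singleton_iff_inner_right]
  change ⟪u, x - y⟫ = 0
  rw [inner_sub_right]
  have h1 := hx.2 y hy.1
  have h2 := hy.2 x hx.1
  linarith

lemma finrank_orth {u : E3} (hu : u ≠ 0) : Module.finrank ℝ ((ℝ ∙ u)ᗮ : Submodule ℝ E3) = 2 := by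
  have h := Submodule.finrank_add_finrank_orthogonal (ℝ ∙ u)
  rw [finrank_span_singleton hu] at h
  simp at h
  omega

lemma finrank_three {x y z : E3} {F : Set E3} {r : ℝ} (hx : x ∈ F) (hy : y ∈ F) (hz : z ∈ F)
    (h1 : ⟪x, x⟫ = r) (h2 : ⟪y, y⟫ = r) (h3 : ⟪z, z⟫ = r) (hxy : x ≠ y) (hxz : x ≠ z)
    (hyz : y ≠ z) : 2 ≤ Module.finrank ℝ (vectorSpan ℝ F) := by
  have hcos : EuclideanGeometry.Cospherical ({x, y, z} : Set E3) := by
    refine ⟨0, Real.sqrt r, ?_⟩
    have hnorm : ∀ w : E3, ⟪w, w⟫ = r → dist w 0 = Real.sqrt r := by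
      intro w hw
      rw [dist_zero_right, norm_eq_sqrt_real_inner, hw]
    rintro w (rfl | rfl | rfl)
    · exact hnorm _ h1
    · exact hnorm _ h2
    · exact hnorm _ h3
  have hai := hcos.affineIndependent_of_ne hxy hxz hyz
  have hfin := hai.finrank_vectorSpan (n := 2) (by simp)
  rw [← hfin]
  apply Submodule.finrank_mono
  apply vectorSpan_mono
  rintro w ⟨i, rfl⟩
  fin_cases i
  · exact hx
  · exact hy
  · exact hz

lemma face_facet {P : Set E3} {u : E3} (hu : u ≠ 0) {x y z : E3} {r : ℝ}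
    (hx : x ∈ face P u) (hy : y ∈ face P u) (hz : z ∈ face P u)
    (h1 : ⟪x, x⟫ = r) (h2 : ⟪y, y⟫ = r) (h3 : ⟪z, z⟫ = r) (hxy : x ≠ y) (hxz : x ≠ z)
    (hyz : y ≠ z) : face P u ∈ facets P := by
  refine ⟨face_exposed _ _, le_antisymm ?_ (finrank_three hx hy hz h1 h2 h3 hxy hxz hyz)⟩
  rw [← finrank_orth hu]
  exact Submodule.finrank_mono (vectorSpan_face_le P u)

/-- directions of a facet are unique -/
lemma face_inj {P : Set E3} {u v : E3} (hu : face P u ∈ facets P) (hnorm : ‖u‖ = ‖v‖)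
    (hu0 : u ≠ 0) (heq : face P u = face P v) {x : E3} (hx : x ∈ face P u) (hxu : 0 < ⟪u, x⟫)
    (hxv : 0 < ⟪v, x⟫) : u = v := by
  have hv0 : v ≠ 0 := by
    rintro rfl
    rw [inner_zero_left] at hxv
    exact lt_irrefl _ hxv
  have e1 : vectorSpan ℝ (face P u) = (ℝ ∙ u)ᗮ :=
    Submodule.eq_of_le_of_finrank_eq (vectorSpan_face_le P u) (by rw [hu.2, finrank_orth hu0])
  have e2 : vectorSpan ℝ (face P u) = (ℝ ∙ v)ᗮ := by
    rw [heq]
    exact Submodule.eq_of_le_of_finrank_eq (vectorSpan_face_le P v)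
      (by rw [← heq, hu.2, finrank_orth hv0])
  have e3 : (ℝ ∙ u) = (ℝ ∙ v) := by
    have h1 : ((ℝ ∙ u)ᗮ)ᗮ = ((ℝ ∙ v)ᗮ)ᗮ := by rw [← e1, ← e2]
    rwa [Submodule.orthogonal_orthogonal, Submodule.orthogonal_orthogonal] at h1
  have h4 : v ∈ (ℝ ∙ u) := by rw [e3]; exact Submodule.mem_span_singleton_self v
  obtain ⟨s, hs⟩ := Submodule.mem_span_singleton.1 h4
  have hs0 : 0 < s := by
    rw [← hs, real_inner_smul_left] at hxv
    by_contra hneg
    push Not at hneg
    have := mul_nonpos_of_nonpos_of_nonneg hneg hxu.le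
    linarith
  have h5 : ‖v‖ = s * ‖u‖ := by rw [← hs, norm_smul, Real.norm_of_nonneg hs0.le]
  have hun : 0 < ‖u‖ := norm_pos_iff.2 hu0
  have h6 : s = 1 := by
    rw [← hnorm] at h5
    have : (s - 1) * ‖u‖ = 0 := by linarith
    rcases mul_eq_zero.1 this with h7 | h7
    · linarith
    · linarith
  rw [← hs, h6, one_smul]

namespace Solid

variable {S : Set E3} {a b c d : E3} {p q : ℝ}

/-- vertex set of the snub polytope -/
def SV (S : Set E3) (a b c : E3) : Set E3 :=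
  (fun g : E3 ≃ₗᵢ[ℝ] E3 => g (rho a b c)) ''
    ((rotationGroup (convexHull ℝ S) : Subgroup (E3 ≃ₗᵢ[ℝ] E3)) : Set (E3 ≃ₗᵢ[ℝ] E3))

/-- the snub polytope -/
def SP (S : Set E3) (a b c : E3) : Set E3 := convexHull ℝ (SV S a b c)

lemma free_rho (h : Solid S a b c d p q) {g : E3 ≃ₗᵢ[ℝ] E3}
    (hg : g ∈ rotationGroup (convexHull ℝ S)) (hgv : g (rho a b c) = rho a b c) : g = 1 :=
  h.free_orbit h.rho_mem (j := 0) (k := 1) (by decide)
    (by rw [h.co_rho]; exact one_pos) (by rw [h.co_rho]; exact one_pos) hg hgv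

lemma inj_rho (h : Solid S a b c d p q) : Set.InjOn (fun g : E3 ≃ₗᵢ[ℝ] E3 => g (rho a b c))
    ((rotationGroup (convexHull ℝ S) : Subgroup (E3 ≃ₗᵢ[ℝ] E3)) : Set (E3 ≃ₗᵢ[ℝ] E3)) := by
  intro g hg g' hg' hgg
  simp only at hgg
  have h1 : g'⁻¹ * g ∈ rotationGroup (convexHull ℝ S) :=
    (rotationGroup (convexHull ℝ S)).mul_mem ((rotationGroup (convexHull ℝ S)).inv_mem hg') hg
  have h2 : (g'⁻¹ * g) (rho a b c) = rho a b c := by
    change g'⁻¹ (g (rho a b c)) = _
    rw [hgg]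
    exact inv_apply_of_eq rfl
  exact (inv_mul_eq_one.1 (h.free_rho h1 h2)).symm

lemma SV_finite (h : Solid S a b c d p q) : (SV S a b c).Finite := h.finite_rot.image _

lemma SV_card (h : Solid S a b c d p q) : (SV S a b c).ncard =
    ((rotationGroup (convexHull ℝ S) : Subgroup (E3 ≃ₗᵢ[ℝ] E3)) :
      Set (E3 ≃ₗᵢ[ℝ] E3)).ncard :=
  Set.InjOn.ncard_image h.inj_rho

lemma SV_norm (u : E3) (hu : u ∈ SV S a b c) : ⟪u, u⟫ = ⟪rho a b c, rho a b c⟫ := by
  obtain ⟨g, _, rfl⟩ := hu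
  exact inner_map g _ _

lemma SP_ext (S : Set E3) (a b c : E3) : (SP S a b c).extremePoints ℝ = SV S a b c :=
  extremePoints_hull_of_sphere (p := ⟪rho a b c, rho a b c⟫) SV_norm

lemma SV_map {g : E3 ≃ₗᵢ[ℝ] E3} (hg : g ∈ rotationGroup (convexHull ℝ S)) :
    g '' (SV S a b c) = SV S a b c := by
  ext x
  constructor
  · rintro ⟨_, ⟨g', hg', rfl⟩, rfl⟩
    exact ⟨g * g', (rotationGroup (convexHull ℝ S)).mul_mem hg hg', rfl⟩
  · rintro ⟨g', hg', rfl⟩
    refine ⟨(g⁻¹ * g') (rho a b c), ⟨g⁻¹ * g', (rotationGroup (convexHull ℝ S)).mul_mem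
      ((rotationGroup (convexHull ℝ S)).inv_mem hg) hg', rfl⟩, ?_⟩
    have : g ((g⁻¹ * g') (rho a b c)) = (g * (g⁻¹ * g')) (rho a b c) := rfl
    rw [this, mul_inv_cancel_left]

lemma SP_map {g : E3 ≃ₗᵢ[ℝ] E3} (hg : g ∈ rotationGroup (convexHull ℝ S)) :
    g '' (SP S a b c) = SP S a b c := by
  unfold SP
  rw [image_hull, SV_map hg]

lemma rho_mem_SV : rho a b c ∈ SV S a b c :=
  ⟨1, (rotationGroup (convexHull ℝ S)).one_mem, rfl⟩

/-- equality case of dominance for `rho` -/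
lemma fix_of_eq (h : Solid S a b c d p q) {g : E3 ≃ₗᵢ[ℝ] E3}
    (hg : g ∈ fullGroup (convexHull ℝ S)) (i : Fin 3)
    (he : ⟪om a b c i, rho a b c⟫ ≤ ⟪om a b c i, g (rho a b c)⟫) :
    g (om a b c i) = om a b c i := by
  have e1 : ⟪om a b c i, g (rho a b c)⟫ = ∑ j, ⟪om a b c i, g (om a b c j)⟫ := by
    unfold rho
    rw [map_sum, inner_sum]
  have e2 : ⟪om a b c i, rho a b c⟫ = ∑ j, ⟪om a b c i, om a b c j⟫ := by
    unfold rho
    rw [inner_sum]
  rw [e1, e2] at he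
  have e3 : ⟪om a b c i, g (om a b c i)⟫ = ⟪om a b c i, om a b c i⟫ := by
    by_contra hne
    have hlt : ⟪om a b c i, g (om a b c i)⟫ < ⟪om a b c i, om a b c i⟫ :=
      lt_of_le_of_ne (h.dom' hg i i) hne
    have : ∑ j, ⟪om a b c i, g (om a b c j)⟫ < ∑ j, ⟪om a b c i, om a b c j⟫ :=
      Finset.sum_lt_sum (fun j _ => h.dom' hg i j) ⟨i, Finset.mem_univ i, hlt⟩
    linarith
  have e4 : ⟪g (om a b c i) - om a b c i, g (om a b c i) - om a b c i⟫ = 0 := by
    rw [inner_sub_left, inner_sub_right, inner_sub_right, inner_map,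
      real_inner_comm (om a b c i) (g (om a b c i)), e3]
    ring
  exact sub_eq_zero.1 (inner_self_eq_zero (𝕜 := ℝ).1 e4)

lemma om_rho_pos (h : Solid S a b c d p q) (i : Fin 3) : 0 < ⟪om a b c i, rho a b c⟫ := by
  have e1 := h.aa; have e2 := h.bb; have e3 := h.cc
  have e5 := h.ab; have e6 := h.ba; have e7 := h.ac; have e8 := h.ca
  have e9 := h.bc; have e10 := h.cb
  have h1 := h.qp; have h2 := h.pq; have h3 := h.p_add_q
  fin_cases i <;>
    simp only [rho, om, Fin.sum_univ_three, Fin.zero_eta, Fin.mk_one, Fin.reduceFinMk,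
      Fin.isValue, Matrix.cons_val_zero, Matrix.cons_val_one, Matrix.cons_val, inner_add_left,
      inner_add_right, e1, e2, e3, e5, e6, e7, e8, e9, e10] <;> linarith

lemma om_ne (h : Solid S a b c d p q) (i : Fin 3) : om a b c i ≠ 0 := by
  intro h0
  have := h.om_rho_pos i
  rw [h0, inner_zero_left] at this
  exact lt_irrefl _ this

lemma SV_om_le (h : Solid S a b c d p q) (i : Fin 3) :
    ∀ u ∈ SV S a b c, ⟪om a b c i, u⟫ ≤ ⟪om a b c i, rho a b c⟫ := by
  rintro _ ⟨g, hg, rfl⟩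
  exact h.dom_ch hg.1 h.rho_mem i

lemma rho_mem_face (h : Solid S a b c d p q) (i : Fin 3) :
    rho a b c ∈ face (SP S a b c) (om a b c i) :=
  ⟨subset_convexHull ℝ _ rho_mem_SV, hull_le (h.SV_om_le i)⟩

lemma mem_face_of_fix (h : Solid S a b c d p q) {i : Fin 3} {g : E3 ≃ₗᵢ[ℝ] E3}
    (hg : g ∈ rotationGroup (convexHull ℝ S)) (hfix : g (om a b c i) = om a b c i) :
    g (rho a b c) ∈ face (SP S a b c) (om a b c i) := by
  rw [← hfix, ← face_map (SP_map hg)]
  exact Set.mem_image_of_mem g (h.rho_mem_face i)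

lemma rr_om2 (h : Solid S a b c d p q) : rr a b c (om a b c 2) = om a b c 2 := by
  change rr a b c (a + b + c) = a + b + c
  rw [map_add, map_add, h.rr_a, h.rr_b, h.rr_c]; abel

lemma ee_om1 (h : Solid S a b c d p q) : ee a b c d (om a b c 1) = om a b c 1 := by
  change ee a b c d (a + b) = a + b
  rw [map_add, h.ee_a, h.ee_b, add_comm]

lemma rr_distinct (h : Solid S a b c d p q) :
    rho a b c ≠ rr a b c (rho a b c) ∧ rho a b c ≠ (rr a b c * rr a b c) (rho a b c) ∧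
    rr a b c (rho a b c) ≠ (rr a b c * rr a b c) (rho a b c) := by
  have nab := h.ne_of_inner h.ma h.ab
  have nac := h.ne_of_inner h.ma h.ac
  refine ⟨?_, ?_, ?_⟩
  · intro h1
    have h2 := h.free_rho h.rr_mem h1.symm
    have h3 := h.rr_a
    rw [h2] at h3
    exact nab h3
  · intro h1
    have h2 := h.free_rho ((rotationGroup (convexHull ℝ S)).mul_mem h.rr_mem h.rr_mem) h1.symm
    have h3 : (rr a b c * rr a b c) a = c := by
      change rr a b c (rr a b c a) = _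
      rw [h.rr_a, h.rr_b]
    rw [h2] at h3
    exact nac h3
  · intro h1
    have h1' : rr a b c (rho a b c) = rr a b c (rr a b c (rho a b c)) := h1
    have h2 := h.free_rho h.rr_mem ((rr a b c).injective h1').symm
    have h3 := h.rr_a
    rw [h2] at h3
    exact nab h3

lemma facet_om2 (h : Solid S a b c d p q) :
    face (SP S a b c) (om a b c 2) ∈ facets (SP S a b c) := by
  obtain ⟨n1, n2, n3⟩ := h.rr_distinct
  have hm : rr a b c * rr a b c ∈ rotationGroup (convexHull ℝ S) :=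
    (rotationGroup (convexHull ℝ S)).mul_mem h.rr_mem h.rr_mem
  have hfix2 : (rr a b c * rr a b c) (om a b c 2) = om a b c 2 := by
    change rr a b c (rr a b c (om a b c 2)) = om a b c 2
    rw [h.rr_om2, h.rr_om2]
  exact face_facet (h.om_ne 2) (h.rho_mem_face 2) (h.mem_face_of_fix h.rr_mem h.rr_om2)
    (h.mem_face_of_fix hm hfix2) rfl (inner_map _ _ _) (inner_map _ _ _) n1 n2 n3

lemma SV_span (h : Solid S a b c d p q) : vectorSpan ℝ (SV S a b c) = ⊤ := by
  obtain ⟨n1, n2, n3⟩ := h.rr_distinct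
  have hm : rr a b c * rr a b c ∈ rotationGroup (convexHull ℝ S) :=
    (rotationGroup (convexHull ℝ S)).mul_mem h.rr_mem h.rr_mem
  have hfix2 : (rr a b c * rr a b c) (om a b c 2) = om a b c 2 := by
    change rr a b c (rr a b c (om a b c 2)) = om a b c 2
    rw [h.rr_om2, h.rr_om2]
  -- three points spanning a plane orthogonal to `om 2`
  have hT : (({rho a b c, rr a b c (rho a b c), (rr a b c * rr a b c) (rho a b c)} : Set E3)) ⊆
      SV S a b c := by
    rintro x (rfl | rfl | rfl)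
    · exact rho_mem_SV
    · exact ⟨_, h.rr_mem, rfl⟩
    · exact ⟨_, hm, rfl⟩
  have hT2 : (({rho a b c, rr a b c (rho a b c), (rr a b c * rr a b c) (rho a b c)} : Set E3)) ⊆
      face (SP S a b c) (om a b c 2) := by
    rintro x (rfl | rfl | rfl)
    · exact h.rho_mem_face 2
    · exact h.mem_face_of_fix h.rr_mem h.rr_om2
    · exact h.mem_face_of_fix hm hfix2
  have hrT : 2 ≤ Module.finrank ℝ (vectorSpan ℝ
      (({rho a b c, rr a b c (rho a b c), (rr a b c * rr a b c) (rho a b c)} : Set E3))) :=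
    finrank_three (by simp) (by simp) (by simp) rfl (inner_map _ _ _) (inner_map _ _ _) n1 n2 n3
  have hle1 : vectorSpan ℝ
      (({rho a b c, rr a b c (rho a b c), (rr a b c * rr a b c) (rho a b c)} : Set E3)) ≤
      (ℝ ∙ om a b c 2)ᗮ := (vectorSpan_mono ℝ hT2).trans (vectorSpan_face_le _ _)
  have hle2 := vectorSpan_mono ℝ hT
  by_contra hne
  have hlt : Module.finrank ℝ (vectorSpan ℝ (SV S a b c)) < 3 := by
    have h1 := Submodule.finrank_lt hne
    simpa using h1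
  have heq : vectorSpan ℝ
      (({rho a b c, rr a b c (rho a b c), (rr a b c * rr a b c) (rho a b c)} : Set E3)) =
      vectorSpan ℝ (SV S a b c) := by
    apply Submodule.eq_of_le_of_finrank_le hle2
    omega
  have hmem : ee a b c d (rho a b c) -ᵥ rho a b c ∈ vectorSpan ℝ (SV S a b c) :=
    vsub_mem_vectorSpan ℝ ⟨_, h.ee_mem, rfl⟩ rho_mem_SV
  rw [← heq] at hmem
  have h1 := hle1 hmem
  rw [Submodule.mem_orthogonal_singleton_iff_inner_right] at h1
  change ⟪om a b c 2, ee a b c d (rho a b c) - rho a b c⟫ = 0 at h1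
  rw [inner_sub_right] at h1
  have h2 := h.fix_of_eq h.ee_mem.1 2 (by linarith)
  change ee a b c d (a + b + c) = a + b + c at h2
  rw [map_add, map_add, h.ee_a, h.ee_b, h.ee_c, add_comm b a] at h2
  exact h.cd (add_left_cancel h2).symm

lemma SP_polytope (h : Solid S a b c d p q) : IsPolytope3 (SP S a b c) := by
  refine ⟨⟨_, h.SV_finite, rfl⟩, ?_⟩
  unfold SP
  rw [interior_convexHull_nonempty_iff_affineSpan_eq_top]
  rw [AffineSubspace.affineSpan_eq_top_iff_vectorSpan_eq_top_of_nonempty ℝ E3 E3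
    ⟨_, rho_mem_SV⟩]
  exact h.SV_span

/-- an extra facet in general position -/
lemma exists_star (h : Solid S a b c d p q) :
    ∃ n : E3, face (SP S a b c) n ∈ facets (SP S a b c) ∧ n ≠ 0 ∧
      rho a b c ∈ face (SP S a b c) n ∧ 0 < ⟪n, rho a b c⟫ ∧
      (∀ i, ∀ g ∈ rotationGroup (convexHull ℝ S),
        face (SP S a b c) n ≠ face (SP S a b c) (g (om a b c i))) := by
  classical
  -- a vector orthogonal to `rho` and `ee rho`
  obtain ⟨τ, hτ0, hτ1, hτ2⟩ : ∃ τ : E3, τ ≠ 0 ∧ ⟪τ, rho a b c⟫ = 0 ∧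
      ⟪τ, ee a b c d (rho a b c)⟫ = 0 := by
    have hlt : Module.finrank ℝ (Submodule.span ℝ
        (Set.range ![rho a b c, ee a b c d (rho a b c)])) < 3 := by
      have := finrank_range_le_card (R := ℝ) ![rho a b c, ee a b c d (rho a b c)]
      refine lt_of_le_of_lt this ?_
      rw [Fintype.card_fin]
      norm_num
    have h1 := Submodule.finrank_add_finrank_orthogonal (Submodule.span ℝ
        (Set.range ![rho a b c, ee a b c d (rho a b c)]))
    have h2 : 0 < Module.finrank ℝ ((Submodule.span ℝ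
        (Set.range ![rho a b c, ee a b c d (rho a b c)]))ᗮ : Submodule ℝ E3) := by
      simp at h1
      omega
    have h3 : (Submodule.span ℝ
        (Set.range ![rho a b c, ee a b c d (rho a b c)]))ᗮ ≠ ⊥ := by
      intro h4
      rw [h4] at h2
      simp at h2
    obtain ⟨τ, hτ, hτ0⟩ := Submodule.exists_mem_ne_zero_of_ne_bot h3
    rw [Submodule.mem_orthogonal'] at hτ
    exact ⟨τ, hτ0, hτ _ (Submodule.subset_span ⟨0, rfl⟩), hτ _ (Submodule.subset_span ⟨1, rfl⟩)⟩
  -- some vertex is not orthogonal to `τ`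
  have hex : ∃ u ∈ SV S a b c, ⟪τ, u⟫ ≠ 0 := by
    by_contra hall
    push Not at hall
    have h1 : vectorSpan ℝ (SV S a b c) ≤ (ℝ ∙ τ)ᗮ := by
      rw [vectorSpan_def, Submodule.span_le]
      rintro _ ⟨x, hx, y, hy, rfl⟩
      rw [SetLike.mem_coe, Submodule.mem_orthogonal_singleton_iff_inner_right]
      change ⟪τ, x - y⟫ = 0
      rw [inner_sub_right, hall x hx, hall y hy, sub_self]
    rw [h.SV_span, top_le_iff] at h1
    have h2 : τ ∈ (ℝ ∙ τ)ᗮ := by rw [h1]; trivial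
    rw [Submodule.mem_orthogonal_singleton_iff_inner_right] at h2
    exact hτ0 (inner_self_eq_zero (𝕜 := ℝ).1 h2)
  -- choose the sign of `τ`
  obtain ⟨τ, hτ1, hτ2, hex⟩ : ∃ τ : E3, ⟪τ, rho a b c⟫ = 0 ∧
      ⟪τ, ee a b c d (rho a b c)⟫ = 0 ∧ ∃ u ∈ SV S a b c, 0 < ⟪τ, u⟫ := by
    obtain ⟨u, hu, hne⟩ := hex
    rcases lt_or_gt_of_ne hne with h1 | h1
    · refine ⟨-τ, ?_, ?_, u, hu, ?_⟩
      · rw [inner_neg_left, hτ1, neg_zero]
      · rw [inner_neg_left, hτ2, neg_zero]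
      · rw [inner_neg_left]; linarith
    · exact ⟨τ, hτ1, hτ2, u, hu, h1⟩
  set ω := om a b c 1 with hω
  set m := ⟪ω, rho a b c⟫ with hm
  have hmpos : 0 < m := h.om_rho_pos 1
  obtain ⟨us, ⟨husV, hus0⟩, hmin⟩ := Set.exists_min_image {u | u ∈ SV S a b c ∧ 0 < ⟪τ, u⟫}
    (fun u => (m - ⟪ω, u⟫) / ⟪τ, u⟫) (h.SV_finite.subset fun u hu => hu.1)
    (by obtain ⟨u, hu, hu0⟩ := hex; exact ⟨u, hu, hu0⟩)
  set s := (m - ⟪ω, us⟫) / ⟪τ, us⟫ with hs
  have hs0 : 0 ≤ s := div_nonneg (by have := h.SV_om_le 1 us husV; linarith) hus0.le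
  set n := ω + s • τ with hn
  have hle : ∀ u ∈ SV S a b c, ⟪n, u⟫ ≤ m := by
    intro u hu
    rw [hn, inner_add_left, real_inner_smul_left]
    have h1 : ⟪ω, u⟫ ≤ m := h.SV_om_le 1 u hu
    by_cases hpos : 0 < ⟪τ, u⟫
    · have h2 := hmin u ⟨hu, hpos⟩
      have h3 : s * ⟪τ, u⟫ ≤ m - ⟪ω, u⟫ := by
        rw [← le_div_iff₀ hpos]; exact h2
      linarith
    · have : s * ⟪τ, u⟫ ≤ 0 := mul_nonpos_of_nonneg_of_nonpos hs0 (not_lt.1 hpos)
      linarith
  have hn1 : ⟪n, rho a b c⟫ = m := by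
    rw [hn, inner_add_left, real_inner_smul_left, hτ1, mul_zero, add_zero]
  have hee : ⟪ω, ee a b c d (rho a b c)⟫ = m := by
    have h1 := inner_map (ee a b c d) ω (rho a b c)
    rw [h.ee_om1] at h1
    exact h1
  have hn2 : ⟪n, ee a b c d (rho a b c)⟫ = m := by
    rw [hn, inner_add_left, real_inner_smul_left, hτ2, mul_zero, add_zero, hee]
  have hn3 : ⟪n, us⟫ = m := by
    rw [hn, inner_add_left, real_inner_smul_left, hs, div_mul_cancel₀ _ hus0.ne']; ring
  have heV : ee a b c d (rho a b c) ∈ SV S a b c := ⟨_, h.ee_mem, rfl⟩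
  have hface : ∀ u ∈ SV S a b c, ⟪n, u⟫ = m → u ∈ face (SP S a b c) n := by
    intro u hu he
    refine ⟨subset_convexHull ℝ _ hu, ?_⟩
    rw [he]
    exact hull_le hle
  have hn0 : n ≠ 0 := by
    intro h0
    rw [h0, inner_zero_left] at hn1
    linarith
  have hne1 : rho a b c ≠ ee a b c d (rho a b c) := by
    intro h1
    have h2 := h.free_rho h.ee_mem h1.symm
    have h3 := h.ee_a
    rw [h2] at h3
    exact h.ne_of_inner h.ma h.ab h3
  have hne2 : rho a b c ≠ us := by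
    rintro h1
    rw [← h1, hτ1] at hus0
    exact lt_irrefl _ hus0
  have hne3 : ee a b c d (rho a b c) ≠ us := by
    rintro h1
    rw [← h1, hτ2] at hus0
    exact lt_irrefl _ hus0
  have f1 := hface _ rho_mem_SV hn1
  have f2 := hface _ heV hn2
  have f3 := hface _ husV hn3
  refine ⟨n, face_facet hn0 f1 f2 f3 rfl (inner_map _ _ _) (SV_norm _ husV) hne1 hne2 hne3,
    hn0, f1, by rw [hn1]; exact hmpos, ?_⟩
  intro i g hg heq
  -- `g om i = om i`
  rw [heq] at f1 f2 f3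
  have k1 : g (om a b c i) = om a b c i := by
    have h1 : g (rho a b c) ∈ SP S a b c := subset_convexHull ℝ _ ⟨g, hg, rfl⟩
    have h2 := f1.2 _ h1
    rw [inner_map] at h2
    have h3 := h.fix_of_eq ((fullGroup (convexHull ℝ S)).inv_mem hg.1) i (by
      have h4 := inner_map g⁻¹ (g (om a b c i)) (rho a b c)
      rw [inv_apply_of_eq (rfl : g (om a b c i) = g (om a b c i))] at h4
      rw [h4]
      exact h2)
    have h5 := congrArg g h3
    have h6 : g (g⁻¹ (om a b c i)) = om a b c i := by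
      change (g * g⁻¹) (om a b c i) = _
      rw [mul_inv_cancel]; rfl
    rw [h6] at h5
    exact h5.symm
  rw [k1] at f1 f2 f3
  have k2 : ee a b c d (om a b c i) = om a b c i :=
    h.fix_of_eq h.ee_mem.1 i (f2.2 _ f1.1)
  have k3 : ∃ g' ∈ rotationGroup (convexHull ℝ S), us = g' (rho a b c) ∧
      g' (om a b c i) = om a b c i := by
    obtain ⟨g', hg', he'⟩ := husV
    refine ⟨g', hg', he'.symm, ?_⟩
    apply h.fix_of_eq hg'.1 i
    have := f3.2 _ f1.1
    rw [← he'] at this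
    exact this
  fin_cases i
  · have k4 := h.ee_a
    change ee a b c d a = a at k2
    rw [k2] at k4
    exact h.ne_of_inner h.ma h.ab k4
  · obtain ⟨g', hg', he', hfix'⟩ := k3
    rcases h.stab_om1 hg' hfix' with h1 | h1
    · rw [h1] at he'
      exact hne2 he'.symm
    · rw [h1] at he'
      exact hne3 he'.symm
  · change ee a b c d (a + b + c) = a + b + c at k2
    rw [map_add, map_add, h.ee_a, h.ee_b, h.ee_c, add_comm b a] at k2
    exact h.cd (add_left_cancel k2).symm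

/-- a rotation fixing a nonzero vector which is in general position is trivial -/
lemma eq_one_of_fix (h : Solid S a b c d p q) {n : E3} (hn0 : n ≠ 0)
    (hn : ∀ i, ∀ g ∈ rotationGroup (convexHull ℝ S), ∀ s : ℝ, 0 < s → n ≠ s • g (om a b c i))
    {g : E3 ≃ₗᵢ[ℝ] E3} (hg : g ∈ rotationGroup (convexHull ℝ S)) (hgn : g n = n) : g = 1 := by
  obtain ⟨w, hw, hch⟩ := h.exists_ch n
  set g' := w * g * w⁻¹ with hg'
  have hg'W : g' ∈ fullGroup (convexHull ℝ S) :=
    (fullGroup (convexHull ℝ S)).mul_mem ((fullGroup (convexHull ℝ S)).mul_mem hw hg.1)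
      ((fullGroup (convexHull ℝ S)).inv_mem hw)
  have hdt : dt g' = 1 := by
    have h1 : dt (w * w⁻¹) = 1 := by rw [mul_inv_cancel, dt_one]
    rw [dt_mul] at h1
    have h2 : dt g = 1 := hg.2
    rw [hg', dt_mul, dt_mul, h2, mul_one, h1]
  have hfix : g' (w n) = w n := by
    change w (g (w⁻¹ (w n))) = w n
    rw [inv_apply_of_eq rfl, hgn]
  have hg'R : g' ∈ rotationGroup (convexHull ℝ S) := ⟨hg'W, hdt⟩
  have hwn0 : w n ≠ 0 := by
    intro h0
    exact hn0 ((LinearIsometryEquiv.map_eq_zero_iff w).1 h0)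
  have hex : ∃ i, 0 < co a b c d p q (w n) i := by
    by_contra hall
    push Not at hall
    apply hwn0
    rw [← h.sum_co (w n)]
    apply Finset.sum_eq_zero
    intro i _
    rw [le_antisymm (hall i) (h.co_nonneg hch i), zero_smul]
  obtain ⟨i, hi⟩ := hex
  by_cases hex2 : ∃ l, i ≠ l ∧ 0 < co a b c d p q (w n) l
  · obtain ⟨l, hil, hl⟩ := hex2
    have h1 := h.free_orbit hch hil hi hl hg'R hfix
    rw [hg'] at h1
    have h2 : w * g = w := by
      have := congrArg (fun x => x * w) h1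
      simpa [mul_assoc] using this
    exact mul_eq_left.1 h2
  · exfalso
    push Not at hex2
    have hgi : w n = co a b c d p q (w n) i • om a b c i := by
      conv_lhs => rw [← h.sum_co (w n)]
      apply Finset.sum_eq_single i
      · intro l _ hl
        rw [le_antisymm (hex2 l (Ne.symm hl)) (h.co_nonneg hch l), zero_smul]
      · intro hk'; exact absurd (Finset.mem_univ i) hk'
    have hnn : n = co a b c d p q (w n) i • w⁻¹ (om a b c i) := by
      rw [← map_smul, ← hgi]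
      exact (inv_apply_of_eq rfl).symm
    have hmem : w⁻¹ (om a b c i) ∈ Orb S a b c i :=
      ⟨w⁻¹, (fullGroup (convexHull ℝ S)).inv_mem hw, rfl⟩
    rw [← h.orb_rot] at hmem
    obtain ⟨g1, hg1, he1⟩ := hmem
    simp only at he1
    rw [← he1] at hnn
    exact hn i g1 hg1 _ hi hnn

/-- lower bound for the number of facets of the snub polytope -/
theorem le_facets (h : Solid S a b c d p q) :
    ((rotationGroup (convexHull ℝ S) : Subgroup (E3 ≃ₗᵢ[ℝ] E3)) :
      Set (E3 ≃ₗᵢ[ℝ] E3)).ncard + (Orb S a b c 2).ncard ≤ (facets (SP S a b c)).ncard := by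
  classical
  obtain ⟨n, hfac, hn0, hrho, hpos, hgen⟩ := h.exists_star
  set G := rotationGroup (convexHull ℝ S) with hG
  set P := SP S a b c with hP
  have hscale : ∀ (s : ℝ), 0 < s → ∀ u, face P (s • u) = face P u := by
    intro s hs u
    ext x
    simp only [face, Set.mem_ofPred_eq]
    constructor
    · rintro ⟨hx, hm⟩
      refine ⟨hx, fun y hy => ?_⟩
      have := hm y hy
      rw [real_inner_smul_left, real_inner_smul_left] at this
      exact le_of_mul_le_mul_left this hs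
    · rintro ⟨hx, hm⟩
      refine ⟨hx, fun y hy => ?_⟩
      rw [real_inner_smul_left, real_inner_smul_left]
      exact mul_le_mul_of_nonneg_left (hm y hy) hs.le
  have hn : ∀ i, ∀ g ∈ G, ∀ s : ℝ, 0 < s → n ≠ s • g (om a b c i) := by
    intro i g hg s hs he
    apply hgen i g hg
    rw [he, hscale s hs]
  -- first family
  have hinj1 : Set.InjOn (fun g : E3 ≃ₗᵢ[ℝ] E3 => face P (g n)) (G : Set (E3 ≃ₗᵢ[ℝ] E3)) := by
    intro g hg g' hg' hgg
    simp only at hgg
    have hm : g'⁻¹ * g ∈ G := G.mul_mem (G.inv_mem hg') hg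
    have h1 : face P ((g'⁻¹ * g) n) = face P n := by
      have h2 : (g'⁻¹ : E3 ≃ₗᵢ[ℝ] E3) '' (face P (g n)) =
          (g'⁻¹ : E3 ≃ₗᵢ[ℝ] E3) '' (face P (g' n)) := by rw [hgg]
      rw [face_map (SP_map (G.inv_mem hg')), face_map (SP_map (G.inv_mem hg'))] at h2
      rw [inv_apply_of_eq (rfl : g' n = g' n)] at h2
      exact h2
    have h3 : (g'⁻¹ * g) n = n := by
      have hnorm : ‖n‖ = ‖(g'⁻¹ * g) n‖ := ((g'⁻¹ * g).norm_map n).symm
      have hrho' : rho a b c ∈ face P ((g'⁻¹ * g) n) := by rw [h1]; exact hrho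
      -- value of the functional
      have hval : 0 < ⟪(g'⁻¹ * g) n, rho a b c⟫ := by
        have h4 : (g'⁻¹ * g) (rho a b c) ∈ P :=
          subset_convexHull ℝ _ ⟨_, hm, rfl⟩
        have h5 := hrho'.2 _ h4
        rw [inner_map] at h5
        linarith
      exact (face_inj hfac hnorm hn0 h1.symm hrho hpos hval).symm
    have h4 := h.eq_one_of_fix hn0 hn hm h3
    exact (inv_mul_eq_one.1 h4).symm
  -- second family
  have hO2 : ∀ u ∈ Orb S a b c 2, ∃ g ∈ G, u = g (om a b c 2) := by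
    intro u hu
    rw [← h.orb_rot] at hu
    obtain ⟨g, hg, rfl⟩ := hu
    exact ⟨g, hg, rfl⟩
  have hinj2 : Set.InjOn (fun u : E3 => face P u) (Orb S a b c 2) := by
    intro u hu v hv huv
    simp only at huv
    obtain ⟨g, hg, rfl⟩ := hO2 u hu
    obtain ⟨g', hg', rfl⟩ := hO2 v hv
    have hfu : face P (g (om a b c 2)) ∈ facets P := facet_map (SP_map hg) h.facet_om2
    have hx : g (rho a b c) ∈ face P (g (om a b c 2)) := by
      rw [← face_map (SP_map hg)]
      exact Set.mem_image_of_mem g (h.rho_mem_face 2)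
    have hnorm : ‖g (om a b c 2)‖ = ‖g' (om a b c 2)‖ := by
      rw [LinearIsometryEquiv.norm_map, LinearIsometryEquiv.norm_map]
    have hne : g (om a b c 2) ≠ 0 := by
      intro h0
      exact h.om_ne 2 ((LinearIsometryEquiv.map_eq_zero_iff g).1 h0)
    have hv1 : 0 < ⟪g (om a b c 2), g (rho a b c)⟫ := by
      rw [inner_map]; exact h.om_rho_pos 2
    have hv2 : 0 < ⟪g' (om a b c 2), g (rho a b c)⟫ := by
      have hx' : g (rho a b c) ∈ face P (g' (om a b c 2)) := by rw [← huv]; exact hx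
      have h4 : g' (rho a b c) ∈ P := subset_convexHull ℝ _ ⟨_, hg', rfl⟩
      have h5 := hx'.2 _ h4
      rw [inner_map] at h5
      have := h.om_rho_pos 2
      linarith
    exact face_inj hfu hnorm hne huv hx hv1 hv2
  have hdisj : Disjoint ((fun g : E3 ≃ₗᵢ[ℝ] E3 => face P (g n)) '' (G : Set (E3 ≃ₗᵢ[ℝ] E3)))
      ((fun u : E3 => face P u) '' (Orb S a b c 2)) := by
    rw [Set.disjoint_left]
    rintro F ⟨g, hg, rfl⟩ ⟨u, hu, he⟩
    simp only at he
    obtain ⟨g', hg', rfl⟩ := hO2 u hu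
    have hm : g⁻¹ * g' ∈ G := G.mul_mem (G.inv_mem hg) hg'
    apply hgen 2 _ hm
    have h2 : (g⁻¹ : E3 ≃ₗᵢ[ℝ] E3) '' (face P (g' (om a b c 2))) =
        (g⁻¹ : E3 ≃ₗᵢ[ℝ] E3) '' (face P (g n)) := by rw [he]
    rw [face_map (SP_map (G.inv_mem hg)), face_map (SP_map (G.inv_mem hg)),
      inv_apply_of_eq (rfl : g n = g n)] at h2
    exact h2.symm
  have hsub : ((fun g : E3 ≃ₗᵢ[ℝ] E3 => face P (g n)) '' (G : Set (E3 ≃ₗᵢ[ℝ] E3))) ∪
      ((fun u : E3 => face P u) '' (Orb S a b c 2)) ⊆ facets P := by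
    rintro F (⟨g, hg, rfl⟩ | ⟨u, hu, rfl⟩)
    · exact facet_map (SP_map hg) hfac
    · obtain ⟨g', hg', rfl⟩ := hO2 u hu
      exact facet_map (SP_map hg') h.facet_om2
  calc (G : Set (E3 ≃ₗᵢ[ℝ] E3)).ncard + (Orb S a b c 2).ncard
      = ((fun g : E3 ≃ₗᵢ[ℝ] E3 => face P (g n)) '' (G : Set (E3 ≃ₗᵢ[ℝ] E3))).ncard +
        ((fun u : E3 => face P u) '' (Orb S a b c 2)).ncard := by
        rw [Set.InjOn.ncard_image hinj1, Set.InjOn.ncard_image hinj2]
    _ = (((fun g : E3 ≃ₗᵢ[ℝ] E3 => face P (g n)) '' (G : Set (E3 ≃ₗᵢ[ℝ] E3))) ∪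
        ((fun u : E3 => face P u) '' (Orb S a b c 2))).ncard :=
        (Set.ncard_union_eq hdisj (h.finite_rot.image _) ((h.orb_finite 2).image _)).symm
    _ ≤ (facets P).ncard := Set.ncard_le_ncard hsub (finite_facets h.SP_polytope)

/-- the two sets of f-vectors differ -/
theorem fSet_ssubset (h : Solid S a b c d p q)
    (hsum : ∀ K : Finset (Fin 3), ∑ k ∈ K, (Orb S a b c k).ncard ≠
      ((rotationGroup (convexHull ℝ S) : Subgroup (E3 ≃ₗᵢ[ℝ] E3)) :
      Set (E3 ≃ₗᵢ[ℝ] E3)).ncard)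
    (hlt : (Orb S a b c 0).ncard + (Orb S a b c 1).ncard <
      ((rotationGroup (convexHull ℝ S) : Subgroup (E3 ≃ₗᵢ[ℝ] E3)) :
      Set (E3 ≃ₗᵢ[ℝ] E3)).ncard) :
    fSet (fullGroup (convexHull ℝ S)) ⊂ fSet (rotationGroup (convexHull ℝ S)) := by
  constructor
  · rintro f ⟨P, hP, hsym, hf⟩
    exact ⟨P, hP, fun g hg => hsym g hg.1, hf⟩
  · intro hsub
    have hmem : (numVertices (SP S a b c), numFacets (SP S a b c)) ∈
        fSet (rotationGroup (convexHull ℝ S)) :=
      ⟨SP S a b c, h.SP_polytope, fun g hg => SP_map hg, rfl⟩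
    obtain ⟨P, hP, hsym, hf⟩ := hsub hmem
    rw [Prod.mk.injEq] at hf
    obtain ⟨hf1, hf2⟩ := hf
    unfold numVertices numFacets at *
    rw [SP_ext, h.SV_card] at hf1
    have h1 := h.facets_le hP hsym hf1.symm (by
      intro K
      rw [← hf1]
      exact hsum K)
    have h2 := h.le_facets
    omega

end Solid

end Snub
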