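import Pool.Agent.Lib.Helper7.Snub6

set_option autoImplicit false

namespace Snub

open scoped RealInnerProductSpace

open Solid

/-- evaluation of `m + n φ` -/
noncomputable def ev (x : ℤ × ℤ) : ℝ := (x.1 : ℝ) + (x.2 : ℝ) * Real.goldenRatio

/-- multiplication of codes -/
def mulz (x y : ℤ × ℤ) : ℤ × ℤ := (x.1 * y.1 + x.2 * y.2, x.1 * y.2 + x.2 * y.1 + x.2 * y.2)

lemma ev_mulz (x y : ℤ × ℤ) : ev (mulz x y) = ev x * ev y := by
  unfold ev mulz
  have h := Real.goldenRatio_sq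
  push_cast
  linear_combination -((x.2 : ℝ) * (y.2 : ℝ)) * h

lemma ev_add (x y : ℤ × ℤ) : ev (x + y) = ev x + ev y := by
  unfold ev
  simp only [Prod.fst_add, Prod.snd_add]
  push_cast
  ring

lemma ev_sub (x y : ℤ × ℤ) : ev (x - y) = ev x - ev y := by
  unfold ev
  simp only [Prod.fst_sub, Prod.snd_sub]
  push_cast
  ring

/-- dot product of code vectors -/
def dotz (u v : Fin 3 → ℤ × ℤ) : ℤ × ℤ :=
  mulz (u 0) (v 0) + mulz (u 1) (v 1) + mulz (u 2) (v 2)

/-- the vector with a given code -/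
noncomputable def emb (u : Fin 3 → ℤ × ℤ) : E3 := !₂[ev (u 0), ev (u 1), ev (u 2)]

lemma inner_emb (u v : Fin 3 → ℤ × ℤ) : ⟪emb u, emb v⟫ = ev (dotz u v) := by
  unfold emb dotz
  rw [ev_add, ev_add, ev_mulz, ev_mulz, ev_mulz, PiLp.inner_apply]
  simp [Fin.sum_univ_three]
  ring

lemma emb_sub (u v : Fin 3 → ℤ × ℤ) : emb u - emb v = emb (u - v) := by
  ext i
  unfold emb
  fin_cases i <;> simp [ev_sub]

/-- the reflected code vector, up to a factor -/
def rfz (v u : Fin 3 → ℤ × ℤ) : Fin 3 → ℤ × ℤ := fun k =>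
  mulz (dotz v v) (u k) - mulz (mulz (2, 0) (dotz v u)) (v k)

lemma reflect_emb {u v w : Fin 3 → ℤ × ℤ} (hv : ev (dotz v v) ≠ 0)
    (h : ∀ k, rfz v u k = mulz (dotz v v) (w k)) :
    emb u - (2 * ⟪emb v, emb u⟫ / ⟪emb v, emb v⟫) • emb v = emb w := by
  rw [inner_emb, inner_emb]
  have h2 : ev (2, 0) = 2 := by unfold ev; simp
  have key : ∀ k, ev (u k) - (2 * ev (dotz v u) / ev (dotz v v)) * ev (v k) = ev (w k) := by
    intro k
    have h1 := congrArg ev (h k)
    unfold rfz at h1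
    rw [ev_sub, ev_mulz, ev_mulz, ev_mulz, ev_mulz, h2] at h1
    field_simp
    linarith
  ext i
  unfold emb
  fin_cases i
  · simpa using key 0
  · simpa using key 1
  · simpa using key 2

/-- flags among codes -/
def flagz {n : ℕ} (P : Fin n → Fin 3 → ℤ × ℤ) (q : ℤ × ℤ) :
    Finset (Fin n × Fin n × Fin n) :=
  Finset.univ.filter (fun t => dotz (P t.1) (P t.2.1) = q ∧ dotz (P t.1) (P t.2.2) = q ∧
    dotz (P t.2.1) (P t.2.2) = q)

/-- the abstract data for one of the solids -/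
structure Code {n : ℕ} (P : Fin n → Fin 3 → ℤ × ℤ) (a b c d : Fin n) (p q : ℤ × ℤ)
    (l : List (ℤ × ℤ)) : Prop where
  self : ∀ i, dotz (P i) (P i) = p
  off : ∀ i j, i ≠ j → dotz (P i) (P j) = q ∨ dotz (P i) (P j) ∈ l
  lt : ∀ c ∈ l, ev c < ev q
  ab : dotz (P a) (P b) = q
  ac : dotz (P a) (P c) = q
  bc : dotz (P b) (P c) = q
  ad : dotz (P a) (P d) = q
  bd : dotz (P b) (P d) = q
  cd : c ≠ d
  qp : ev q < ev p
  pq : 0 < ev p + 2 * ev q
  r1 : ∀ i, ∃ j, ∀ k, rfz (P a - P b) (P i) k = mulz (dotz (P a - P b) (P a - P b)) (P j k)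
  r2 : ∀ i, ∃ j, ∀ k, rfz (P b - P c) (P i) k = mulz (dotz (P b - P c) (P b - P c)) (P j k)
  r3 : ∀ i, ∃ j, ∀ k, rfz (P c - P d) (P i) k = mulz (dotz (P c - P d) (P c - P d)) (P j k)
  nb : ∀ i, ∃ j k, dotz (P i) (P j) = q ∧ dotz (P i) (P k) = q ∧ dotz (P j) (P k) = q

namespace Code

variable {n : ℕ} {P : Fin n → Fin 3 → ℤ × ℤ} {a b c d : Fin n} {p q : ℤ × ℤ} {l : List (ℤ × ℤ)}

lemma inj (h : Code P a b c d p q l) : Function.Injective (fun i => emb (P i)) := by
  intro i j hij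
  by_contra hne
  simp only at hij
  have h1 : ⟪emb (P i), emb (P j)⟫ = ev p := by
    rw [hij, inner_emb, h.self]
  rw [inner_emb] at h1
  have h2 := h.qp
  rcases h.off i j hne with h3 | h3
  · rw [h3] at h1; linarith
  · have := h.lt _ h3
    linarith

lemma eq_q (h : Code P a b c d p q l) (i j : Fin n) :
    ⟪emb (P i), emb (P j)⟫ = ev q ↔ dotz (P i) (P j) = q := by
  rw [inner_emb]
  constructor
  · intro h1
    by_cases hij : i = j
    · subst hij
      rw [h.self] at h1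
      have := h.qp
      linarith
    · rcases h.off i j hij with h3 | h3
      · exact h3
      · have := h.lt _ h3
        linarith
  · intro h1; rw [h1]

lemma refl_mem (h : Code P a b c d p q l) {i j : Fin n} (hij : i ≠ j)
    (hr : ∀ m, ∃ t, ∀ k, rfz (P i - P j) (P m) k =
      mulz (dotz (P i - P j) (P i - P j)) (P t k)) :
    ∀ x ∈ Set.range (fun i => emb (P i)), x - (2 * ⟪emb (P i) - emb (P j), x⟫ /
      ⟪emb (P i) - emb (P j), emb (P i) - emb (P j)⟫) • (emb (P i) - emb (P j)) ∈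
      Set.range (fun i => emb (P i)) := by
  rintro _ ⟨m, rfl⟩
  obtain ⟨t, ht⟩ := hr m
  refine ⟨t, ?_⟩
  simp only
  rw [emb_sub, reflect_emb _ ht]
  rw [← inner_emb, ← emb_sub]
  intro h0
  have h1 := inner_self_eq_zero (𝕜 := ℝ).1 h0
  exact hij (h.inj (sub_eq_zero.1 h1))

lemma solid (h : Code P a b c d p q l) :
    Solid (Set.range (fun i => emb (P i))) (emb (P a)) (emb (P b)) (emb (P c)) (emb (P d))
      (ev p) (ev q) where
  fin := Set.finite_range _
  self := by rintro _ ⟨i, rfl⟩; simp only [inner_emb, h.self]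
  le_q := by
    rintro _ ⟨i, rfl⟩ _ ⟨j, rfl⟩ hne
    have hij : i ≠ j := fun h0 => hne (by rw [h0])
    simp only [inner_emb]
    rcases h.off i j hij with h3 | h3
    · rw [h3]
    · exact (h.lt _ h3).le
  ma := ⟨a, rfl⟩
  mb := ⟨b, rfl⟩
  mc := ⟨c, rfl⟩
  md := ⟨d, rfl⟩
  ab := (h.eq_q _ _).2 h.ab
  ac := (h.eq_q _ _).2 h.ac
  bc := (h.eq_q _ _).2 h.bc
  ad := (h.eq_q _ _).2 h.ad
  bd := (h.eq_q _ _).2 h.bd
  cd := fun h0 => h.cd (h.inj h0)
  qp := h.qp
  pq := h.pq
  r1 := h.refl_mem (by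
    rintro rfl
    have h1 := h.ab
    rw [h.self] at h1
    have := h.qp
    rw [h1] at this
    exact lt_irrefl _ this) h.r1
  r2 := h.refl_mem (by
    rintro rfl
    have h1 := h.bc
    rw [h.self] at h1
    have := h.qp
    rw [h1] at this
    exact lt_irrefl _ this) h.r2
  r3 := h.refl_mem h.cd h.r3

lemma flags_card (h : Code P a b c d p q l) :
    ({t : E3 × E3 × E3 | Flag (Set.range (fun i => emb (P i))) (ev q) t.1 t.2.1 t.2.2} :
      Set (E3 × E3 × E3)).ncard = (flagz P q).card := by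
  rw [← Set.ncard_coe_finset]
  symm
  apply Set.ncard_congr (fun t _ => (emb (P t.1), emb (P t.2.1), emb (P t.2.2)))
  · rintro ⟨i, j, k⟩ ht
    simp only [flagz, Finset.coe_filter, Finset.mem_univ, true_and, Set.mem_ofPred_eq] at ht
    exact ⟨⟨i, rfl⟩, ⟨j, rfl⟩, ⟨k, rfl⟩, (h.eq_q _ _).2 ht.1, (h.eq_q _ _).2 ht.2.1,
      (h.eq_q _ _).2 ht.2.2⟩
  · rintro ⟨i, j, k⟩ ⟨i', j', k'⟩ _ _ he
    simp only [Prod.mk.injEq] at he
    have e1 := h.inj he.1
    have e2 := h.inj he.2.1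
    have e3 := h.inj he.2.2
    rw [e1, e2, e3]
  · rintro ⟨x, y, z⟩ hf
    obtain ⟨⟨i, rfl⟩, ⟨j, rfl⟩, ⟨k, rfl⟩, h1, h2, h3⟩ := hf
    refine ⟨(i, j, k), ?_, rfl⟩
    simp only [flagz, Finset.coe_filter, Finset.mem_univ, true_and, Set.mem_ofPred_eq]
    exact ⟨(h.eq_q _ _).1 h1, (h.eq_q _ _).1 h2, (h.eq_q _ _).1 h3⟩

lemma orb0_card (h : Code P a b c d p q l) :
    (Orb (Set.range (fun i => emb (P i))) (emb (P a)) (emb (P b)) (emb (P c)) 0).ncard = n := by
  rw [h.solid.orb0_eq]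
  · rw [← Set.image_univ, Set.ncard_image_of_injective _ h.inj, Set.ncard_univ,
      Nat.card_eq_fintype_card, Fintype.card_fin]
  · rintro _ ⟨i, rfl⟩
    obtain ⟨j, k, h1, h2, h3⟩ := h.nb i
    exact ⟨emb (P j), emb (P k), ⟨i, rfl⟩, ⟨j, rfl⟩, ⟨k, rfl⟩, (h.eq_q _ _).2 h1,
      (h.eq_q _ _).2 h2, (h.eq_q _ _).2 h3⟩

theorem ssubset (h : Code P a b c d p q l) {g : ℕ} (hg : (flagz P q).card = 2 * (6 * g))
    (h1 : n < 3 * g) (h2 : n ≠ g) :
    fSet (fullGroup (convexHull ℝ (Set.range (fun i => emb (P i))))) ⊂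
    fSet (rotationGroup (convexHull ℝ (Set.range (fun i => emb (P i))))) := by
  have hs := h.solid
  have c1 := hs.card_flags
  rw [h.flags_card, hg] at c1
  have c2 := hs.card_full
  have c3 := hs.card_orb1
  have c4 := hs.card_orb2
  have c5 := h.orb0_card
  have c6 : ((rotationGroup (convexHull ℝ (Set.range (fun i => emb (P i)))) :
      Subgroup (E3 ≃ₗᵢ[ℝ] E3)) : Set (E3 ≃ₗᵢ[ℝ] E3)).ncard = 6 * g := by omega
  rw [c6] at c3 c4
  apply hs.fSet_ssubset
  · intro K
    rw [c6]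
    have hK : ∑ k ∈ K, (Orb (Set.range (fun i => emb (P i))) (emb (P a)) (emb (P b))
        (emb (P c)) k).ncard = ∑ k, if k ∈ K then (Orb (Set.range (fun i => emb (P i)))
        (emb (P a)) (emb (P b)) (emb (P c)) k).ncard else 0 := by
      rw [Finset.sum_ite_mem, Finset.univ_inter]
    rw [hK, Fin.sum_univ_three]
    split_ifs <;> omega
  · rw [c6]; omega

end Code

/-- codes of the vertices of the tetrahedron -/
def PT : Fin 4 → Fin 3 → ℤ × ℤ :=
  ![![(1, 0), (1, 0), (1, 0)], ![(1, 0), (-1, 0), (-1, 0)], ![(-1, 0), (1, 0), (-1, 0)],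
    ![(-1, 0), (-1, 0), (1, 0)]]

/-- codes of the vertices of the octahedron -/
def PO : Fin 6 → Fin 3 → ℤ × ℤ :=
  ![![(1, 0), (0, 0), (0, 0)], ![(0, 0), (1, 0), (0, 0)], ![(0, 0), (0, 0), (1, 0)],
    ![(-1, 0), (0, 0), (0, 0)], ![(0, 0), (-1, 0), (0, 0)], ![(0, 0), (0, 0), (-1, 0)]]

/-- codes of the vertices of the icosahedron -/
def PI : Fin 12 → Fin 3 → ℤ × ℤ :=
  ![![(0, 0), (1, 0), (0, 1)], ![(0, 0), (-1, 0), (0, 1)], ![(0, 1), (0, 0), (1, 0)],
    ![(-0, -1), (0, 0), (1, 0)],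
    ![(0, 0), (1, 0), (0, -1)], ![(0, 0), (-1, 0), (0, -1)], ![(0, 1), (0, 0), (-1, 0)],
    ![(0, -1), (0, 0), (-1, 0)],
    ![(1, 0), (0, 1), (0, 0)], ![(1, 0), (0, -1), (0, 0)], ![(-1, 0), (0, 1), (0, 0)],
    ![(-1, 0), (0, -1), (0, 0)]]

lemma codeT : Code PT 0 1 2 3 (3, 0) (-1, 0) [] where
  self := by decide
  off := by decide
  lt := by simp
  ab := by decide
  ac := by decide
  bc := by decide
  ad := by decide
  bd := by decide
  cd := by decide
  qp := by unfold ev; norm_num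
  pq := by unfold ev; norm_num
  r1 := by decide
  r2 := by decide
  r3 := by decide
  nb := by decide

lemma codeO : Code PO 0 1 2 5 (1, 0) (0, 0) [(-1, 0)] where
  self := by decide
  off := by decide
  lt := by unfold ev; simp
  ab := by decide
  ac := by decide
  bc := by decide
  ad := by decide
  bd := by decide
  cd := by decide
  qp := by unfold ev; norm_num
  pq := by unfold ev; norm_num
  r1 := by decide
  r2 := by decide
  r3 := by decide
  nb := by decide

lemma codeI : Code PI 0 1 2 3 (2, 1) (0, 1) [(0, -1), (-2, -1)] where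
  self := by decide
  off := by decide
  lt := by
    have := Real.goldenRatio_pos
    intro c hc
    rw [List.mem_cons, List.mem_singleton] at hc
    unfold ev
    rcases hc with rfl | rfl <;> push_cast <;> linarith
  ab := by decide
  ac := by decide
  bc := by decide
  ad := by decide
  bd := by decide
  cd := by decide
  qp := by unfold ev; norm_num
  pq := by
    unfold ev
    have := Real.goldenRatio_pos
    norm_num
    linarith
  r1 := by decide
  r2 := by decide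
  r3 := by decide
  nb := by decide

lemma cardT : (flagz PT (-1, 0)).card = 24 := by decide +kernel
lemma cardO : (flagz PO (0, 0)).card = 48 := by decide +kernel
lemma cardI : (flagz PI (0, 1)).card = 120 := by decide +kernel

end Snub
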